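import Pool.Agent.H75.Zel.Basic

/-!
# Step 1: annihilators
-/

set_option autoImplicit false

open Finset

namespace Pool.Agent.H75.Zel

/-- `L` is closed under commutators. -/
def LieClosed {R : Type*} [Ring R] [Algebra ℚ R] (L : Submodule ℚ R) : Prop :=
  ∀ x ∈ L, ∀ y ∈ L, x * y - y * x ∈ L

/-- Products of `f` elements of a commutator closed space of elements with `z ^ (N + 1) = 0` vanish. -/
def NilBound (N f : ℕ) : Prop :=
  ∀ (R : Type) [Ring R] [Algebra ℚ R] (L : Submodule ℚ R), LieClosed L →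
    (∀ z ∈ L, z ^ (N + 1) = 0) → L ^ f ≤ ⊥

section
variable {R : Type} [Ring R] [Algebra ℚ R] (L : Submodule ℚ R)

/-- The right annihilator of `m` in `L`. -/
def ann (m : R) : Submodule ℚ R where
  carrier := {g | g ∈ L ∧ m * g = 0}
  add_mem' := by
    rintro a b ⟨ha, ha'⟩ ⟨hb, hb'⟩
    exact ⟨L.add_mem ha hb, by rw [mul_add, ha', hb', add_zero]⟩
  zero_mem' := ⟨L.zero_mem, mul_zero _⟩
  smul_mem' := by
    rintro c a ⟨ha, ha'⟩
    exact ⟨L.smul_mem c ha, by rw [mul_smul_comm, ha', smul_zero]⟩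

variable {L}

theorem mem_ann {m g : R} : g ∈ ann L m ↔ g ∈ L ∧ m * g = 0 := Iff.rfl

theorem ann_le (m : R) : ann L m ≤ L := fun _ h => h.1

theorem mul_mul_pow_of_mem_ann {N : ℕ} (hnil : ∀ z ∈ L, z ^ (N + 2) = 0) {m u g : R} (hu : u ∈ L)
    (hg : g ∈ ann L m) : m * u * g ^ (N + 1) = 0 := by
  classical
  let F : MultilinearMap ℚ (fun _ : Fin (N + 2) => R) R :=
    (LinearMap.mulLeft ℚ m).compMultilinearMap (prodMap R (N + 2))
  have hF : ∀ z, F z = m * (List.ofFn z).prod := fun z => by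
    simp [F, prodMap, MultilinearMap.mkPiAlgebraFin_apply]
  let z : Fin (N + 2) → R := Fin.cons u fun _ => g
  have hz : ∀ i, z i ∈ L := by
    intro i
    refine Fin.cases ?_ (fun i => ?_) i
    · exact hu
    · exact hg.1
  have h := polarize F L (fun v hv => by
    rw [hF, List.ofFn_const, List.prod_replicate, hnil v hv, mul_zero]) z hz
  have h1 : ∀ σ : Equiv.Perm (Fin (N + 2)),
      F (fun i => z (σ i)) = if σ 0 = 0 then m * u * g ^ (N + 1) else 0 := by
    intro σ
    rw [hF, List.ofFn_succ, List.prod_cons]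
    split_ifs with h0
    · have h2 : (fun i : Fin (N + 1) => z (σ i.succ)) = fun _ => g := by
        funext i
        have : σ i.succ ≠ 0 := by
          intro h3
          rw [← h0] at h3
          exact (Fin.succ_ne_zero i) (σ.injective h3)
        obtain ⟨j, hj⟩ := Fin.exists_succ_eq.2 this
        rw [← hj]
        simp [z]
      rw [h2, h0, List.ofFn_const, List.prod_replicate]
      simp only [z, Fin.cons_zero, mul_assoc]
    · obtain ⟨j, hj⟩ := Fin.exists_succ_eq.2 h0
      rw [← hj]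
      have h3 : z j.succ = g := by simp [z]
      rw [h3, ← mul_assoc, hg.2, zero_mul]
  simp_rw [h1] at h
  rw [← Finset.sum_filter, Finset.sum_const] at h
  rw [← Nat.cast_smul_eq_nsmul ℚ, smul_eq_zero] at h
  refine h.resolve_left (Nat.cast_ne_zero.2 ?_)
  exact (Finset.card_pos.2 ⟨1, by simp⟩).ne'

/-- The Lie algebra `ann L m` acting on `mL` by right multiplication. -/
def actSpace (L : Submodule ℚ R) (m : R) :
    Submodule ℚ (Module.End ℚ (Submodule.map (LinearMap.mulLeft ℚ m) L)) where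
  carrier := {φ | ∃ g ∈ ann L m, ∀ w : Submodule.map (LinearMap.mulLeft ℚ m) L, ((φ w : R)) = w * g}
  add_mem' := by
    rintro φ ψ ⟨g, hg, hφ⟩ ⟨h, hh, hψ⟩
    exact ⟨g + h, add_mem hg hh, fun w => by simp [hφ, hψ, mul_add]⟩
  zero_mem' := ⟨0, zero_mem _, fun w => by simp⟩
  smul_mem' := by
    rintro c φ ⟨g, hg, hφ⟩
    exact ⟨c • g, Submodule.smul_mem _ c hg, fun w => by simp [hφ]⟩

/-- `[ann L m, ann L m] ⊆ ann L m`. -/
theorem lieClosed_ann (hL : LieClosed L) (m : R) : LieClosed (ann L m) := by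
  intro x hx y hy
  exact ⟨hL x hx.1 y hy.1, by rw [mul_sub, ← mul_assoc, hx.2, ← mul_assoc, hy.2]; simp⟩

theorem lieClosed_actSpace (hL : LieClosed L) (m : R) :
    LieClosed (R := Module.End ℚ (Submodule.map (LinearMap.mulLeft ℚ m) L)) (actSpace L m) := by
  rintro φ ⟨g, hg, hφ⟩ ψ ⟨h, hh, hψ⟩
  refine ⟨h * g - g * h, lieClosed_ann hL m h hh g hg, fun w => ?_⟩
  simp only [LinearMap.sub_apply, Module.End.mul_apply, AddSubgroupClass.coe_sub, hφ, hψ]
  rw [mul_sub, mul_assoc, mul_assoc]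

theorem exists_act (hL : LieClosed L) {m g : R} (hg : g ∈ ann L m) :
    ∃ φ ∈ actSpace L m, ∀ w : Submodule.map (LinearMap.mulLeft ℚ m) L, ((φ w : R)) = w * g := by
  have h : ∀ w ∈ Submodule.map (LinearMap.mulLeft ℚ m) L,
      LinearMap.mulRight ℚ g w ∈ Submodule.map (LinearMap.mulLeft ℚ m) L := by
    rintro w ⟨u, hu, rfl⟩
    refine ⟨u * g - g * u, hL u hu g hg.1, ?_⟩
    simp only [LinearMap.mulLeft_apply, LinearMap.mulRight_apply]
    rw [mul_sub, ← mul_assoc, ← mul_assoc, hg.2, zero_mul, sub_zero]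
  exact ⟨(LinearMap.mulRight ℚ g).restrict h, ⟨g, hg, fun w => by simp⟩, fun w => by simp⟩

/-- (*1): `m L C^K = 0` where `C` is the annihilator of `m` in `L`. -/
theorem span_mul_mul_ann_pow {N K : ℕ} (hK : NilBound N K) (hL : LieClosed L)
    (hnil : ∀ z ∈ L, z ^ (N + 2) = 0) (m : R) :
    Submodule.span ℚ {m} * L * ann L m ^ K ≤ ⊥ := by
  have h1 := hK (Module.End ℚ (Submodule.map (LinearMap.mulLeft ℚ m) L)) (actSpace L m)
      (lieClosed_actSpace hL m) (by
    rintro φ ⟨g, hg, hφ⟩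
    have h2 : ∀ (n : ℕ) (w : Submodule.map (LinearMap.mulLeft ℚ m) L),
        (((φ ^ n) w : _) : R) = w * g ^ n := by
      intro n
      induction n with
      | zero => intro w; simp
      | succ n ih =>
        intro w
        rw [pow_succ', Module.End.mul_apply, hφ, ih, mul_assoc, ← pow_succ]
    refine LinearMap.ext fun w => Subtype.ext ?_
    obtain ⟨w, u, hu, rfl⟩ := w
    rw [h2]
    simpa using mul_mul_pow_of_mem_ann hnil hu hg)
  rw [Submodule.mul_le]
  intro x hx y hy
  suffices h3 : ann L m ^ K ≤ LinearMap.ker (LinearMap.mulLeft ℚ x) by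
    have := h3 hy
    simpa using this
  rw [pow_le_iff_list]
  intro l hl hlen
  rw [LinearMap.mem_ker, LinearMap.mulLeft_apply]
  have hx' : x ∈ Submodule.map (LinearMap.mulLeft ℚ m) L := by
    obtain ⟨u, hu, rfl⟩ := Submodule.mem_span_singleton_mul.1 hx
    exact ⟨u, hu, rfl⟩
  have h4 : ∀ l : List R, (∀ g ∈ l, g ∈ ann L m) → ∃ l' : List (Module.End ℚ _),
      (∀ φ ∈ l', φ ∈ actSpace L m) ∧ l'.length = l.length ∧
      ∀ w : Submodule.map (LinearMap.mulLeft ℚ m) L, ((l'.prod w : _) : R) = w * l.prod := by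
    intro l
    induction l with
    | nil => intro _; exact ⟨[], by simp, rfl, by simp⟩
    | cons g l ih =>
      intro h
      obtain ⟨l', h1, h2, h3⟩ := ih fun x hx => h x (List.mem_cons_of_mem _ hx)
      obtain ⟨φ, hφ, hφ'⟩ := exists_act hL (h g List.mem_cons_self)
      refine ⟨l' ++ [φ], ?_, by simp [h2], ?_⟩
      · intro ψ hψ
        rw [List.mem_append, List.mem_singleton] at hψ
        rcases hψ with hψ | rfl
        · exact h1 ψ hψ
        · exact hφ
      · intro w
        rw [List.prod_append, List.prod_singleton, Module.End.mul_apply, h3, hφ', List.prod_cons,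
          mul_assoc]
  obtain ⟨l', h5, h6, h7⟩ := h4 l hl
  have h8 := pow_le_iff_list.1 h1 l' h5 (h6.trans hlen)
  rw [Submodule.mem_bot] at h8
  have h9 := h7 ⟨x, hx'⟩
  rw [h8] at h9
  simpa using h9.symm

end

end Pool.Agent.H75.Zel
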