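import Pool.Agent.H75.Zel.Ann

/-!
# Step 1, second part: `m R C(m)^K' = 0`
-/

set_option autoImplicit false

open Finset

namespace Pool.Agent.H75.Zel

variable {R : Type} [Ring R] [Algebra ℚ R] {L : Submodule ℚ R}

/-- The iterated normaliser series of `C` in `L`. -/
def nser (L C : Submodule ℚ R) : ℕ → Submodule ℚ R
  | 0 => C
  | i + 1 =>
    { carrier := {u | u ∈ L ∧ ∀ g ∈ C, u * g - g * u ∈ nser L C i}
      add_mem' := by
        rintro a b ⟨ha, ha'⟩ ⟨hb, hb'⟩
        refine ⟨add_mem ha hb, fun g hg => ?_⟩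
        have : (a + b) * g - g * (a + b) = (a * g - g * a) + (b * g - g * b) := by noncomm_ring
        rw [this]
        exact add_mem (ha' g hg) (hb' g hg)
      zero_mem' := ⟨zero_mem _, fun g hg => by simp⟩
      smul_mem' := by
        rintro c a ⟨ha, ha'⟩
        refine ⟨Submodule.smul_mem _ c ha, fun g hg => ?_⟩
        rw [smul_mul_assoc, mul_smul_comm, ← smul_sub]
        exact Submodule.smul_mem _ c (ha' g hg) }

theorem mem_nser_succ {C : Submodule ℚ R} {i : ℕ} {u : R} :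
    u ∈ nser L C (i + 1) ↔ u ∈ L ∧ ∀ g ∈ C, u * g - g * u ∈ nser L C i := Iff.rfl

theorem nser_succ_mul_le (C : Submodule ℚ R) (i : ℕ) :
    nser L C (i + 1) * C ≤ C * nser L C (i + 1) ⊔ nser L C i := by
  rw [Submodule.mul_le]
  intro u hu g hg
  have : u * g = g * u + (u * g - g * u) := by abel
  rw [this]
  exact Submodule.add_mem_sup (Submodule.mul_mem_mul hg hu) (hu.2 g hg)

theorem mul_nser_mul_le {C : Submodule ℚ R} : ∀ (s i : ℕ) (A : Submodule ℚ R), A * C ^ s ≤ ⊥ →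
    A * nser L C i * C ^ (s + i) ≤ ⊥ := by
  intro s
  induction s with
  | zero =>
    intro i A hA
    rw [pow_zero, mul_one] at hA
    have : A = ⊥ := le_bot_iff.1 hA
    rw [this, Submodule.bot_mul, Submodule.bot_mul]
  | succ s ihs =>
    intro i
    induction i with
    | zero =>
      intro A hA
      change A * C * C ^ (s + 1 + 0) ≤ ⊥
      rw [add_zero, mul_assoc, ← pow_succ', pow_succ, ← mul_assoc]
      calc A * C ^ (s + 1) * C ≤ ⊥ * C := mul_le_mul' hA le_rfl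
        _ = ⊥ := Submodule.bot_mul _
    | succ i ihi =>
      intro A hA
      have h1 : A * C * nser L C (i + 1) * C ^ (s + (i + 1)) ≤ ⊥ :=
        ihs (i + 1) (A * C) (by rw [mul_assoc, ← pow_succ']; exact hA)
      have h2 := ihi A hA
      have h3 : s + 1 + (i + 1) = (s + (i + 1)) + 1 := by ring
      rw [h3, pow_succ']
      calc A * nser L C (i + 1) * (C * C ^ (s + (i + 1)))
          = A * (nser L C (i + 1) * C) * C ^ (s + (i + 1)) := by simp only [mul_assoc]
        _ ≤ A * (C * nser L C (i + 1) ⊔ nser L C i) * C ^ (s + (i + 1)) :=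
            mul_le_mul' (mul_le_mul' le_rfl (nser_succ_mul_le C i)) le_rfl
        _ = A * C * nser L C (i + 1) * C ^ (s + (i + 1)) ⊔
              A * nser L C i * C ^ (s + (i + 1)) := by
            rw [Submodule.mul_sup, Submodule.sup_mul]
            simp only [mul_assoc]
        _ ≤ ⊥ := by
            refine sup_le h1 ?_
            have : s + (i + 1) = s + 1 + i := by ring
            rw [this]
            exact h2

/-- If `m u C^j = 0` then `u` lies in the `j`-th normaliser. -/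
theorem mem_nser_of (hL : LieClosed L) (m : R) : ∀ (j : ℕ) (u : R), u ∈ L →
    (∀ x ∈ ann L m ^ j, m * u * x = 0) → u ∈ nser L (ann L m) j := by
  intro j
  induction j with
  | zero =>
    intro u hu h
    refine ⟨hu, ?_⟩
    have := h 1 (by rw [pow_zero]; exact Submodule.one_le.1 le_rfl)
    rwa [mul_one] at this
  | succ j ih =>
    intro u hu h
    refine ⟨hu, fun g hg => ih _ (hL u hu g hg.1) fun x hx => ?_⟩
    rw [mul_sub, ← mul_assoc, ← mul_assoc, hg.2, zero_mul, sub_zero, mul_assoc (m * u)]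
    exact h _ (by rw [pow_succ']; exact Submodule.mul_mem_mul hg hx)

/-- `(*1)`: the `K`-th normaliser of `ann L m` is `L`. -/
theorem le_nser {N K : ℕ} (hK : NilBound N K) (hL : LieClosed L)
    (hnil : ∀ z ∈ L, z ^ (N + 2) = 0) (m : R) : L ≤ nser L (ann L m) K := by
  intro u hu
  refine mem_nser_of hL m K u hu fun x hx => ?_
  have := span_mul_mul_ann_pow hK hL hnil m
    (Submodule.mul_mem_mul (Submodule.mul_mem_mul (Submodule.mem_span_singleton_self m) hu) hx)
  simpa using this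

theorem mul_pow_mul_le {N K : ℕ} (hK : NilBound N K) (hL : LieClosed L)
    (hnil : ∀ z ∈ L, z ^ (N + 2) = 0) (m : R) (A : Submodule ℚ R) (s : ℕ)
    (hA : A * ann L m ^ s ≤ ⊥) (r : ℕ) : A * (1 ⊔ L) ^ r * ann L m ^ (s + r * K) ≤ ⊥ := by
  induction r with
  | zero => simpa using hA
  | succ r ih =>
    have h1 := mul_nser_mul_le (L := L) (s + r * K) K _ ih
    have e : s + (r + 1) * K = s + r * K + K := by ring
    rw [e, pow_succ, ← mul_assoc, Submodule.mul_sup, Submodule.sup_mul, mul_one]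
    refine sup_le ?_ ?_
    · rw [pow_add, ← mul_assoc]
      calc A * (1 ⊔ L) ^ r * ann L m ^ (s + r * K) * ann L m ^ K ≤ ⊥ * ann L m ^ K :=
            mul_le_mul' ih le_rfl
        _ = ⊥ := Submodule.bot_mul _
    · exact (mul_le_mul' (mul_le_mul' le_rfl (le_nser hK hL hnil m)) le_rfl).trans h1

/-- `L^n ≤ (1 + L)^(n-1)` if `z^n = 0` on `L`. -/
theorem pow_le_one_sup_pow (hL : LieClosed L) {N : ℕ} (hnil : ∀ z ∈ L, z ^ (N + 2) = 0) :
    L ^ (N + 2) ≤ (1 ⊔ L) ^ (N + 1) := by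
  classical
  have hLB : ∀ n, L ^ n ≤ (1 ⊔ L) ^ n := fun n => pow_le_pow_left' le_sup_right n
  let Q : ℕ → Submodule ℚ R := fun k => match k with
    | 0 => ⊥
    | 1 => ⊥
    | (n + 2) => (1 ⊔ L) ^ (n + 1)
  have hQ : ∀ n, ∀ a ∈ L, ∀ q ∈ Q n, a * q ∈ Q (n + 1) := by
    intro n a ha q hq
    match n, hq with
    | 0, hq =>
      have : q = 0 := by simpa [Q] using hq
      simp [this]
    | 1, hq =>
      have : q = 0 := by simpa [Q] using hq
      simp [this]
    | (n + 2), hq =>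
      change a * q ∈ (1 ⊔ L) ^ (n + 2)
      rw [pow_succ']
      exact Submodule.mul_mem_mul (Submodule.mem_sup_right ha) hq
  have hs : ∀ x ∈ L, ∀ y ∈ L, ∀ l : List R, (∀ z ∈ l, z ∈ L) →
      (x * y - y * x) * l.prod ∈ Q (l.length + 2) := by
    intro x hx y hy l hl
    change _ ∈ (1 ⊔ L) ^ (l.length + 1)
    rw [pow_succ']
    exact Submodule.mul_mem_mul (Submodule.mem_sup_right (hL x hx y hy)) (hLB _ (prod_mem_pow l hl))
  rw [pow_le_iff]
  intro x hx
  refine mem_of_sum_perm _ (fun σ : Equiv.Perm (Fin (N + 2)) => (List.ofFn fun i => x (σ i)).prod)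
    _ ?_ ?_
  · have h := polarize (prodMap R (N + 2)) L (fun v hv => by
      rw [MultilinearMap.mkPiAlgebraFin_apply, List.ofFn_const, List.prod_replicate, hnil v hv]) x hx
    simpa [MultilinearMap.mkPiAlgebraFin_apply] using h
  · intro σ
    have h := prod_perm_sub_mem L Q hQ hs (l := List.ofFn (x ∘ σ)) (l' := List.ofFn x)
      (Equiv.Perm.ofFn_comp_perm σ x) (by
        intro z hz
        obtain ⟨i, rfl⟩ := List.mem_ofFn.1 hz
        exact hx _)
    rw [List.length_ofFn] at h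
    exact h

theorem one_sup_pow_succ_le (L : Submodule ℚ R) (n : ℕ) :
    (1 ⊔ L) ^ (n + 1) ≤ (1 ⊔ L) ^ n ⊔ L ^ (n + 1) := by
  have hLB : ∀ n, L ^ n ≤ (1 ⊔ L) ^ n := fun n => pow_le_pow_left' le_sup_right n
  induction n with
  | zero => simp
  | succ n ih =>
    calc (1 ⊔ L) ^ (n + 1 + 1) = (1 ⊔ L) * (1 ⊔ L) ^ (n + 1) := pow_succ' _ _
      _ ≤ (1 ⊔ L) * ((1 ⊔ L) ^ n ⊔ L ^ (n + 1)) := mul_le_mul' le_rfl ih
      _ = (1 ⊔ L) ^ (n + 1) ⊔ (L ^ (n + 1) ⊔ L ^ (n + 2)) := by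
          rw [Submodule.mul_sup, ← pow_succ', Submodule.sup_mul 1 L, one_mul, ← pow_succ']
      _ ≤ (1 ⊔ L) ^ (n + 1) ⊔ L ^ (n + 1 + 1) :=
          sup_le le_sup_left (sup_le ((hLB _).trans le_sup_left) le_sup_right)

theorem top_le_pow {n : ℕ} (hgen : Algebra.adjoin ℚ (L : Set R) = ⊤)
    (h : (1 ⊔ L) ^ (n + 1) ≤ (1 ⊔ L) ^ n) : (⊤ : Submodule ℚ R) ≤ (1 ⊔ L) ^ n := by
  have h1 : (1 : Submodule ℚ R) ≤ 1 ⊔ L := le_sup_left
  have h1' : (1 : Submodule ℚ R) ≤ (1 ⊔ L) ^ n := one_le_pow_of_one_le' h1 n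
  have h2 : ∀ k, (1 ⊔ L) ^ n * (1 ⊔ L) ^ k ≤ (1 ⊔ L) ^ n := by
    intro k
    induction k with
    | zero => simp
    | succ k ih =>
      rw [pow_succ, ← mul_assoc]
      calc (1 ⊔ L) ^ n * (1 ⊔ L) ^ k * (1 ⊔ L) ≤ (1 ⊔ L) ^ n * (1 ⊔ L) := mul_le_mul' ih le_rfl
        _ = (1 ⊔ L) ^ (n + 1) := (pow_succ _ _).symm
        _ ≤ _ := h
  let T : Subalgebra ℚ R :=
    { carrier := ((1 ⊔ L) ^ n : Submodule ℚ R)
      mul_mem' := fun {a b} ha hb => h2 n (Submodule.mul_mem_mul ha hb)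
      one_mem' := Submodule.one_le.1 h1'
      add_mem' := fun {a b} ha hb => add_mem ha hb
      zero_mem' := zero_mem _
      algebraMap_mem' := fun r => h1' (Submodule.algebraMap_mem r) }
  by_cases hn : n = 0
  · subst hn
    rw [pow_zero, zero_add, pow_one] at h
    have h3 : Algebra.adjoin ℚ (L : Set R) ≤ T := by
      rw [Algebra.adjoin_le_iff]
      intro x hx
      exact (show L ≤ (1 ⊔ L) ^ 0 by rw [pow_zero]; exact le_sup_right.trans h) hx
    intro x _
    exact h3 (hgen ▸ Algebra.mem_top)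
  · have h3 : Algebra.adjoin ℚ (L : Set R) ≤ T := by
      rw [Algebra.adjoin_le_iff]
      intro x hx
      have : (1 ⊔ L : Submodule ℚ R) ≤ (1 ⊔ L) ^ n := le_self_pow h1 hn
      exact this (Submodule.mem_sup_right hx)
    intro x _
    exact h3 (hgen ▸ Algebra.mem_top)

theorem top_le_pow' (hL : LieClosed L) {N : ℕ} (hnil : ∀ z ∈ L, z ^ (N + 2) = 0)
    (hgen : Algebra.adjoin ℚ (L : Set R) = ⊤) : (⊤ : Submodule ℚ R) ≤ (1 ⊔ L) ^ (N + 1) :=
  top_le_pow hgen ((one_sup_pow_succ_le L (N + 1)).trans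
    (sup_le le_rfl (pow_le_one_sup_pow hL hnil)))

/-- `(*2)` -/
theorem star_two {N K : ℕ} (hK : NilBound N K) (hL : LieClosed L)
    (hnil : ∀ z ∈ L, z ^ (N + 2) = 0) (hgen : Algebra.adjoin ℚ (L : Set R) = ⊤) (m : R) :
    Submodule.span ℚ {m} * ⊤ * ann L m ^ (1 + (N + 1) * K) ≤ ⊥ := by
  refine (mul_le_mul' (mul_le_mul' le_rfl (top_le_pow' hL hnil hgen)) le_rfl).trans
    (mul_pow_mul_le hK hL hnil m _ 1 ?_ (N + 1))
  rw [pow_one, Submodule.mul_le]
  intro x hx g hg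
  obtain ⟨c, rfl⟩ := Submodule.mem_span_singleton.1 hx
  rw [smul_mul_assoc, hg.2, smul_zero]
  exact zero_mem _

end Pool.Agent.H75.Zel
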