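import Mathlib

/-!
# Polarisation and basic definitions for the elementary proof of Zelmanov's theorem
-/

set_option autoImplicit false

open Finset

namespace Pool.Agent.H75.Zel

/-- Polarisation: a multilinear map over `ℚ` which vanishes on the diagonal of a subspace has vanishing
symmetrisation on that subspace. -/
theorem polarize {n : ℕ} {M W : Type*} [AddCommGroup M] [Module ℚ M] [AddCommGroup W] [Module ℚ W]
    (f : MultilinearMap ℚ (fun _ : Fin n => M) W) (V : Submodule ℚ M)
    (h : ∀ v ∈ V, f (fun _ => v) = 0) (z : Fin n → M) (hz : ∀ i, z i ∈ V) :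
    ∑ σ : Equiv.Perm (Fin n), f (fun i => z (σ i)) = 0 := by
  classical
  have h1 : ∀ S : Finset (Fin n),
      ∑ r : Fin n → Fin n, (if ∀ i, r i ∈ S then f (fun i => z (r i)) else 0) = 0 := by
    intro S
    have hS : f (fun _ => ∑ j ∈ S, z j) = 0 := h _ (Submodule.sum_mem _ fun i _ => hz i)
    rw [f.map_sum_finset (fun _ j => z j) (fun _ => S)] at hS
    rw [← Finset.sum_filter]
    refine Eq.trans (Finset.sum_congr ?_ fun _ _ => rfl) hS
    ext r
    simp [Fintype.mem_piFinset]
  have h2 : ∑ S : Finset (Fin n), (-1 : ℚ) ^ S.card •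
      ∑ r : Fin n → Fin n, (if ∀ i, r i ∈ S then f (fun i => z (r i)) else 0) = 0 := by
    simp [h1]
  have h3 : ∀ r : Fin n → Fin n, ∑ S : Finset (Fin n), (-1 : ℚ) ^ S.card •
      (if ∀ i, r i ∈ S then f (fun i => z (r i)) else 0) =
      (if Function.Surjective r then (-1 : ℚ) ^ n else 0) • f (fun i => z (r i)) := by
    intro r
    have h4 : ∀ S : Finset (Fin n), (-1 : ℚ) ^ S.card •
        (if ∀ i, r i ∈ S then f (fun i => z (r i)) else 0) =
        ((∏ _j ∈ S, (-1 : ℚ)) * ∏ j ∈ univ \ S, (if j ∈ Set.range r then 0 else 1)) •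
          f (fun i => z (r i)) := by
      intro S
      split_ifs with hs
      · rw [Finset.prod_const, Finset.prod_eq_one, mul_one]
        intro j hj
        rw [if_neg]
        rintro ⟨i, rfl⟩
        simp only [mem_sdiff, mem_univ, true_and] at hj
        exact hj (hs i)
      · push Not at hs
        obtain ⟨i, hi⟩ := hs
        rw [Finset.prod_eq_zero (s := univ \ S) (i := r i) (by simp [hi]) (by simp)]
        simp
    simp_rw [h4, ← Finset.sum_smul]
    congr 1
    have h5 := Finset.prod_add (fun _ : Fin n => (-1 : ℚ))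
      (fun j => if j ∈ Set.range r then (0 : ℚ) else 1) univ
    rw [Finset.powerset_univ] at h5
    rw [← h5]
    split_ifs with hr
    · have : ∀ j : Fin n, (-1 : ℚ) + (if j ∈ Set.range r then (0 : ℚ) else 1) = -1 := by
        intro j
        rw [if_pos (Set.mem_range.2 (hr j))]
        simp
      simp_rw [this]
      simp
    · rw [Function.Surjective] at hr
      push Not at hr
      obtain ⟨j, hj⟩ := hr
      refine Finset.prod_eq_zero (mem_univ j) ?_
      rw [if_neg]
      · simp
      · rintro ⟨i, hi⟩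
        exact hj i hi
  have h6 : ∑ r : Fin n → Fin n, (if Function.Surjective r then (-1 : ℚ) ^ n else 0) •
      f (fun i => z (r i)) = 0 := by
    rw [← h2]
    simp_rw [Finset.smul_sum]
    rw [Finset.sum_comm]
    exact Finset.sum_congr rfl fun r _ => (h3 r).symm
  have h7 : ∑ r : Fin n → Fin n, (if Function.Surjective r then (-1 : ℚ) ^ n else 0) •
      f (fun i => z (r i)) = (-1 : ℚ) ^ n • ∑ σ : Equiv.Perm (Fin n), f (fun i => z (σ i)) := by
    rw [Finset.smul_sum]
    symm
    refine Finset.sum_of_injOn (fun σ : Equiv.Perm (Fin n) => (σ : Fin n → Fin n)) ?_ ?_ ?_ ?_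
    · intro a _ b _ hab
      exact Equiv.coe_fn_injective hab
    · intro a _
      simp
    · intro r _ hr
      rw [if_neg, zero_smul]
      intro hs
      apply hr
      exact ⟨Equiv.ofBijective r ⟨Finite.injective_iff_surjective.2 hs, hs⟩, by simp, rfl⟩
    · intro σ _
      rw [if_pos σ.surjective]
  rw [h7] at h6
  have h8 : ((-1 : ℚ) ^ n) ≠ 0 := pow_ne_zero _ (by norm_num)
  exact (smul_eq_zero.1 h6).resolve_left h8

/-- If a symmetrised product vanishes and permuting the factors only changes the product modulo `Q`, the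
product itself lies in `Q`. -/
theorem mem_of_sum_perm {n : ℕ} {A : Type*} [AddCommGroup A] [Module ℚ A] (Q : Submodule ℚ A)
    (g : Equiv.Perm (Fin n) → A) (a : A) (hsum : ∑ σ, g σ = 0) (h : ∀ σ, g σ - a ∈ Q) : a ∈ Q := by
  have h1 : ∑ σ, (g σ - a) ∈ Q := Submodule.sum_mem _ fun σ _ => h σ
  rw [Finset.sum_sub_distrib, hsum, zero_sub, Finset.sum_const, neg_mem_iff] at h1
  rw [← Nat.cast_smul_eq_nsmul ℚ] at h1
  refine (Submodule.smul_mem_iff _ ?_).1 h1
  simp [Fintype.card_perm, Nat.factorial_ne_zero]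

section Ring
variable {A : Type*} [Ring A] [Algebra ℚ A]

theorem pow_le_iff {M Q : Submodule ℚ A} {n : ℕ} :
    M ^ n ≤ Q ↔ ∀ x : Fin n → A, (∀ i, x i ∈ M) → (List.ofFn x).prod ∈ Q := by
  constructor
  · intro h x hx
    apply h
    have := Submodule.pow_subset_pow M (n := n) (Set.mem_pow.2 ⟨fun i => ⟨x i, hx i⟩, rfl⟩)
    exact this
  · intro h
    rw [Submodule.pow_eq_span_pow_set, Submodule.span_le]
    intro a ha
    obtain ⟨f, rfl⟩ := Set.mem_pow.1 ha
    exact h (fun i => (f i : A)) fun i => (f i).2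

/-- A version with lists. -/
theorem pow_le_iff_list {M Q : Submodule ℚ A} {n : ℕ} :
    M ^ n ≤ Q ↔ ∀ l : List A, (∀ x ∈ l, x ∈ M) → l.length = n → l.prod ∈ Q := by
  rw [pow_le_iff]
  constructor
  · rintro h l hl rfl
    have := h l.get fun i => hl _ (List.get_mem _ _)
    rwa [List.ofFn_get] at this
  · intro h x hx
    refine h _ ?_ (by simp)
    intro y hy
    obtain ⟨i, rfl⟩ := List.mem_ofFn.1 hy
    exact hx i

theorem prod_mem_pow {M : Submodule ℚ A} (l : List A) (hl : ∀ x ∈ l, x ∈ M) :
    l.prod ∈ M ^ l.length :=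
  pow_le_iff_list.1 le_rfl l hl rfl

/-- Permuting the factors of a product of elements of `V` changes it only modulo `Q`. -/
theorem prod_perm_sub_mem (V : Submodule ℚ A) (Q : ℕ → Submodule ℚ A)
    (hQ : ∀ n, ∀ a ∈ V, ∀ q ∈ Q n, a * q ∈ Q (n + 1))
    (hs : ∀ x ∈ V, ∀ y ∈ V, ∀ l : List A, (∀ z ∈ l, z ∈ V) →
      (x * y - y * x) * l.prod ∈ Q (l.length + 2))
    {l l' : List A} (hp : l.Perm l') (hl : ∀ z ∈ l, z ∈ V) : l.prod - l'.prod ∈ Q l.length := by
  induction hp with
  | nil => simp
  | @cons x l₁ l₂ _ ih =>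
    have h1 := ih fun z hz => hl z (List.mem_cons_of_mem _ hz)
    have h2 := hQ _ x (hl x List.mem_cons_self) _ h1
    rw [List.prod_cons, List.prod_cons, ← mul_sub, List.length_cons]
    exact h2
  | @swap x y l =>
    have h1 := hs y (hl y List.mem_cons_self) x (hl x (List.mem_cons_of_mem _ List.mem_cons_self)) l
      fun z hz => hl z (List.mem_cons_of_mem _ (List.mem_cons_of_mem _ hz))
    simp only [List.prod_cons, List.length_cons]
    rw [sub_mul, mul_assoc, mul_assoc] at h1
    exact h1
  | @trans l₁ l₂ l₃ h₁ h₂ ih₁ ih₂ =>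
    have e1 := ih₁ hl
    have e2 := ih₂ fun z hz => hl z (h₁.mem_iff.2 hz)
    rw [← h₁.length_eq] at e2
    have := Submodule.add_mem _ e1 e2
    rwa [sub_add_sub_cancel] at this

end Ring

/-- The product of `n` factors as a multilinear map. -/
noncomputable abbrev prodMap (A : Type*) [Ring A] [Algebra ℚ A] (n : ℕ) :
    MultilinearMap ℚ (fun _ : Fin n => A) A := MultilinearMap.mkPiAlgebraFin ℚ n A

end Pool.Agent.H75.Zel
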