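import Pool.Agent.H75.Zel.SymLemma

/-!
# Step 5, second part: Lemma S and its version for several slots
-/

set_option autoImplicit false

open Finset

namespace Pool.Agent.H75.Zel

section LemmaS
variable {ι : Type*} [Fintype ι] [DecidableEq ι]
variable {V : Type*} [AddCommGroup V] [Module ℚ V] (ρ : Equiv.Perm ι →* Module.End ℚ V)

theorem eps_singleton (χ : Equiv.Perm ι →* ℤˣ) (a : ι) (v : V) : eps ρ χ {a} v = v := by
  have h := eps_insert ρ χ (Finset.notMem_empty a) v
  rw [insert_empty_eq, Finset.sum_singleton, eps_empty, Equiv.swap_self] at h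
  rw [h]
  change χ 1 • (ρ 1) ((1 : Module.End ℚ V) v) = v
  rw [map_one, map_one, one_smul]
  rfl

theorem add_sum_eq_eps (A : Finset ι) (b : ι) (hb : b ∉ A) (u : V) :
    eps ρ 1 A u + ∑ a ∈ A, ρ (Equiv.swap a b) (eps ρ 1 A u) = eps ρ 1 (insert b A) u := by
  rw [eps_insert ρ 1 hb, Finset.sum_insert hb, Equiv.swap_self]
  congr 1
  · change _ = (1 : Equiv.Perm ι →* ℤˣ) 1 • (ρ 1) (eps ρ 1 A u)
    rw [map_one, map_one, one_smul]
    rfl
  · refine Finset.sum_congr rfl fun a _ => ?_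
    rw [MonoidHom.one_apply, one_smul]

theorem exists_blocks {A₀ : Finset ι} {E : ℕ} (hE : 2 ≤ E) (hcard : (E - 1) ^ 2 < A₀.card)
    (M : Submodule ℚ V) (hM : ∀ A ⊆ A₀, A.card = E → ∀ u ∈ M, eps ρ 1 A u = 0)
    (hst : ∀ σ ∈ PA A₀, ∀ u ∈ M, ρ σ u ∈ M) {v : V} (hv : v ∈ M) (hv0 : v ≠ 0) :
    ∀ l ≤ E, ∃ (bs : List (Finset ι)) (u : V), bs.length = l ∧ Str A₀ bs ∧ Lin ρ A₀ bs u ∧
      u ∈ M ∧ u ≠ 0 ∧ (bs.foldr (· ∪ ·) ∅).card ≤ l * (E - 1) := by
  classical
  have hfold : ∀ (bs : List (Finset ι)) (b : ι), b ∈ bs.foldr (· ∪ ·) ∅ ↔ ∃ B ∈ bs, b ∈ B := by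
    intro bs b
    induction bs with
    | nil => simp
    | cons A bs ih => simp [ih]
  intro l
  induction l with
  | zero => intro _; exact ⟨[], v, rfl, trivial, trivial, hv, hv0, by simp⟩
  | succ l ih =>
    intro hl
    obtain ⟨bs, u, hlen, hstr, hlin, huM, hu0, hc⟩ := ih (by omega)
    set Ub := bs.foldr (· ∪ ·) ∅ with hUb
    have h1 : Ub.card < A₀.card := by
      refine lt_of_le_of_lt (hc.trans ?_) hcard
      rw [sq]
      exact Nat.mul_le_mul_right _ (by omega)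
    obtain ⟨a, ha, haU⟩ := Finset.exists_mem_notMem_of_card_lt_card h1
    let C : Finset (Finset ι) := (A₀ \ Ub).powerset.filter fun A => eps ρ 1 A u ≠ 0 ∧ A.card < E
    have hmemC : ∀ A, A ∈ C ↔ A ⊆ A₀ \ Ub ∧ eps ρ 1 A u ≠ 0 ∧ A.card < E := by
      intro A; simp [C]
    have haC : {a} ∈ C := by
      rw [hmemC, eps_singleton, Finset.card_singleton]
      exact ⟨by simp [ha, haU], hu0, by omega⟩
    obtain ⟨A, hAC, hAmax⟩ := Finset.exists_max_image C Finset.card ⟨_, haC⟩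
    have hA := (hmemC A).1 hAC
    have hA0 : A ⊆ A₀ := hA.1.trans Finset.sdiff_subset
    have hAne : A.Nonempty := by
      rw [← Finset.card_pos]
      have := hAmax _ haC
      rw [Finset.card_singleton] at this
      omega
    have hdisj : ∀ B ∈ bs, Disjoint A B := by
      intro B hB
      rw [Finset.disjoint_left]
      intro x hx hxB
      exact (Finset.mem_sdiff.1 (hA.1 hx)).2 ((hfold bs x).2 ⟨B, hB, hxB⟩)
    refine ⟨A :: bs, eps ρ 1 A u, by simp [hlen], ⟨hA0, hAne, hdisj, hstr⟩, ⟨?_, ?_⟩, ?_, hA.2.1, ?_⟩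
    · intro b hb hbA hbr
      rw [add_sum_eq_eps ρ A b hbA]
      have hbU : b ∉ Ub := by
        rw [hUb, hfold]
        rintro ⟨B, hB, hbB⟩
        exact hbr B hB hbB
      have hcard' : (insert b A).card = A.card + 1 := Finset.card_insert_of_notMem hbA
      rcases Nat.lt_or_ge (A.card + 1) E with h2 | h2
      · by_contra hne
        have h3 : insert b A ∈ C := by
          rw [hmemC]
          refine ⟨?_, hne, by rw [hcard']; exact h2⟩
          intro x hx
          rw [Finset.mem_insert] at hx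
          rcases hx with rfl | hx
          · exact Finset.mem_sdiff.2 ⟨hb, hbU⟩
          · exact hA.1 hx
        have := hAmax _ h3
        rw [hcard'] at this
        omega
      · have h4 : (insert b A).card = E := by have := hA.2.2; omega
        refine hM _ ?_ h4 u huM
        intro x hx
        rw [Finset.mem_insert] at hx
        rcases hx with rfl | hx
        · exact hb
        · exact hA0 hx
    · rw [eps_apply]
      refine lin_sum ρ bs _ _ fun τ hτ => ?_
      rw [MonoidHom.one_apply, one_smul]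
      exact lin_perm ρ hA0 hτ bs u hdisj hlin
    · rw [eps_apply]
      refine Submodule.sum_mem _ fun τ hτ => ?_
      rw [MonoidHom.one_apply, one_smul]
      exact hst τ (PA_mono hA0 hτ) u huM
    · rw [List.foldr_cons]
      refine (Finset.card_union_le _ _).trans ?_
      have : A.card ≤ E - 1 := by have := hA.2.2; omega
      calc A.card + Ub.card ≤ (E - 1) + l * (E - 1) := Nat.add_le_add this hc
        _ = (l + 1) * (E - 1) := by ring

theorem exists_transversal {A₀ : Finset ι} : ∀ (bs : List (Finset ι)) (B : Finset ι) (u : V),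
    Str A₀ bs → Lin ρ A₀ bs u → B ⊆ A₀ → (∀ C ∈ bs, Disjoint B C) →
    eps ρ Equiv.Perm.sign B u ≠ 0 →
    ∃ B' ⊆ A₀, B'.card = B.card + bs.length ∧ eps ρ Equiv.Perm.sign B' u ≠ 0
  | [], B, u, _, _, hB, _, hne => ⟨B, hB, by simp, hne⟩
  | A :: rest, B, u, hs, hl, hB, hd, hne => by
    obtain ⟨hA0, hAne, hAd, hs'⟩ := hs
    have hBA : Disjoint B A := hd A List.mem_cons_self
    have h1 : ∑ b ∈ A, eps ρ Equiv.Perm.sign (insert b B) u =
        ((A.card : ℚ) + B.card) • eps ρ Equiv.Perm.sign B u := by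
      have h2 : ∀ b ∈ A, eps ρ Equiv.Perm.sign (insert b B) u =
          eps ρ Equiv.Perm.sign B (u - ∑ c ∈ B, ρ (Equiv.swap b c) u) := by
        intro b hb
        have hbB : b ∉ B := fun h => Finset.disjoint_left.1 hBA h hb
        rw [eps_insert' ρ _ hbB]
        congr 1
        rw [Finset.sum_insert hbB, Equiv.swap_self, sub_eq_add_neg, ← Finset.sum_neg_distrib]
        congr 1
        · change Equiv.Perm.sign (1 : Equiv.Perm ι) • (ρ 1) u = u
          rw [map_one, map_one, one_smul]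
          rfl
        · refine Finset.sum_congr rfl fun c hc => ?_
          have hcb : c ≠ b := fun h => hbB (h ▸ hc)
          rw [Equiv.Perm.sign_swap hcb, Units.neg_smul, one_smul, Equiv.swap_comm]
      rw [Finset.sum_congr rfl h2, ← map_sum, Finset.sum_sub_distrib, Finset.sum_const,
        Finset.sum_comm]
      have h3 : ∀ c ∈ B, ∑ b ∈ A, ρ (Equiv.swap b c) u = -u := by
        intro c hc
        have h4 := hl.1 c (hB hc) (fun h => Finset.disjoint_left.1 hBA hc h)
          fun C hC h => Finset.disjoint_left.1 (hd C (List.mem_cons_of_mem _ hC)) hc h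
        exact eq_neg_of_add_eq_zero_right h4
      rw [Finset.sum_congr rfl h3, Finset.sum_const, smul_neg, sub_neg_eq_add, ← add_smul,
        ← Nat.cast_smul_eq_nsmul ℚ, map_smul, Nat.cast_add]
    have h5 : ∑ b ∈ A, eps ρ Equiv.Perm.sign (insert b B) u ≠ 0 := by
      rw [h1]
      refine smul_ne_zero ?_ hne
      have : (0 : ℚ) < A.card := Nat.cast_pos.2 (Finset.card_pos.2 hAne)
      positivity
    obtain ⟨b, hb, hbne⟩ := Finset.exists_ne_zero_of_sum_ne_zero h5
    have hbB : b ∉ B := fun h => Finset.disjoint_left.1 hBA h hb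
    obtain ⟨B', hB', hcard, hne'⟩ := exists_transversal rest (insert b B) u hs' hl.2
      (Finset.insert_subset (hA0 hb) hB) (by
        intro C hC
        rw [Finset.disjoint_insert_left]
        exact ⟨fun h => Finset.disjoint_left.1 (hAd C hC) hb h,
          hd C (List.mem_cons_of_mem _ hC)⟩) hbne
    refine ⟨B', hB', ?_, hne'⟩
    rw [hcard, Finset.card_insert_of_notMem hbB, List.length_cons]
    ring

theorem eps_mem_span_eq_zero {A₀ : Finset ι} {E : ℕ} (χ : Equiv.Perm ι →* ℤˣ) {v : V}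
    (h : ∀ A ⊆ A₀, A.card = E → eps ρ χ A v = 0) (A : Finset ι) (hA : A ⊆ A₀) (hE : A.card = E)
    (u : V) (hu : u ∈ Submodule.span ℚ {x | ∃ σ ∈ PA A₀, x = ρ σ v}) : eps ρ χ A u = 0 := by
  induction hu using Submodule.span_induction with
  | mem x hx =>
    obtain ⟨σ, hσ, rfl⟩ := hx
    rw [eps_conj, h _ ?_ ?_, map_zero]
    · intro x hx
      rw [Finset.mem_map] at hx
      obtain ⟨y, hy, rfl⟩ := hx
      exact (apply_mem_of_PA (inv_mem_PA hσ)).2 (hA hy)
    · rw [Finset.card_map, hE]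
  | zero => exact map_zero _
  | add x y _ _ hx hy => rw [map_add, hx, hy, add_zero]
  | smul c x _ hx => rw [map_smul, hx, smul_zero]

/-- **Lemma S.** -/
theorem lemmaS {A₀ : Finset ι} {E : ℕ} (hcard : (E - 1) ^ 2 < A₀.card) {v : V} (hv : v ≠ 0) :
    ∃ A ⊆ A₀, A.card = E ∧ (eps ρ 1 A v ≠ 0 ∨ eps ρ Equiv.Perm.sign A v ≠ 0) := by
  rcases Nat.lt_or_ge E 2 with h2 | h2
  · interval_cases E
    · exact ⟨∅, Finset.empty_subset _, rfl, Or.inl (by rw [eps_empty]; exact hv)⟩
    · obtain ⟨a, ha⟩ := Finset.card_pos.1 (lt_of_le_of_lt (Nat.zero_le _) hcard)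
      exact ⟨{a}, by simpa using ha, rfl, Or.inl (by rw [eps_singleton]; exact hv)⟩
  · by_contra hcon
    push Not at hcon
    set M : Submodule ℚ V := Submodule.span ℚ {x | ∃ σ ∈ PA A₀, x = ρ σ v} with hMdef
    have hvM : v ∈ M := Submodule.subset_span ⟨1, one_mem_PA _, by rw [map_one]; rfl⟩
    obtain ⟨bs, u, hlen, hstr, hlin, huM, hu0, -⟩ := exists_blocks ρ h2 hcard M
      (fun A hA hE u hu => eps_mem_span_eq_zero ρ 1 (fun A hA hE => (hcon A hA hE).1) A hA hE u hu)
      (by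
        intro σ hσ u hu
        induction hu using Submodule.span_induction with
        | mem x hx =>
          obtain ⟨τ, hτ, rfl⟩ := hx
          refine Submodule.subset_span ⟨σ * τ, mul_mem_PA hσ hτ, ?_⟩
          rw [map_mul]; rfl
        | zero => rw [map_zero]; exact zero_mem _
        | add x y _ _ hx hy => rw [map_add]; exact add_mem hx hy
        | smul c x _ hx => rw [map_smul]; exact Submodule.smul_mem _ _ hx) hvM hv E le_rfl
    obtain ⟨B, hB, hBcard, hBne⟩ := exists_transversal ρ bs ∅ u hstr hlin (Finset.empty_subset _)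
      (fun C _ => Finset.disjoint_empty_left _) (by rw [eps_empty]; exact hu0)
    rw [Finset.card_empty, zero_add, hlen] at hBcard
    exact hBne (eps_mem_span_eq_zero ρ _ (fun A hA hE => (hcon A hA hE).2) B hB hBcard u huM)

end LemmaS

section Slots
variable {ι : Type*} [Fintype ι] [DecidableEq ι] {X : Type*}

/-- The representation on functions. -/
def fnRep (ι X W : Type*) [AddCommGroup W] [Module ℚ W] :
    Equiv.Perm ι →* Module.End ℚ ((ι → X) → W) where
  toFun σ :=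
    { toFun := fun F w => F (w ∘ σ)
      map_add' := fun _ _ => rfl
      map_smul' := fun _ _ => rfl }
  map_one' := rfl
  map_mul' _ _ := rfl

/-- The two characters. -/
def chi (t : Bool) : Equiv.Perm ι →* ℤˣ := if t then Equiv.Perm.sign else 1

theorem eps_fnRep {W : Type*} [AddCommGroup W] [Module ℚ W] (χ : Equiv.Perm ι →* ℤˣ)
    (A : Finset ι) (F : (ι → X) → W) (w : ι → X) :
    eps (fnRep ι X W) χ A F w = ∑ σ ∈ PA A, χ σ • F (w ∘ σ) := by
  rw [eps_apply, Finset.sum_apply]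
  rfl

theorem absorb {W : Type*} [AddCommGroup W] [Module ℚ W] (χ : Equiv.Perm ι →* ℤˣ)
    {A A₁ : Finset ι} (hA : A ⊆ A₁) (Φ : (ι → X) → W) (w : ι → X)
    (h : ∑ σ ∈ PA A₁, χ σ • Φ (w ∘ σ) ≠ 0) : ∃ w', ∑ σ ∈ PA A, χ σ • Φ (w' ∘ σ) ≠ 0 := by
  by_contra hcon
  push Not at hcon
  have h1 : ∀ τ ∈ PA A, ∑ σ ∈ PA A₁, χ (σ * τ) • Φ (w ∘ (σ * τ : Equiv.Perm ι)) =
      ∑ σ ∈ PA A₁, χ σ • Φ (w ∘ σ) := by
    intro τ hτ
    have hτ₁ := PA_mono hA hτ
    refine Finset.sum_nbij' (fun σ => σ * τ) (fun σ => σ * τ⁻¹) ?_ ?_ ?_ ?_ ?_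
    · intro σ hσ; exact mul_mem_PA hσ hτ₁
    · intro σ hσ; exact mul_mem_PA hσ (inv_mem_PA hτ₁)
    · intro σ _; exact mul_inv_cancel_right σ τ
    · intro σ _; exact inv_mul_cancel_right σ τ
    · intro σ _; rfl
  have h2 : ∑ τ ∈ PA A, ∑ σ ∈ PA A₁, χ (σ * τ) • Φ (w ∘ (σ * τ : Equiv.Perm ι)) = 0 := by
    rw [Finset.sum_comm]
    refine Finset.sum_eq_zero fun σ _ => ?_
    have h3 := hcon (w ∘ σ)
    have h4 : ∑ τ ∈ PA A, χ (σ * τ) • Φ (w ∘ (σ * τ : Equiv.Perm ι)) =
        χ σ • ∑ τ ∈ PA A, χ τ • Φ ((w ∘ σ) ∘ τ) := by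
      rw [Finset.smul_sum]
      refine Finset.sum_congr rfl fun τ _ => ?_
      rw [smul_smul, map_mul]
      rfl
    rw [h4, h3, smul_zero]
  rw [Finset.sum_congr rfl h1, Finset.sum_const, ← Nat.cast_smul_eq_nsmul ℚ, smul_eq_zero] at h2
  refine h (h2.resolve_left (Nat.cast_ne_zero.2 ?_))
  exact (Finset.card_pos.2 ⟨1, one_mem_PA A⟩).ne'

/-- The bound for `h` slots. -/
def Mb (E : ℕ) : ℕ → ℕ
  | 0 => E
  | h + 1 => (Mb E h) ^ 2 + 1

theorem slots (E : ℕ) : ∀ (h : ℕ) {W : Type*} [AddCommGroup W] [Module ℚ W]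
    (F : (Fin h → ι → X) → W) (z : Fin h → ι → X) (_ : F z ≠ 0) (A₀ : Finset ι)
    (_ : Mb E h ≤ A₀.card), ∃ A ⊆ A₀, A.card = E ∧ ∃ (t : Fin h → Bool) (z' : Fin h → ι → X),
      ∑ σ ∈ Fintype.piFinset (fun _ : Fin h => PA A), (∏ i, chi (t i) (σ i)) •
        F (fun i => z' i ∘ σ i) ≠ 0 := by
  intro h
  induction h with
  | zero =>
    intro W _ _ F z hz A₀ hA₀
    obtain ⟨A, hA, hAE⟩ := Finset.exists_subset_card_eq hA₀
    refine ⟨A, hA, hAE, fun i => i.elim0, z, ?_⟩
    have : Fintype.piFinset (fun _ : Fin 0 => PA A) = {fun i => i.elim0} := by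
      ext σ
      rw [Fintype.mem_piFinset, Finset.mem_singleton]
      exact ⟨fun _ => Subsingleton.elim _ _, fun _ i => i.elim0⟩
    rw [this, Finset.sum_singleton]
    simp only [Finset.univ_eq_empty, Finset.prod_empty, one_smul]
    convert hz
  | succ h ih =>
    intro W _ _ F z hz A₀ hA₀
    let F' : (ι → X) → ((Fin h → ι → X) → W) := fun w z' => F (Fin.cons w z')
    have hF' : F' ≠ 0 := by
      intro h0
      apply hz
      have := congrFun (congrFun h0 (z 0)) (Fin.tail z)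
      simpa [F', Fin.cons_self_tail] using this
    have hc : (Mb E h - 1) ^ 2 < A₀.card := by
      have h1 : (Mb E h - 1) ^ 2 ≤ (Mb E h) ^ 2 := Nat.pow_le_pow_left (Nat.sub_le _ _) 2
      have h2 : (Mb E h) ^ 2 + 1 ≤ A₀.card := hA₀
      omega
    obtain ⟨A₁, hA₁, hcard₁, hne⟩ := lemmaS (fnRep ι X ((Fin h → ι → X) → W)) hc hF'
    obtain ⟨t₀, ht₀⟩ : ∃ t₀ : Bool, eps (fnRep ι X ((Fin h → ι → X) → W)) (chi t₀) A₁ F' ≠ 0 := by
      rcases hne with h1 | h1
      · exact ⟨false, by simpa [chi] using h1⟩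
      · exact ⟨true, by simpa [chi] using h1⟩
    obtain ⟨w, hw⟩ := Function.ne_iff.1 ht₀
    rw [eps_fnRep] at hw
    obtain ⟨z₁, hz₁⟩ := Function.ne_iff.1 hw
    rw [Finset.sum_apply] at hz₁
    let F₁ : (Fin h → ι → X) → W := fun z' => ∑ σ ∈ PA A₁, chi t₀ σ • F (Fin.cons (w ∘ σ) z')
    have hF₁ : F₁ z₁ ≠ 0 := hz₁
    obtain ⟨A, hA, hAE, t, z₂, hne₂⟩ := ih F₁ z₁ hF₁ A₁ hcard₁.ge
    let Φ : (ι → X) → W := fun w' => ∑ σ ∈ Fintype.piFinset (fun _ : Fin h => PA A),
      (∏ i, chi (t i) (σ i)) • F (Fin.cons w' fun i => z₂ i ∘ σ i)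
    have h3 : ∑ σ ∈ PA A₁, chi t₀ σ • Φ (w ∘ σ) ≠ 0 := by
      intro h4
      apply hne₂
      rw [← h4]
      simp only [F₁, Φ, Finset.smul_sum]
      rw [Finset.sum_comm]
      refine Finset.sum_congr rfl fun σ _ => Finset.sum_congr rfl fun τ _ => ?_
      rw [smul_smul, smul_smul, mul_comm]
    obtain ⟨w', hw'⟩ := absorb (chi t₀) hA Φ w h3
    refine ⟨A, hA.trans hA₁, hAE, Fin.cons t₀ t, Fin.cons w' z₂, ?_⟩
    intro h5
    apply hw'
    rw [← h5]
    simp only [Φ, Finset.smul_sum]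
    rw [← Finset.sum_product']
    refine Finset.sum_nbij' (fun p => (Fin.cons p.1 p.2 : Fin (h + 1) → Equiv.Perm ι))
      (fun σ => (σ 0, Fin.tail σ)) ?_ ?_ ?_ ?_ ?_
    · rintro ⟨a, b⟩ hab
      rw [Finset.mem_product, Fintype.mem_piFinset] at hab
      rw [Fintype.mem_piFinset]
      intro i
      refine Fin.cases ?_ (fun i => ?_) i
      · exact hab.1
      · exact hab.2 i
    · intro σ hσ
      rw [Fintype.mem_piFinset] at hσ
      rw [Finset.mem_product, Fintype.mem_piFinset]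
      exact ⟨hσ 0, fun i => hσ i.succ⟩
    · rintro ⟨a, b⟩ _
      simp
    · intro σ _
      simp
    · rintro ⟨a, b⟩ _
      simp only [Fin.prod_univ_succ, Fin.cons_zero, Fin.cons_succ, smul_smul]
      congr 2
      funext i
      refine Fin.cases ?_ (fun i => ?_) i
      · simp
      · simp

end Slots

end Pool.Agent.H75.Zel
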