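import Pool.Agent.H75.Zel.Grass2
import Pool.Agent.H75.Zel.SymLemma2

/-!
# Extraction of coefficients in the Grassmann algebra
-/

set_option autoImplicit false

open Finset TensorProduct

namespace Pool.Agent.H75.Zel

section ListMul
variable {κ : Type*} [DecidableEq κ]

/-- The product over a complete list of indices, as a multilinear map. -/
noncomputable def listMul {S : Type*} [Ring S] [Algebra ℚ S] (l : List κ) (hnd : l.Nodup)
    (hall : ∀ p, p ∈ l) : MultilinearMap ℚ (fun _ : κ => S) S :=
  (prodMap S l.length).domDomCongr (hnd.getEquivOfForallMemList l hall)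

theorem ofFn_getEquiv {S : Type*} (l : List κ) (hnd : l.Nodup) (hall : ∀ p, p ∈ l) (y : κ → S) :
    (List.ofFn fun j => y (hnd.getEquivOfForallMemList l hall j)) = l.map y := by
  have : (fun j => y (hnd.getEquivOfForallMemList l hall j)) = y ∘ l.get := rfl
  rw [this, ← List.map_ofFn, List.ofFn_get]

theorem listMul_apply {S : Type*} [Ring S] [Algebra ℚ S] (l : List κ) (hnd : l.Nodup)
    (hall : ∀ p, p ∈ l) (y : κ → S) : listMul l hnd hall y = (l.map y).prod := by
  rw [listMul, MultilinearMap.domDomCongr_apply, MultilinearMap.mkPiAlgebraFin_apply,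
    ofFn_getEquiv]

/-- The product of odd generators over a complete list of indices, as an alternating map. -/
noncomputable def listAlt (l : List κ) (hnd : l.Nodup) (hall : ∀ p, p ∈ l) :
    (ℕ →₀ ℚ) [⋀^κ]→ₗ[ℚ] Gr :=
  (ExteriorAlgebra.ιMulti ℚ l.length).domDomCongr (hnd.getEquivOfForallMemList l hall)

theorem listAlt_apply (l : List κ) (hnd : l.Nodup) (hall : ∀ p, p ∈ l) (v : κ → (ℕ →₀ ℚ)) :
    listAlt l hnd hall v = (l.map fun p => ExteriorAlgebra.ι ℚ (v p)).prod := by
  rw [listAlt, AlternatingMap.domDomCongr_apply, ExteriorAlgebra.ιMulti_apply]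
  rw [← ofFn_getEquiv l hnd hall]
  rfl

/-- A functional taking the value `1` on the product of distinct generators. -/
theorem exists_functional (l : List κ) (hnd : l.Nodup) (hall : ∀ p, p ∈ l) (code : κ → ℕ)
    (hcode : Function.Injective code) : ∃ f : Gr →ₗ[ℚ] ℚ,
      f (listAlt l hnd hall fun p => Finsupp.single (code p) 1) = 1 := by
  classical
  let cc : ℕ → ℕ := fun j => if h : j < l.length then code (l.get ⟨j, h⟩) else 0
  let f : ∀ m : ℕ, (ℕ →₀ ℚ) [⋀^Fin m]→ₗ[ℚ] ℚ := fun m =>
    (Matrix.detRowAlternating (n := Fin m) (R := ℚ)).compLinearMap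
      (LinearMap.pi fun j : Fin m => Finsupp.lapply (cc j))
  refine ⟨ExteriorAlgebra.liftAlternating f, ?_⟩
  rw [listAlt, AlternatingMap.domDomCongr_apply, ExteriorAlgebra.liftAlternating_apply_ιMulti]
  simp only [f, AlternatingMap.compLinearMap_apply]
  have h1 : (fun i : Fin l.length => (LinearMap.pi fun j : Fin l.length =>
      Finsupp.lapply (R := ℚ) (M := ℚ) (cc j))
        (((fun p => Finsupp.single (code p) 1) ∘ ⇑(hnd.getEquivOfForallMemList l hall)) i)) =
      (1 : Matrix (Fin l.length) (Fin l.length) ℚ) := by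
    funext i j
    rw [LinearMap.pi_apply, Finsupp.lapply_apply, Matrix.one_apply]
    have h2 : cc j = code (l.get j) := by simp [cc]
    have h3 : ((fun p => Finsupp.single (code p) (1 : ℚ)) ∘
        ⇑(hnd.getEquivOfForallMemList l hall)) i = Finsupp.single (code (l.get i)) 1 := rfl
    rw [h2, h3, Finsupp.single_apply]
    have h4 : (code (l.get i) = code (l.get j)) ↔ i = j := by
      rw [hcode.eq_iff]
      exact (List.nodup_iff_injective_get.1 hnd).eq_iff
    simp only [h4]
  erw [h1]
  exact Matrix.det_one

end ListMul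

/-- Blocks equal to `W`. -/
theorem prod_mem_blocks {S : Type} [Ring S] [Algebra ℚ S] {κ : Type*} (W : S) (p : κ → Prop)
    [DecidablePred p] (x : κ → S) (hx : ∀ k, p k → x k = W) (l : List κ) :
    (l.map x).prod ∈ (⊤ : Submodule ℚ S) *
      (Submodule.span ℚ {W} * ⊤) ^ (l.filter p).length := by
  induction l with
  | nil =>
    rw [List.map_nil, List.prod_nil, List.filter_nil, List.length_nil, pow_zero, mul_one]
    exact Submodule.mem_top
  | cons k l ih =>
    rw [List.map_cons, List.prod_cons]
    by_cases hk : p k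
    · rw [List.filter_cons_of_pos (by simpa using hk), List.length_cons, pow_succ', hx k hk]
      have h1 : Submodule.span ℚ {W} * (⊤ * (Submodule.span ℚ {W} * ⊤) ^ (l.filter p).length) ≤
          (⊤ : Submodule ℚ S) *
            ((Submodule.span ℚ {W} * ⊤) * (Submodule.span ℚ {W} * ⊤) ^ (l.filter p).length) := by
        rw [← mul_assoc]
        intro x hx
        have := Submodule.mul_mem_mul (Submodule.mem_top (x := (1 : S))) hx
        rwa [one_mul] at this
      exact h1 (Submodule.mul_mem_mul (Submodule.mem_span_singleton_self W) ih)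
    · rw [List.filter_cons_of_neg (by simpa using hk)]
      have h1 : (⊤ : Submodule ℚ S) * (⊤ * (Submodule.span ℚ {W} * ⊤) ^ (l.filter p).length) ≤
          ⊤ * (Submodule.span ℚ {W} * ⊤) ^ (l.filter p).length := by
        rw [← mul_assoc]
        exact mul_le_mul' le_top le_rfl
      exact h1 (Submodule.mul_mem_mul Submodule.mem_top ih)

theorem length_filter_finRange (M : ℕ) (A : Finset (Fin M)) :
    ((List.finRange M).filter (· ∈ A)).length = A.card := by
  rw [← List.toFinset_card_of_nodup ((List.nodup_finRange M).filter _), List.toFinset_filter]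
  congr 1
  ext x
  simp

/-- The list of all positions. -/
def pos (M h : ℕ) : List (Fin M × Fin h) := (List.finRange M).flatMap fun k => (List.finRange h).map (Prod.mk k)

theorem pos_nodup (M h : ℕ) : (pos M h).Nodup := by
  have : pos M h = (List.finRange M).product (List.finRange h) := rfl
  rw [this]
  exact (List.nodup_finRange M).product (List.nodup_finRange h)

theorem mem_pos (M h : ℕ) (p : Fin M × Fin h) : p ∈ pos M h := by
  simp [pos, List.mem_flatMap]

theorem prod_pos {S : Type*} [Monoid S] (M h : ℕ) (y : Fin M × Fin h → S) :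
    ((pos M h).map y).prod = ((List.finRange M).map fun k => (List.ofFn fun i => y (k, i)).prod).prod := by
  rw [pos]
  induction (List.finRange M) with
  | nil => simp
  | cons k l ih =>
    rw [List.flatMap_cons, List.map_append, List.prod_append, ih, List.map_cons, List.prod_cons]
    congr 1
    rw [List.map_map, List.ofFn_eq_map]
    rfl

/-- The list of refined positions. -/
def pos' (M h : ℕ) (μ : Fin h → ℕ) : List ((Σ i : Fin h, Fin (μ i)) × Fin M) :=
  (pos M h).flatMap fun p => (List.finRange (μ p.2)).map fun b => (⟨p.2, b⟩, p.1)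

theorem pos'_nodup (M h : ℕ) (μ : Fin h → ℕ) : (pos' M h μ).Nodup := by
  rw [pos', List.nodup_flatMap]
  constructor
  · intro p _
    refine (List.nodup_finRange _).map ?_
    intro b b' hbb
    simpa using hbb
  · refine (pos_nodup M h).imp ?_
    intro p p' hne
    rw [Function.onFun, List.disjoint_left]
    intro x hx hx'
    rw [List.mem_map] at hx hx'
    obtain ⟨b, -, rfl⟩ := hx
    obtain ⟨b', -, hb'⟩ := hx'
    apply hne
    have h1 : p'.1 = p.1 := congrArg Prod.snd hb'
    have h2 : p'.2 = p.2 := congrArg (fun z => z.1.1) hb'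
    exact Prod.ext h1.symm h2.symm

theorem mem_pos' (M h : ℕ) (μ : Fin h → ℕ) (x : (Σ i : Fin h, Fin (μ i)) × Fin M) :
    x ∈ pos' M h μ := by
  obtain ⟨⟨i, b⟩, k⟩ := x
  rw [pos', List.mem_flatMap]
  exact ⟨(k, i), mem_pos M h _, by simp⟩

theorem prod_pos' {S : Type*} [Monoid S] (M h : ℕ) (μ : Fin h → ℕ)
    (y : (Σ i : Fin h, Fin (μ i)) × Fin M → S) :
    ((pos' M h μ).map y).prod =
      ((pos M h).map fun p => (List.ofFn fun b : Fin (μ p.2) => y (⟨p.2, b⟩, p.1)).prod).prod := by
  rw [pos']
  induction (pos M h) with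
  | nil => simp
  | cons k l ih =>
    rw [List.flatMap_cons, List.map_append, List.prod_append, ih, List.map_cons, List.prod_cons]
    congr 1
    rw [List.map_map, List.ofFn_eq_map]
    rfl

end Pool.Agent.H75.Zel
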