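import Pool.Agent.H75.Zel.Extract

/-!
# Zelmanov's theorem in characteristic zero (associative form)

`nilBound`: for every `N` there is `f` such that in every associative `ℚ`-algebra, for every commutator-closed
subspace `L` all of whose elements satisfy `z ^ (N + 1) = 0`, all products of `f` elements of `L` vanish.
-/

set_option autoImplicit false

open Finset TensorProduct

namespace Pool.Agent.H75.Zel

section Main
variable {R : Type} [Ring R] [Algebra ℚ R] {L : Submodule ℚ R}

theorem tmul_prod_list {κ : Type*} (l : List κ) (a : κ → R) (b : κ → Gr) :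
    (l.map fun p => a p ⊗ₜ[ℚ] b p).prod = (l.map a).prod ⊗ₜ[ℚ] (l.map b).prod := by
  induction l with
  | nil => simp [Algebra.TensorProduct.one_def]
  | cons k l ih =>
    rw [List.map_cons, List.map_cons, List.map_cons, List.prod_cons, List.prod_cons,
      List.prod_cons, ih, Algebra.TensorProduct.tmul_mul_tmul]

theorem list_ofFn_prod_mem_gD_pow (n : ℕ) (v : Fin n → (ℕ →₀ ℚ)) :
    (List.ofFn fun b => ExteriorAlgebra.ι ℚ (v b)).prod ∈ gD ^ n :=
  pow_le_iff.1 le_rfl _ fun i => ι_mem_gD (v i)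

theorem exists_slots_zero {N c e : ℕ} (hyp : SuperHyp N c e (sE L) (sO L)) :
    ∃ M : ℕ, ∀ z : Fin ((2 * N + 1) ^ (3 * c)) → Fin M → R, (∀ i k, z i k ∈ L) →
      ((List.finRange M).map fun k => (List.ofFn fun i => z i k).prod).prod = 0 := by
  classical
  obtain ⟨q, hq⟩ := exists_uniform hyp
  set h := (2 * N + 1) ^ (3 * c) with hh
  obtain ⟨M, hM⟩ : ∃ M, M = Mb q h := ⟨_, rfl⟩
  refine ⟨M, fun z hz => ?_⟩
  by_contra hne0
  let F : (Fin h → Fin M → L) → R := fun z =>
    ((List.finRange M).map fun k => (List.ofFn fun i => (z i k : R)).prod).prod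
  have hF0 : F (fun i k => ⟨z i k, hz i k⟩) ≠ 0 := hne0
  obtain ⟨A, -, hAq, t, z', hne⟩ := slots q h F _ hF0 Finset.univ
    (by rw [Finset.card_univ, Fintype.card_fin, hM])
  apply hne
  -- set up of the generators
  let μ : Fin h → ℕ := fun i => if t i then 1 else 2
  have hμ : ∀ i, 0 < μ i := fun i => by simp only [μ]; split_ifs <;> norm_num
  let P := (Σ i : Fin h, Fin (μ i)) × Fin M
  let code : P → ℕ := fun p => (Fintype.equivFin P p : ℕ)
  have hcode : Function.Injective code := fun p p' hpp =>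
    (Fintype.equivFin P).injective (Fin.ext hpp)
  let v₀ : P → (ℕ →₀ ℚ) := fun p => Finsupp.single (code p) 1
  have hv₀ : Function.Injective v₀ := fun p p' hpp =>
    hcode (Finsupp.single_left_injective one_ne_zero hpp)
  let g : Fin h → Fin M → Gr := fun i k =>
    (List.ofFn fun b : Fin (μ i) => ExteriorAlgebra.ι ℚ (v₀ (⟨i, b⟩, k))).prod
  have hg : ∀ i k, ∀ l ∈ L, l ⊗ₜ[ℚ] g i k ∈ sE L ⊔ sO L := by
    intro i k l hl
    have h1 : g i k ∈ gD ^ (μ i) := list_ofFn_prod_mem_gD_pow _ _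
    cases hti : t i with
    | true =>
      have h2 : μ i = 1 := by simp [μ, hti]
      rw [h2] at h1
      exact Submodule.mem_sup_right (tmul_mem_sO hl (Submodule.mem_iSup_of_mem 0 h1))
    | false =>
      have h2 : μ i = 2 := by simp [μ, hti]
      rw [h2] at h1
      exact Submodule.mem_sup_left (tmul_mem_sE hl (Submodule.mem_iSup_of_mem 1 h1))
  -- the blocks
  let B : Fin M → Finset (Fin M) := fun k => if k ∈ A then A else {k}
  let Y : Fin M → Fin h → R ⊗[ℚ] Gr := fun k i => ∑ a ∈ B k, (z' i a : R) ⊗ₜ[ℚ] g i a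
  let y : Fin h → R ⊗[ℚ] Gr := fun i => ∑ a ∈ A, (z' i a : R) ⊗ₜ[ℚ] g i a
  have hy : ∀ i, y i ∈ sE L ⊔ sO L := fun i =>
    Submodule.sum_mem _ fun a _ => hg i a _ (z' i a).2
  have hTot : ((pos M h).map fun p => Y p.1 p.2).prod = 0 := by
    rw [prod_pos M h fun p => Y p.1 p.2]
    have h1 := prod_mem_blocks (List.ofFn y).prod (fun k => k ∈ A)
      (fun k => (List.ofFn fun i => Y k i).prod) (by
        intro k hk
        congr 2
        funext i
        simp only [Y, y, B, if_pos hk]) (List.finRange M)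
    rw [length_filter_finRange, hAq] at h1
    have h2 : (⊤ : Submodule ℚ (R ⊗[ℚ] Gr)) * (Submodule.span ℚ {(List.ofFn y).prod} * ⊤) ^ q ≤ ⊥ := by
      refine (mul_le_mul' le_rfl (hq y hy)).trans ?_
      rw [Submodule.mul_bot]
    exact (Submodule.mem_bot ℚ).1 (h2 h1)
  -- expansion
  have hexp : ((pos M h).map fun p => Y p.1 p.2).prod =
      ∑ r ∈ Fintype.piFinset (fun p : Fin M × Fin h => B p.1),
        ((pos M h).map fun p => (z' p.2 (r p) : R)).prod ⊗ₜ[ℚ]
          ((pos M h).map fun p => g p.2 (r p)).prod := by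
    rw [← listMul_apply (pos M h) (pos_nodup M h) (mem_pos M h)]
    have h1 := MultilinearMap.map_sum_finset
      (listMul (S := R ⊗[ℚ] Gr) (pos M h) (pos_nodup M h) (mem_pos M h))
      (fun (p : Fin M × Fin h) (a : Fin M) => (z' p.2 a : R) ⊗ₜ[ℚ] g p.2 a) (fun p => B p.1)
    rw [h1]
    refine Finset.sum_congr rfl fun r _ => ?_
    rw [listMul_apply, tmul_prod_list]
  rw [hTot] at hexp
  obtain ⟨ℓ, hℓ⟩ := exists_functional (pos' M h μ) (pos'_nodup M h μ) (mem_pos' M h μ) code hcode
  let φ : R ⊗[ℚ] Gr →ₗ[ℚ] R := TensorProduct.lift (LinearMap.flip ((LinearMap.lsmul ℚ R).comp ℓ))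
  have hφ : ∀ a g, φ (a ⊗ₜ[ℚ] g) = ℓ g • a := fun a g => by simp [φ]
  have hexp2 := congrArg φ hexp
  rw [map_zero, map_sum] at hexp2
  simp only [hφ] at hexp2
  -- the Grassmann factors
  have hG : ∀ r : Fin M × Fin h → Fin M, ((pos M h).map fun p => g p.2 (r p)).prod =
      listAlt (pos' M h μ) (pos'_nodup M h μ) (mem_pos' M h μ)
        (fun x => v₀ (x.1, r (x.2, x.1.1))) := by
    intro r
    rw [listAlt_apply, prod_pos' M h μ fun x => ExteriorAlgebra.ι ℚ (v₀ (x.1, r (x.2, x.1.1)))]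
  rw [hexp2]
  refine Finset.sum_of_injOn (fun (σ : Fin h → Equiv.Perm (Fin M)) =>
    (fun p : Fin M × Fin h => σ p.2 p.1)) ?_ ?_ ?_ ?_
  · intro σ _ σ' _ hσσ
    funext i
    ext k
    have := congrFun hσσ (k, i)
    exact congrArg Fin.val this
  · intro σ hσ
    rw [Finset.mem_coe, Fintype.mem_piFinset] at hσ ⊢
    intro p
    simp only [B]
    split_ifs with hp
    · exact (apply_mem_of_PA (hσ p.2)).2 hp
    · rw [Finset.mem_singleton]
      exact mem_PA.1 (hσ p.2) _ hp
  · intro r hr hr'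
    rw [Fintype.mem_piFinset] at hr
    have hninj : ¬ ∀ i, Function.Injective fun k => r (k, i) := by
      intro hinj
      apply hr'
      refine ⟨fun i => Equiv.ofBijective (fun k => r (k, i))
        ⟨hinj i, Finite.injective_iff_surjective.1 (hinj i)⟩, ?_, rfl⟩
      rw [Finset.mem_coe, Fintype.mem_piFinset]
      intro i
      rw [mem_PA]
      intro k hk
      have := hr (k, i)
      simp only [B, if_neg hk, Finset.mem_singleton] at this
      exact this
    push Not at hninj
    obtain ⟨i, hi⟩ := hninj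
    rw [hG, AlternatingMap.map_eq_zero_of_not_injective, map_zero, zero_smul]
    intro hinj
    apply hi
    intro k k' hkk
    have h1 : v₀ ((⟨i, ⟨0, hμ i⟩⟩ : Σ i : Fin h, Fin (μ i)), r (k, i)) =
        v₀ ((⟨i, ⟨0, hμ i⟩⟩ : Σ i : Fin h, Fin (μ i)), r (k', i)) := by
      have hkk' : r (k, i) = r (k', i) := hkk
      rw [hkk']
    have h2 := @hinj ((⟨i, ⟨0, hμ i⟩⟩ : Σ i : Fin h, Fin (μ i)), k)
      ((⟨i, ⟨0, hμ i⟩⟩ : Σ i : Fin h, Fin (μ i)), k') h1
    exact congrArg Prod.snd h2
  · intro σ _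
    have h1 : ((pos M h).map fun p => g p.2 (σ p.2 p.1)).prod =
        Equiv.Perm.sign (Equiv.prodCongrRight fun x : Σ i : Fin h, Fin (μ i) => σ x.1) •
          listAlt (pos' M h μ) (pos'_nodup M h μ) (mem_pos' M h μ) v₀ := by
      rw [hG (fun p => σ p.2 p.1), ← AlternatingMap.map_perm]
      rfl
    have h2 : Equiv.Perm.sign (Equiv.prodCongrRight fun x : Σ i : Fin h, Fin (μ i) => σ x.1) =
        ∏ i, chi (t i) (σ i) := by
      rw [Equiv.Perm.sign_prodCongrRight, Fintype.prod_sigma]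
      refine Finset.prod_congr rfl fun i _ => ?_
      change ∏ _y : Fin (μ i), Equiv.Perm.sign (σ i) = _
      rw [Finset.prod_const, Finset.card_univ, Fintype.card_fin]
      cases hti : t i with
      | true => simp [μ, hti, chi]
      | false => simp [μ, hti, chi]
    have h3 : ((pos M h).map fun p => (z' p.2 (σ p.2 p.1) : R)).prod =
        F fun i => z' i ∘ σ i := by
      rw [prod_pos M h fun p => (z' p.2 (σ p.2 p.1) : R)]
      rfl
    change (∏ i, chi (t i) (σ i)) • F (fun i => z' i ∘ σ i) =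
      ℓ (((pos M h).map fun p => g p.2 (σ p.2 p.1)).prod) •
        ((pos M h).map fun p => (z' p.2 (σ p.2 p.1) : R)).prod
    rw [h1, h2, h3]
    have hℓ' : ℓ (listAlt (pos' M h μ) (pos'_nodup M h μ) (mem_pos' M h μ) v₀) = 1 := hℓ
    rcases Int.units_eq_one_or (∏ i, chi (t i) (σ i)) with h4 | h4 <;> rw [h4]
    · rw [one_smul, one_smul, hℓ', one_smul]
    · rw [Units.neg_smul, Units.neg_smul, one_smul, one_smul, map_neg, hℓ', neg_smul, one_smul]

end Main

theorem nilBound_zero : NilBound 0 1 := by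
  intro R _ _ L _ hn
  rw [pow_one]
  intro z hz
  have := hn z hz
  simpa using this

theorem nilBound_succ {N K : ℕ} (hK : NilBound N K) : ∃ f, NilBound (N + 1) f := by
  by_contra hcon
  push Not at hcon
  obtain ⟨R, _, _, L, hL, hnil, hnn, c, e, hstar⟩ := step_three hK hcon
  have hyp : SuperHyp (N + 1) c e (sE L) (sO L) := superHyp_env hL hnil hstar
  obtain ⟨M, hM⟩ := exists_slots_zero hyp
  apply hnn (M * (2 * (N + 1) + 1) ^ (3 * c))
  rw [pow_le_iff]
  intro x hx
  rw [Submodule.mem_bot, List.ofFn_mul, List.prod_flatten, List.map_ofFn, List.ofFn_eq_map]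
  exact hM (fun j i => x ⟨i * (2 * (N + 1) + 1) ^ (3 * c) + j, _⟩) fun j i => hx _

/-- **Zelmanov's theorem in characteristic zero**, associative form. -/
theorem nilBound (N : ℕ) : ∃ f, NilBound N f := by
  induction N with
  | zero => exact ⟨1, nilBound_zero⟩
  | succ N ih =>
    obtain ⟨K, hK⟩ := ih
    exact nilBound_succ hK

end Pool.Agent.H75.Zel
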