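import Pool.Agent.H75.Zel.Semiprime

/-!
# Lemma H: superalgebras
-/

set_option autoImplicit false

open Finset

namespace Pool.Agent.H75.Zel

variable {S : Type} [Ring S] [Algebra ℚ S]

/-- Closure under the supercommutator. -/
structure SuperClosed (E O : Submodule ℚ S) : Prop where
  ee : ∀ x ∈ E, ∀ y ∈ E, x * y - y * x ∈ E
  oe : ∀ x ∈ O, ∀ y ∈ E, x * y - y * x ∈ O
  oo : ∀ x ∈ O, ∀ y ∈ O, x * y + y * x ∈ E

/-- The super-identities of degree `n`. -/
structure SuperNil (n : ℕ) (E O : Submodule ℚ S) : Prop where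
  sym : ∀ x : Fin n → S, (∀ i, x i ∈ E) →
    ∑ σ : Equiv.Perm (Fin n), (List.ofFn fun i => x (σ i)).prod = 0
  alt : ∀ x : Fin n → S, (∀ i, x i ∈ O) →
    ∑ σ : Equiv.Perm (Fin n), Equiv.Perm.sign σ • (List.ofFn fun i => x (σ i)).prod = 0

/-- Even part of the derived algebra. -/
def derE (E O : Submodule ℚ S) : Submodule ℚ S :=
  Submodule.span ℚ {z | ∃ x ∈ E, ∃ y ∈ E, z = x * y - y * x} ⊔
    Submodule.span ℚ {z | ∃ x ∈ O, ∃ y ∈ O, z = x * y + y * x}

/-- Odd part of the derived algebra. -/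
def derO (E O : Submodule ℚ S) : Submodule ℚ S :=
  Submodule.span ℚ {z | ∃ x ∈ O, ∃ y ∈ E, z = x * y - y * x}

section
variable {E O : Submodule ℚ S}

theorem derE_of_ee {x y : S} (hx : x ∈ E) (hy : y ∈ E) : x * y - y * x ∈ derE E O :=
  Submodule.mem_sup_left (Submodule.subset_span ⟨x, hx, y, hy, rfl⟩)

theorem derE_of_oo {x y : S} (hx : x ∈ O) (hy : y ∈ O) : x * y + y * x ∈ derE E O :=
  Submodule.mem_sup_right (Submodule.subset_span ⟨x, hx, y, hy, rfl⟩)

theorem derO_of_oe {x y : S} (hx : x ∈ O) (hy : y ∈ E) : x * y - y * x ∈ derO E O :=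
  Submodule.subset_span ⟨x, hx, y, hy, rfl⟩

theorem derE_le (h : SuperClosed E O) : derE E O ≤ E := by
  rw [derE, sup_le_iff, Submodule.span_le, Submodule.span_le]
  constructor
  · rintro _ ⟨x, hx, y, hy, rfl⟩; exact h.ee x hx y hy
  · rintro _ ⟨x, hx, y, hy, rfl⟩; exact h.oo x hx y hy

theorem derO_le (h : SuperClosed E O) : derO E O ≤ O := by
  rw [derO, Submodule.span_le]
  rintro _ ⟨x, hx, y, hy, rfl⟩; exact h.oe x hx y hy

theorem superClosed_der (h : SuperClosed E O) : SuperClosed (derE E O) (derO E O) where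
  ee := fun _ hx _ hy => derE_of_ee (derE_le h hx) (derE_le h hy)
  oe := fun _ hx _ hy => derO_of_oe (derO_le h hx) (derE_le h hy)
  oo := fun _ hx _ hy => derE_of_oo (derO_le h hx) (derO_le h hy)

theorem superNil_der {n : ℕ} (h : SuperClosed E O) (hn : SuperNil n E O) :
    SuperNil n (derE E O) (derO E O) where
  sym := fun x hx => hn.sym x fun i => derE_le h (hx i)
  alt := fun x hx => hn.alt x fun i => derO_le h (hx i)

variable (E O) in
/-- The algebra generated by `E` and `O`. -/
def alg : Submodule ℚ S := Subalgebra.toSubmodule (Algebra.adjoin ℚ ((E : Set S) ∪ O))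

theorem one_mem_alg : (1 : S) ∈ alg E O := one_mem (Algebra.adjoin ℚ ((E : Set S) ∪ O))

theorem E_le_alg : E ≤ alg E O := fun _ hx => Algebra.subset_adjoin (Or.inl hx)

theorem O_le_alg : O ≤ alg E O := fun _ hx => Algebra.subset_adjoin (Or.inr hx)

theorem alg_mul_alg : alg E O * alg E O ≤ alg E O :=
  Submodule.mul_le.2 fun x hx y hy => by
    have hx' : x ∈ Algebra.adjoin ℚ ((E : Set S) ∪ O) := hx
    have hy' : y ∈ Algebra.adjoin ℚ ((E : Set S) ∪ O) := hy
    exact (Algebra.adjoin ℚ ((E : Set S) ∪ O)).mul_mem hx' hy'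

theorem alg_mono {E' O' : Submodule ℚ S} (hE : E ≤ E') (hO : O ≤ O') : alg E O ≤ alg E' O' := by
  intro x hx
  exact Algebra.adjoin_mono (Set.union_subset_union hE hO) hx

variable (E O) in
/-- The ideal of `alg E O` generated by the derived algebra. -/
def qid : Submodule ℚ S := (derE E O ⊔ derO E O) * alg E O

theorem qid_mul_alg : qid E O * alg E O ≤ qid E O := by
  rw [qid, mul_assoc]
  exact mul_le_mul' le_rfl alg_mul_alg

theorem derE_le_qid : derE E O ≤ qid E O := by
  intro x hx
  have := Submodule.mul_mem_mul (Submodule.mem_sup_left hx : x ∈ derE E O ⊔ derO E O)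
    (one_mem_alg (E := E) (O := O))
  rwa [mul_one] at this

theorem derO_le_qid : derO E O ≤ qid E O := by
  intro x hx
  have := Submodule.mul_mem_mul (Submodule.mem_sup_right hx : x ∈ derE E O ⊔ derO E O)
    (one_mem_alg (E := E) (O := O))
  rwa [mul_one] at this

theorem gen_mul_der (h : SuperClosed E O) (t x : S) (ht : t ∈ E ∨ t ∈ O)
    (hx : x ∈ derE E O ⊔ derO E O) : t * x ∈ qid E O := by
  have hxt : x * t ∈ qid E O := by
    refine Submodule.mul_mem_mul hx ?_
    rcases ht with ht | ht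
    · exact E_le_alg ht
    · exact O_le_alg ht
  obtain ⟨x₀, hx₀, x₁, hx₁, rfl⟩ := Submodule.mem_sup.1 hx
  have hx₀t : x₀ * t ∈ qid E O := by
    refine Submodule.mul_mem_mul (Submodule.mem_sup_left hx₀) ?_
    rcases ht with ht | ht
    · exact E_le_alg ht
    · exact O_le_alg ht
  have hx₁t : x₁ * t ∈ qid E O := by
    refine Submodule.mul_mem_mul (Submodule.mem_sup_right hx₁) ?_
    rcases ht with ht | ht
    · exact E_le_alg ht
    · exact O_le_alg ht
  rw [mul_add]
  refine add_mem ?_ ?_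
  · rcases ht with ht | ht
    · have e : t * x₀ = x₀ * t + (t * x₀ - x₀ * t) := by abel
      rw [e]
      exact add_mem hx₀t (derE_le_qid (derE_of_ee ht (derE_le h hx₀)))
    · have e : t * x₀ = x₀ * t + (t * x₀ - x₀ * t) := by abel
      rw [e]
      exact add_mem hx₀t (derO_le_qid (derO_of_oe ht (derE_le h hx₀)))
  · rcases ht with ht | ht
    · have e : t * x₁ = x₁ * t - (x₁ * t - t * x₁) := by abel
      rw [e]
      exact sub_mem hx₁t (derO_le_qid (derO_of_oe (derO_le h hx₁) ht))
    · have e : t * x₁ = (t * x₁ + x₁ * t) - x₁ * t := by abel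
      rw [e]
      exact sub_mem (derE_le_qid (derE_of_oo ht (derO_le h hx₁))) hx₁t

theorem alg_mul_qid (h : SuperClosed E O) : alg E O * qid E O ≤ qid E O := by
  rw [Submodule.mul_le]
  intro t ht
  have ht' : t ∈ Algebra.adjoin ℚ ((E : Set S) ∪ O) := ht
  clear ht
  induction ht' using Algebra.adjoin_induction with
  | mem t ht =>
    intro q hq
    have h1 : Submodule.span ℚ {t} * (derE E O ⊔ derO E O) ≤ qid E O := by
      rw [Submodule.mul_le]
      intro a ha x hx
      obtain ⟨c, rfl⟩ := Submodule.mem_span_singleton.1 ha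
      rw [smul_mul_assoc]
      exact Submodule.smul_mem _ _ (gen_mul_der h t x ht hx)
    have h2 : Submodule.span ℚ {t} * qid E O ≤ qid E O := by
      calc Submodule.span ℚ {t} * qid E O
          = Submodule.span ℚ {t} * (derE E O ⊔ derO E O) * alg E O := by rw [qid, mul_assoc]
        _ ≤ qid E O * alg E O := mul_le_mul' h1 le_rfl
        _ ≤ qid E O := qid_mul_alg
    exact h2 (Submodule.mul_mem_mul (Submodule.mem_span_singleton_self t) hq)
  | algebraMap r =>
    intro q hq
    rw [← Algebra.smul_def]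
    exact Submodule.smul_mem _ _ hq
  | add a b _ _ iha ihb =>
    intro q hq
    rw [add_mul]
    exact add_mem (iha q hq) (ihb q hq)
  | mul a b _ _ iha ihb =>
    intro q hq
    rw [mul_assoc]
    exact iha _ (ihb q hq)

/-- Even part: `E ^ n` lies in `Q`. -/
theorem E_pow_le {n : ℕ} (h : SuperClosed E O) (hn : SuperNil n E O) : E ^ n ≤ qid E O := by
  rw [pow_le_iff]
  intro x hx
  refine mem_of_sum_perm _ (fun σ : Equiv.Perm (Fin n) => (List.ofFn fun i => x (σ i)).prod)
    _ (hn.sym x hx) fun σ => ?_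
  refine prod_perm_sub_mem E (fun _ => qid E O) ?_ ?_ (l := List.ofFn (x ∘ σ)) (l' := List.ofFn x)
      (Equiv.Perm.ofFn_comp_perm σ x) (by
        intro z hz
        obtain ⟨i, rfl⟩ := List.mem_ofFn.1 hz
        exact hx _)
  · intro _ a ha q hq
    exact alg_mul_qid h (Submodule.mul_mem_mul (E_le_alg ha) hq)
  · intro a ha b hb l hl
    refine qid_mul_alg (Submodule.mul_mem_mul (derE_le_qid (derE_of_ee ha hb)) ?_)
    have h1 : l.prod ∈ Algebra.adjoin ℚ ((E : Set S) ∪ O) :=
      list_prod_mem fun z hz => Algebra.subset_adjoin (Or.inl (hl z hz))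
    exact h1

/-- A product of odd elements with a repetition lies in `Q`. -/
theorem odd_mul_prod_mem (h : SuperClosed E O) (o : S) (ho : o ∈ O) (l : List S)
    (hl : ∀ z ∈ l, z ∈ O) (hol : o ∈ l) : o * l.prod ∈ qid E O := by
  induction l with
  | nil => simp at hol
  | cons a l ih =>
    have ha : a ∈ O := hl a List.mem_cons_self
    have hl' : ∀ z ∈ l, z ∈ O := fun z hz => hl z (List.mem_cons_of_mem _ hz)
    have hlp : l.prod ∈ alg E O := by
      have h1 : l.prod ∈ Algebra.adjoin ℚ ((E : Set S) ∪ O) :=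
        list_prod_mem fun z hz => Algebra.subset_adjoin (Or.inr (hl' z hz))
      exact h1
    rw [List.prod_cons]
    by_cases hoa : o = a
    · subst hoa
      have h1 : o * (o * l.prod) = (2 : ℚ)⁻¹ • ((o * o + o * o) * l.prod) := by
        rw [← two_mul, ← smul_mul_assoc]
        have : (2 : ℚ)⁻¹ • (2 * (o * o)) = o * o := by
          rw [two_mul, ← two_smul ℚ (o * o), smul_smul]; norm_num
        rw [this, mul_assoc]
      rw [h1]
      exact Submodule.smul_mem _ _
        (qid_mul_alg (Submodule.mul_mem_mul (derE_le_qid (derE_of_oo ho ho)) hlp))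
    · have hol' : o ∈ l := by
        rcases List.mem_cons.1 hol with h1 | h1
        · exact absurd h1 hoa
        · exact h1
      have e : o * (a * l.prod) = (o * a + a * o) * l.prod - a * (o * l.prod) := by noncomm_ring
      rw [e]
      refine sub_mem ?_ ?_
      · exact qid_mul_alg (Submodule.mul_mem_mul (derE_le_qid (derE_of_oo ho ha)) hlp)
      · exact alg_mul_qid h (Submodule.mul_mem_mul (O_le_alg ha) (ih hl' hol'))

theorem odd_prod_mem_of_not_nodup (h : SuperClosed E O) (l : List S)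
    (hl : ∀ z ∈ l, z ∈ O) (hnd : ¬ l.Nodup) : l.prod ∈ qid E O := by
  induction l with
  | nil => simp at hnd
  | cons a l ih =>
    have ha : a ∈ O := hl a List.mem_cons_self
    have hl' : ∀ z ∈ l, z ∈ O := fun z hz => hl z (List.mem_cons_of_mem _ hz)
    rw [List.nodup_cons, not_and_or, not_not] at hnd
    rw [List.prod_cons]
    rcases hnd with h1 | h1
    · exact odd_mul_prod_mem h a ha l hl' h1
    · exact alg_mul_qid h (Submodule.mul_mem_mul (O_le_alg ha) (ih hl' h1))

/-- Odd part: `O ^ n` lies in `Q`. -/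
theorem O_pow_le {n : ℕ} (h : SuperClosed E O) (hn : SuperNil n E O) : O ^ n ≤ qid E O := by
  classical
  rw [pow_le_iff]
  intro x hx
  let G : AlternatingMap ℚ O (S ⧸ qid E O) (Fin n) :=
    { ((qid E O).mkQ.compMultilinearMap (prodMap S n)).compLinearMap (fun _ => O.subtype) with
      map_eq_zero_of_eq' := by
        intro v i j hij hne
        change (qid E O).mkQ (prodMap S n fun i => (v i : S)) = 0
        rw [MultilinearMap.mkPiAlgebraFin_apply]
        rw [Submodule.mkQ_apply, Submodule.Quotient.mk_eq_zero]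
        refine odd_prod_mem_of_not_nodup h _ ?_ ?_
        · intro z hz
          obtain ⟨i, rfl⟩ := List.mem_ofFn.1 hz
          exact (v i).2
        · rw [List.nodup_ofFn]
          intro hinj
          exact hne (hinj (congrArg Subtype.val hij)) }
  have hG : ∀ v, G v = (qid E O).mkQ (List.ofFn fun i => (v i : S)).prod := by
    intro v
    change (qid E O).mkQ (prodMap S n fun i => (v i : S)) = _
    rw [MultilinearMap.mkPiAlgebraFin_apply]
  let v : Fin n → O := fun i => ⟨x i, hx i⟩
  refine mem_of_sum_perm _ (fun σ : Equiv.Perm (Fin n) =>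
    Equiv.Perm.sign σ • (List.ofFn fun i => x (σ i)).prod) _ (hn.alt x hx) fun σ => ?_
  rw [← Submodule.Quotient.mk_eq_zero, ← Submodule.mkQ_apply, map_sub]
  have h1 := hG (v ∘ σ)
  have h2 := hG v
  rw [G.map_perm] at h1
  have h3 : (qid E O).mkQ (Equiv.Perm.sign σ • (List.ofFn fun i => x (σ i)).prod) =
      Equiv.Perm.sign σ • (qid E O).mkQ (List.ofFn fun i => x (σ i)).prod := by
    rcases Int.units_eq_one_or (Equiv.Perm.sign σ) with h | h <;> rw [h] <;> simp
  rw [h3]
  have h4 : (qid E O).mkQ (List.ofFn fun i => x (σ i)).prod = Equiv.Perm.sign σ • G v := h1.symm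
  rw [h4, smul_smul, Int.units_mul_self, one_smul, h2]
  exact sub_self _

theorem E_mul_O_pow (h : SuperClosed E O) (k : ℕ) : E * O ^ k ≤ O ^ k * E ⊔ qid E O := by
  induction k with
  | zero => simp
  | succ k ih =>
    have h1 : E * O ≤ O * E ⊔ qid E O := by
      rw [Submodule.mul_le]
      intro x hx y hy
      have e : x * y = y * x - (y * x - x * y) := by abel
      rw [e]
      exact sub_mem (Submodule.mem_sup_left (Submodule.mul_mem_mul hy hx))
        (Submodule.mem_sup_right (derO_le_qid (derO_of_oe hy hx)))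
    calc E * O ^ (k + 1) = E * O ^ k * O := by rw [pow_succ, mul_assoc]
      _ ≤ (O ^ k * E ⊔ qid E O) * O := mul_le_mul' ih le_rfl
      _ = O ^ k * (E * O) ⊔ qid E O * O := by rw [Submodule.sup_mul, mul_assoc]
      _ ≤ O ^ k * (O * E ⊔ qid E O) ⊔ qid E O := sup_le_sup (mul_le_mul' le_rfl h1)
          ((mul_le_mul' le_rfl O_le_alg).trans qid_mul_alg)
      _ = (O ^ (k + 1) * E ⊔ O ^ k * qid E O) ⊔ qid E O := by
          rw [Submodule.mul_sup, ← mul_assoc, ← pow_succ]
      _ ≤ O ^ (k + 1) * E ⊔ qid E O := by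
          refine sup_le (sup_le le_sup_left ?_) le_sup_right
          refine le_sup_of_le_right ((mul_le_mul' ?_ le_rfl).trans (alg_mul_qid h))
          rw [pow_le_iff_list]
          intro l hl _
          have h1 : l.prod ∈ Algebra.adjoin ℚ ((E : Set S) ∪ O) :=
            list_prod_mem fun z hz => Algebra.subset_adjoin (Or.inr (hl z hz))
          exact h1

theorem O_mul_E_pow (h : SuperClosed E O) (k : ℕ) : O * E ^ k ≤ E ^ k * O ⊔ qid E O := by
  induction k with
  | zero => simp
  | succ k ih =>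
    have h1 : O * E ≤ E * O ⊔ qid E O := by
      rw [Submodule.mul_le]
      intro x hx y hy
      have e : x * y = y * x + (x * y - y * x) := by abel
      rw [e]
      exact add_mem (Submodule.mem_sup_left (Submodule.mul_mem_mul hy hx))
        (Submodule.mem_sup_right (derO_le_qid (derO_of_oe hx hy)))
    calc O * E ^ (k + 1) = O * E ^ k * E := by rw [pow_succ, mul_assoc]
      _ ≤ (E ^ k * O ⊔ qid E O) * E := mul_le_mul' ih le_rfl
      _ = E ^ k * (O * E) ⊔ qid E O * E := by rw [Submodule.sup_mul, mul_assoc]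
      _ ≤ E ^ k * (E * O ⊔ qid E O) ⊔ qid E O := sup_le_sup (mul_le_mul' le_rfl h1)
          ((mul_le_mul' le_rfl E_le_alg).trans qid_mul_alg)
      _ = (E ^ (k + 1) * O ⊔ E ^ k * qid E O) ⊔ qid E O := by
          rw [Submodule.mul_sup, ← mul_assoc, ← pow_succ]
      _ ≤ E ^ (k + 1) * O ⊔ qid E O := by
          refine sup_le (sup_le le_sup_left ?_) le_sup_right
          refine le_sup_of_le_right ((mul_le_mul' ?_ le_rfl).trans (alg_mul_qid h))
          rw [pow_le_iff_list]
          intro l hl _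
          have h1 : l.prod ∈ Algebra.adjoin ℚ ((E : Set S) ∪ O) :=
            list_prod_mem fun z hz => Algebra.subset_adjoin (Or.inl (hl z hz))
          exact h1

theorem sup_pow_le_super (h : SuperClosed E O) : ∀ i j : ℕ, (E ⊔ O) ^ (i + j + 1) ≤
    E ^ (i + 1) * alg E O ⊔ O ^ (j + 1) * alg E O ⊔ qid E O := by
  have hT : (E ⊔ O) ≤ alg E O := sup_le E_le_alg O_le_alg
  have hTn : ∀ n, (E ⊔ O) ^ n ≤ alg E O := by
    intro n
    induction n with
    | zero => rw [pow_zero, Submodule.one_le]; exact one_mem_alg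
    | succ n ih => rw [pow_succ]; exact (mul_le_mul' ih hT).trans alg_mul_alg
  have hEQ : E * qid E O ≤ qid E O := (mul_le_mul' E_le_alg le_rfl).trans (alg_mul_qid h)
  have hOQ : O * qid E O ≤ qid E O := (mul_le_mul' O_le_alg le_rfl).trans (alg_mul_qid h)
  have hEO : ∀ k, E * (O ^ k * alg E O) ≤ O ^ k * alg E O ⊔ qid E O := by
    intro k
    rw [← mul_assoc]
    refine (mul_le_mul' (E_mul_O_pow h k) le_rfl).trans ?_
    rw [Submodule.sup_mul, mul_assoc]
    exact sup_le_sup (mul_le_mul' le_rfl ((mul_le_mul' E_le_alg le_rfl).trans alg_mul_alg))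
      qid_mul_alg
  have hOE : ∀ k, O * (E ^ k * alg E O) ≤ E ^ k * alg E O ⊔ qid E O := by
    intro k
    rw [← mul_assoc]
    refine (mul_le_mul' (O_mul_E_pow h k) le_rfl).trans ?_
    rw [Submodule.sup_mul, mul_assoc]
    exact sup_le_sup (mul_le_mul' le_rfl ((mul_le_mul' O_le_alg le_rfl).trans alg_mul_alg))
      qid_mul_alg
  -- the two step estimates
  have stepE : ∀ (i j n : ℕ), (E ⊔ O) ^ n ≤
      E ^ i * alg E O ⊔ O ^ j * alg E O ⊔ qid E O →
      E * (E ⊔ O) ^ n ≤ E ^ (i + 1) * alg E O ⊔ O ^ j * alg E O ⊔ qid E O := by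
    intro i j n hn
    refine (mul_le_mul' le_rfl hn).trans ?_
    rw [Submodule.mul_sup, Submodule.mul_sup]
    refine sup_le (sup_le ?_ ?_) (hEQ.trans le_sup_right)
    · rw [← mul_assoc, ← pow_succ']
      exact le_sup_of_le_left le_sup_left
    · exact (hEO j).trans (sup_le (le_sup_of_le_left le_sup_right) le_sup_right)
  have stepO : ∀ (i j n : ℕ), (E ⊔ O) ^ n ≤
      E ^ i * alg E O ⊔ O ^ j * alg E O ⊔ qid E O →
      O * (E ⊔ O) ^ n ≤ E ^ i * alg E O ⊔ O ^ (j + 1) * alg E O ⊔ qid E O := by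
    intro i j n hn
    refine (mul_le_mul' le_rfl hn).trans ?_
    rw [Submodule.mul_sup, Submodule.mul_sup]
    refine sup_le (sup_le ?_ ?_) (hOQ.trans le_sup_right)
    · exact (hOE i).trans (sup_le (le_sup_of_le_left le_sup_left) le_sup_right)
    · rw [← mul_assoc, ← pow_succ']
      exact le_sup_of_le_left le_sup_right
  have h0 : ∀ (n : ℕ) (A : Submodule ℚ S), (E ⊔ O) ^ n ≤ E ^ 0 * alg E O ⊔ A ⊔ qid E O := by
    intro n A
    rw [pow_zero, one_mul]
    exact (hTn n).trans (le_sup_of_le_left le_sup_left)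
  have h0' : ∀ (n : ℕ) (A : Submodule ℚ S), (E ⊔ O) ^ n ≤ A ⊔ O ^ 0 * alg E O ⊔ qid E O := by
    intro n A
    rw [pow_zero, one_mul]
    exact (hTn n).trans (le_sup_of_le_left le_sup_right)
  intro i
  induction i with
  | zero =>
    intro j
    induction j with
    | zero =>
      rw [pow_succ', Submodule.sup_mul]
      exact sup_le (stepE 0 1 0 (h0 _ _)) (stepO 1 0 0 (h0' _ _))
    | succ j ih =>
      have e : 0 + (j + 1) + 1 = (0 + j + 1) + 1 := by ring
      rw [e, pow_succ', Submodule.sup_mul]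
      exact sup_le (stepE 0 (j + 1 + 1) _ (h0 _ _)) (stepO _ _ _ ih)
  | succ i ihi =>
    intro j
    induction j with
    | zero =>
      have e : i + 1 + 0 + 1 = (i + 0 + 1) + 1 := by ring
      rw [e, pow_succ', Submodule.sup_mul]
      exact sup_le (stepE _ _ _ (ihi 0)) (stepO (i + 1 + 1) 0 _ (h0' _ _))
    | succ j ihj =>
      have e : i + 1 + (j + 1) + 1 = (i + 1 + j + 1) + 1 := by ring
      have e' : i + (j + 1) + 1 = i + 1 + j + 1 := by ring
      have h1 := ihi (j + 1)
      rw [e'] at h1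
      rw [e, pow_succ', Submodule.sup_mul]
      exact sup_le (stepE _ _ _ h1) (stepO _ _ _ ihj)

/-- One step: `(E + O)^(2N+1)` lies in `Q`. -/
theorem step_pow_le {N : ℕ} (h : SuperClosed E O) (hn : SuperNil (N + 1) E O) :
    (E ⊔ O) ^ (2 * N + 1) ≤ qid E O := by
  have e : 2 * N + 1 = N + N + 1 := by ring
  rw [e]
  refine (sup_pow_le_super h N N).trans (sup_le (sup_le ?_ ?_) le_rfl)
  · exact (mul_le_mul' (E_pow_le h hn) le_rfl).trans qid_mul_alg
  · exact (mul_le_mul' (O_pow_le h hn) le_rfl).trans qid_mul_alg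

/-- The derived series. -/
def dser (E O : Submodule ℚ S) : ℕ → Submodule ℚ S × Submodule ℚ S
  | 0 => (E, O)
  | s + 1 => dser (derE E O) (derO E O) s

theorem alg_mul_der_le (h : SuperClosed E O) :
    alg E O * (derE E O ⊔ derO E O) ≤ (derE E O ⊔ derO E O) * alg E O := by
  refine le_trans ?_ (alg_mul_qid h)
  refine mul_le_mul' le_rfl ?_
  rw [qid]
  intro x hx
  have := Submodule.mul_mem_mul hx (one_mem_alg (E := E) (O := O))
  rwa [mul_one] at this

theorem mul_pow_le_pow_mul {A T : Submodule ℚ S} (hTT : T * T ≤ T) (h1 : 1 ≤ T)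
    (hTA : T * A ≤ A * T) (k : ℕ) : (A * T) ^ k ≤ A ^ k * T := by
  induction k with
  | zero => simpa using h1
  | succ k ih =>
    have h2 : T * A ^ k ≤ A ^ k * T := by
      clear ih
      induction k with
      | zero => simp
      | succ k ih =>
        calc T * A ^ (k + 1) = T * A ^ k * A := by rw [pow_succ, mul_assoc]
          _ ≤ A ^ k * T * A := mul_le_mul' ih le_rfl
          _ = A ^ k * (T * A) := mul_assoc _ _ _
          _ ≤ A ^ k * (A * T) := mul_le_mul' le_rfl hTA
          _ = A ^ (k + 1) * T := by rw [pow_succ, mul_assoc]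
    calc (A * T) ^ (k + 1) = A * T * (A * T) ^ k := pow_succ' _ _
      _ ≤ A * T * (A ^ k * T) := mul_le_mul' le_rfl ih
      _ = A * (T * A ^ k) * T := by simp only [mul_assoc]
      _ ≤ A * (A ^ k * T) * T := mul_le_mul' (mul_le_mul' le_rfl h2) le_rfl
      _ = A ^ (k + 1) * (T * T) := by rw [pow_succ']; simp only [mul_assoc]
      _ ≤ A ^ (k + 1) * T := mul_le_mul' le_rfl hTT

theorem pow_le_dser {N : ℕ} : ∀ (s : ℕ) (E O : Submodule ℚ S), SuperClosed E O →
    SuperNil (N + 1) E O → (E ⊔ O) ^ (2 * N + 1) ^ s ≤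
      ((dser E O s).1 ⊔ (dser E O s).2) * alg E O := by
  intro s
  induction s with
  | zero =>
    intro E O _ _
    rw [pow_zero, pow_one]
    intro x hx
    have := Submodule.mul_mem_mul hx (one_mem_alg (E := E) (O := O))
    rwa [mul_one] at this
  | succ s ih =>
    intro E O h hn
    have h1 := ih (derE E O) (derO E O) (superClosed_der h) (superNil_der h hn)
    have h2 : (E ⊔ O) ^ (2 * N + 1) ^ (s + 1) = ((E ⊔ O) ^ (2 * N + 1)) ^ (2 * N + 1) ^ s := by
      rw [← pow_mul, pow_succ, mul_comm]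
    have h3 : (1 : Submodule ℚ S) ≤ alg E O := Submodule.one_le.2 one_mem_alg
    calc (E ⊔ O) ^ (2 * N + 1) ^ (s + 1) = ((E ⊔ O) ^ (2 * N + 1)) ^ (2 * N + 1) ^ s := h2
      _ ≤ ((derE E O ⊔ derO E O) * alg E O) ^ (2 * N + 1) ^ s :=
          pow_le_pow_left' (step_pow_le h hn) _
      _ ≤ (derE E O ⊔ derO E O) ^ (2 * N + 1) ^ s * alg E O :=
          mul_pow_le_pow_mul alg_mul_alg h3 (alg_mul_der_le h) _
      _ ≤ ((dser E O (s + 1)).1 ⊔ (dser E O (s + 1)).2) * alg (derE E O) (derO E O) * alg E O :=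
          mul_le_mul' h1 le_rfl
      _ ≤ ((dser E O (s + 1)).1 ⊔ (dser E O (s + 1)).2) * alg E O * alg E O :=
          mul_le_mul' (mul_le_mul' le_rfl (alg_mono (derE_le h) (derO_le h))) le_rfl
      _ ≤ ((dser E O (s + 1)).1 ⊔ (dser E O (s + 1)).2) * alg E O := by
          rw [mul_assoc]; exact mul_le_mul' le_rfl alg_mul_alg

theorem dser_succ' : ∀ (s : ℕ) (E O : Submodule ℚ S),
    dser E O (s + 1) = (derE (dser E O s).1 (dser E O s).2, derO (dser E O s).1 (dser E O s).2) := by
  intro s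
  induction s with
  | zero => intro E O; rfl
  | succ s ih =>
    intro E O
    change dser (derE E O) (derO E O) (s + 1) = _
    rw [ih]
    rfl

theorem dser_closed (h : SuperClosed E O) (s : ℕ) :
    SuperClosed (dser E O s).1 (dser E O s).2 ∧ (dser E O s).1 ≤ E ∧ (dser E O s).2 ≤ O := by
  induction s with
  | zero => exact ⟨h, le_rfl, le_rfl⟩
  | succ s ih =>
    rw [dser_succ']
    exact ⟨superClosed_der ih.1, (derE_le ih.1).trans ih.2.1, (derO_le ih.1).trans ih.2.2⟩

theorem dser_le (h : SuperClosed E O) {c : ℕ} {J : Submodule ℚ S} (hJ : IsTS J) (hc : E ^ c ≤ J) :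
    (dser E O (3 * c)).1 ≤ J ∧ (dser E O (3 * c)).2 ≤ J := by
  have hl : ∀ A : Submodule ℚ S, A * J ≤ J := fun A =>
    Submodule.mul_le.2 fun x _ y hy => hJ.left _ _ hy
  have hr : ∀ A : Submodule ℚ S, J * A ≤ J := fun A =>
    Submodule.mul_le.2 fun x hx y _ => hJ.right _ _ hx
  have hcl : ∀ a, c ≤ a → ∀ A : Submodule ℚ S, E ^ a * A ≤ J := by
    intro a ha A
    obtain ⟨b, rfl⟩ := Nat.exists_eq_add_of_le ha
    rw [pow_add, mul_assoc]
    exact (mul_le_mul' hc le_rfl).trans (hr _)
  have hcr : ∀ a, c ≤ a → ∀ A : Submodule ℚ S, A * E ^ a ≤ J := by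
    intro a ha A
    obtain ⟨b, rfl⟩ := Nat.exists_eq_add_of_le ha
    rw [add_comm, pow_add, ← mul_assoc]
    exact (mul_le_mul' le_rfl hc).trans (hl _)
  -- the odd parts
  have hodd : ∀ j a b : ℕ, 2 * c ≤ a + b + j → E ^ a * (dser E O j).2 * E ^ b ≤ J := by
    intro j
    induction j with
    | zero =>
      intro a b hab
      rcases le_total c a with h1 | h1
      · rw [mul_assoc]
        exact hcl a h1 _
      · exact hcr b (by omega) _
    | succ j ih =>
      intro a b hab
      have h1 : (dser E O (j + 1)).2 ≤ (dser E O j).2 * E ⊔ E * (dser E O j).2 := by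
        rw [dser_succ']
        simp only [derO]
        rw [Submodule.span_le]
        rintro _ ⟨x, hx, y, hy, rfl⟩
        have hyE : y ∈ E := (dser_closed h j).2.1 hy
        rw [sub_eq_add_neg]
        exact Submodule.add_mem_sup (Submodule.mul_mem_mul hx hyE)
          (neg_mem (Submodule.mul_mem_mul hyE hx))
      refine (mul_le_mul' (mul_le_mul' le_rfl h1) le_rfl).trans ?_
      rw [Submodule.mul_sup, Submodule.sup_mul]
      refine sup_le ?_ ?_
      · have e : E ^ a * ((dser E O j).2 * E) * E ^ b = E ^ a * (dser E O j).2 * E ^ (b + 1) := by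
          rw [pow_succ']; simp only [mul_assoc]
        rw [e]
        exact ih a (b + 1) (by omega)
      · have e : E ^ a * (E * (dser E O j).2) * E ^ b = E ^ (a + 1) * (dser E O j).2 * E ^ b := by
          rw [pow_succ]; simp only [mul_assoc]
        rw [e]
        exact ih (a + 1) b (by omega)
  have hodd' : ∀ j, 2 * c ≤ j → (dser E O j).2 ≤ J := by
    intro j hj
    have := hodd j 0 0 (by omega)
    simpa using this
  have heven : ∀ i, (dser E O (2 * c + i)).1 ≤ E ^ (i + 1) ⊔ J := by
    intro i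
    induction i with
    | zero =>
      rw [pow_one]
      exact le_sup_of_le_left (dser_closed h _).2.1
    | succ i ih =>
      have e : 2 * c + (i + 1) = (2 * c + i) + 1 := by ring
      rw [e, dser_succ']
      have hE := (dser_closed h (2 * c + i)).2.1
      have hO := hodd' (2 * c + i) (by omega)
      have hOJ : ∀ A : Submodule ℚ S, (dser E O (2 * c + i)).2 * A ≤ J := fun A =>
        (mul_le_mul' hO le_rfl).trans (hr _)
      have hEE : (dser E O (2 * c + i)).1 * (dser E O (2 * c + i)).1 ≤ E ^ (i + 1 + 1) ⊔ J := by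
        refine (mul_le_mul' ih hE).trans ?_
        rw [Submodule.sup_mul, ← pow_succ]
        exact sup_le_sup le_rfl (hr _)
      simp only [derE]
      rw [sup_le_iff, Submodule.span_le, Submodule.span_le]
      constructor
      · rintro _ ⟨x, hx, y, hy, rfl⟩
        exact sub_mem (hEE (Submodule.mul_mem_mul hx hy)) (hEE (Submodule.mul_mem_mul hy hx))
      · rintro _ ⟨x, hx, y, hy, rfl⟩
        exact Submodule.mem_sup_right (add_mem (hOJ _ (Submodule.mul_mem_mul hx hy))
          (hOJ _ (Submodule.mul_mem_mul hy hx)))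
  constructor
  · have := heven c
    have e : 2 * c + c = 3 * c := by ring
    rw [e] at this
    refine this.trans (sup_le ?_ le_rfl)
    have := hcl (c + 1) (by omega) 1
    rwa [mul_one] at this
  · exact hodd' _ (by omega)

/-- **Lemma H.** -/
theorem lemmaH {N : ℕ} (h : SuperClosed E O) (hn : SuperNil (N + 1) E O) {c : ℕ}
    {J : Submodule ℚ S} (hJ : IsTS J) (hc : E ^ c ≤ J) : (E ⊔ O) ^ (2 * N + 1) ^ (3 * c) ≤ J := by
  refine (pow_le_dser (3 * c) E O h hn).trans ?_
  have h1 := dser_le h hJ hc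
  rw [Submodule.mul_le]
  intro x hx y _
  exact hJ.right _ _ (sup_le h1.1 h1.2 hx)

end

end Pool.Agent.H75.Zel
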