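import Pool.Agent.H75.Zel.TIdeal
import Pool.Agent.H75.Zel.LemmaH

/-!
# Uniform nilpotency of the ideals generated by products (step 4, abstract part)
-/

set_option autoImplicit false

open Finset

namespace Pool.Agent.H75.Zel

variable {S : Type} [Ring S] [Algebra ℚ S]

theorem isTS_bot : IsTS (⊥ : Submodule ℚ S) where
  left := by
    intro a x hx
    rw [Submodule.mem_bot] at *
    rw [hx, mul_zero]
  right := by
    intro a x hx
    rw [Submodule.mem_bot] at *
    rw [hx, zero_mul]

theorem span_mul_top_pow_le_iff {W : S} {e : ℕ} : (Submodule.span ℚ {W} * ⊤) ^ e ≤ ⊥ ↔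
    ∀ r : Fin e → S, (List.ofFn fun k => W * r k).prod = 0 := by
  rw [pow_le_iff]
  constructor
  · intro h r
    have := h (fun k => W * r k) fun k =>
      Submodule.mul_mem_mul (Submodule.mem_span_singleton_self W) Submodule.mem_top
    simpa using this
  · intro h x hx
    choose z _ hz using fun i => Submodule.mem_span_singleton_mul.1 (hx i)
    have := h z
    rw [Submodule.mem_bot]
    rw [← this]
    congr 2
    funext k
    exact (hz k).symm

theorem idl_pow_le_of {W : S} {e : ℕ} (h : (Submodule.span ℚ {W} * ⊤) ^ e ≤ ⊥) :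
    idl W ^ e ≤ ⊥ := by
  have h1 : ∀ k, idl W ^ k ≤ ⊤ * (Submodule.span ℚ {W} * ⊤) ^ k := by
    intro k
    induction k with
    | zero => simp
    | succ k ih =>
      calc idl W ^ (k + 1) = idl W * idl W ^ k := pow_succ' _ _
        _ ≤ idl W * (⊤ * (Submodule.span ℚ {W} * ⊤) ^ k) := mul_le_mul' le_rfl ih
        _ = ⊤ * (Submodule.span ℚ {W} * (⊤ * ⊤)) * (Submodule.span ℚ {W} * ⊤) ^ k := by
            rw [idl]; simp only [mul_assoc]
        _ ≤ ⊤ * (Submodule.span ℚ {W} * ⊤) * (Submodule.span ℚ {W} * ⊤) ^ k :=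
            mul_le_mul' (mul_le_mul' le_rfl (mul_le_mul' le_rfl le_top)) le_rfl
        _ = ⊤ * (Submodule.span ℚ {W} * ⊤) ^ (k + 1) := by rw [pow_succ', mul_assoc]
  refine (h1 e).trans ?_
  calc (⊤ : Submodule ℚ S) * (Submodule.span ℚ {W} * ⊤) ^ e ≤ ⊤ * ⊥ := mul_le_mul' le_rfl h
    _ = ⊥ := Submodule.mul_bot _

theorem span_mul_top_le_idl (W : S) : Submodule.span ℚ {W} * ⊤ ≤ idl W := by
  rw [idl]
  refine mul_le_mul' ?_ le_rfl
  intro x hx
  have := Submodule.mul_mem_mul (Submodule.mem_top (x := (1 : S))) hx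
  rwa [one_mul] at this

/-- The hypotheses of step 4. -/
structure SuperHyp (N c e : ℕ) (E O : Submodule ℚ S) : Prop where
  closed : SuperClosed E O
  nil : SuperNil (N + 1) E O
  star : ∀ x : Fin c → S, (∀ i, x i ∈ E) →
    (Submodule.span ℚ {(List.ofFn x).prod} * ⊤) ^ e ≤ ⊥

theorem exists_exponent {N c e : ℕ} {E O : Submodule ℚ S} (h : SuperHyp N c e E O)
    (y : Fin ((2 * N + 1) ^ (3 * c)) → S) (hy : ∀ i, y i ∈ E ⊔ O) :
    ∃ q, (Submodule.span ℚ {(List.ofFn y).prod} * ⊤) ^ q ≤ ⊥ := by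
  have h1 : E ^ c ≤ rad (⊥ : Submodule ℚ S) isTS_bot := by
    rw [pow_le_iff]
    intro x hx
    exact ⟨e, idl_pow_le_of (h.star x hx)⟩
  have h2 := lemmaH h.closed h.nil (isTS_rad ⊥ isTS_bot) h1
  obtain ⟨q, hq⟩ := pow_le_iff.1 h2 y hy
  exact ⟨q, (pow_le_pow_left' (span_mul_top_le_idl _) q).trans hq⟩

/-- The countable power of a subspace. -/
def pw (E : Submodule ℚ S) : Submodule ℚ (ℕ → S) := Submodule.pi Set.univ fun _ => E

theorem mem_pw {E : Submodule ℚ S} {f : ℕ → S} : f ∈ pw E ↔ ∀ n, f n ∈ E := by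
  simp [pw, Submodule.mem_pi]

theorem list_prod_apply' {m : ℕ} (x : Fin m → ℕ → S) (n : ℕ) :
    (List.ofFn x).prod n = (List.ofFn fun i => x i n).prod := by
  have := map_list_prod (Pi.evalRingHom (fun _ : ℕ => S) n) (List.ofFn x)
  rw [List.map_ofFn] at this
  exact this

theorem superHyp_pw {N c e : ℕ} {E O : Submodule ℚ S} (h : SuperHyp N c e E O) :
    SuperHyp N c e (pw E) (pw O) where
  closed :=
    { ee := fun x hx y hy => mem_pw.2 fun n => h.closed.ee _ (mem_pw.1 hx n) _ (mem_pw.1 hy n)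
      oe := fun x hx y hy => mem_pw.2 fun n => h.closed.oe _ (mem_pw.1 hx n) _ (mem_pw.1 hy n)
      oo := fun x hx y hy => mem_pw.2 fun n => h.closed.oo _ (mem_pw.1 hx n) _ (mem_pw.1 hy n) }
  nil :=
    { sym := by
        intro x hx
        funext n
        rw [Finset.sum_apply]
        simp_rw [list_prod_apply']
        exact h.nil.sym (fun i => x i n) fun i => mem_pw.1 (hx i) n
      alt := by
        intro x hx
        funext n
        rw [Finset.sum_apply]
        have : ∀ σ : Equiv.Perm (Fin (N + 1)),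
            (Equiv.Perm.sign σ • (List.ofFn fun i => x (σ i)).prod) n =
            Equiv.Perm.sign σ • (List.ofFn fun i => x (σ i) n).prod := by
          intro σ
          rw [← list_prod_apply']
          rcases Int.units_eq_one_or (Equiv.Perm.sign σ) with h | h <;> rw [h] <;> simp
        simp_rw [this]
        exact h.nil.alt (fun i => x i n) fun i => mem_pw.1 (hx i) n }
  star := by
    intro x hx
    rw [span_mul_top_pow_le_iff]
    intro r
    funext n
    rw [list_prod_apply']
    have h1 := span_mul_top_pow_le_iff.1 (h.star (fun i => x i n) fun i => mem_pw.1 (hx i) n)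
      fun k => r k n
    rw [← list_prod_apply'] at h1
    exact h1

/-- `(*4)`: uniform exponent. -/
theorem exists_uniform {N c e : ℕ} {E O : Submodule ℚ S} (h : SuperHyp N c e E O) :
    ∃ q, ∀ y : Fin ((2 * N + 1) ^ (3 * c)) → S, (∀ i, y i ∈ E ⊔ O) →
      (Submodule.span ℚ {(List.ofFn y).prod} * ⊤) ^ q ≤ ⊥ := by
  by_contra hcon
  push Not at hcon
  choose y hy hq using hcon
  choose a ha b hb hab using fun q i => Submodule.mem_sup.1 (hy q i)
  obtain ⟨q, hq'⟩ := exists_exponent (superHyp_pw h) (fun i q => y q i) (by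
    intro i
    refine Submodule.mem_sup.2 ⟨fun q => a q i, mem_pw.2 fun q => ha q i, fun q => b q i,
      mem_pw.2 fun q => hb q i, ?_⟩
    funext q
    exact hab q i)
  apply hq q
  rw [span_mul_top_pow_le_iff] at hq' ⊢
  intro r
  have h1 := congrFun (hq' fun k _ => r k) q
  rw [list_prod_apply'] at h1
  simp only [Pi.mul_apply, Pi.zero_apply] at h1
  rw [← h1]
  congr 2
  funext k
  rw [list_prod_apply']

end Pool.Agent.H75.Zel
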