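import Pool.Agent.H75.Zel.Basic

/-!
# Multilinear extension lemmas
-/

set_option autoImplicit false

open Finset

namespace Pool.Agent.H75.Zel

/-- A multilinear map vanishing on tuples from `s` vanishes on tuples from the span of `s`. -/
theorem multilinear_span {Z M W : Type*} [CommRing Z] [AddCommGroup M] [Module Z M]
    [AddCommGroup W] [Module Z W] {n : ℕ} (f : MultilinearMap Z (fun _ : Fin n => M) W) (s : Set M)
    (h : ∀ x : Fin n → M, (∀ i, x i ∈ s) → f x = 0) (x : Fin n → M)
    (hx : ∀ i, x i ∈ Submodule.span Z s) : f x = 0 := by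
  classical
  have key : ∀ T : Finset (Fin n), ∀ x : Fin n → M, (∀ i ∈ T, x i ∈ Submodule.span Z s) →
      (∀ i, i ∉ T → x i ∈ s) → f x = 0 := by
    intro T
    induction T using Finset.induction_on with
    | empty => intro x _ hx; exact h x fun i => hx i (Finset.notMem_empty i)
    | insert j T hj ih =>
      intro x hxT hxs
      have h1 : ∀ y ∈ Submodule.span Z s, f (Function.update x j y) = 0 := by
        intro y hy
        induction hy using Submodule.span_induction with
        | mem y hy =>
          refine ih _ ?_ ?_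
          · intro i hi
            have : i ≠ j := fun h => hj (h ▸ hi)
            rw [Function.update_of_ne this]
            exact hxT i (Finset.mem_insert_of_mem hi)
          · intro i hi
            by_cases hij : i = j
            · subst hij
              rwa [Function.update_self]
            · rw [Function.update_of_ne hij]
              exact hxs i (by simp [hij, hi])
        | zero => exact f.map_update_zero x j
        | add a b _ _ ha hb => rw [f.map_update_add, ha, hb, add_zero]
        | smul c a _ ha => rw [f.map_update_smul, ha, smul_zero]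
      have := h1 (x j) (hxT j (Finset.mem_insert_self j T))
      rwa [Function.update_eq_self] at this
  exact key Finset.univ x (fun i _ => hx i) fun i hi => absurd (Finset.mem_univ i) hi

/-- Bilinear version. -/
theorem bilinear_span {M W : Type*} [AddCommGroup M] [Module ℚ M] [AddCommGroup W] [Module ℚ W]
    (B : M →ₗ[ℚ] M →ₗ[ℚ] W) (s t : Set M) (P : Submodule ℚ W)
    (h : ∀ x ∈ s, ∀ y ∈ t, B x y ∈ P) (x : M) (hx : x ∈ Submodule.span ℚ s) (y : M)
    (hy : y ∈ Submodule.span ℚ t) : B x y ∈ P := by
  have h1 : Submodule.map₂ B (Submodule.span ℚ s) (Submodule.span ℚ t) ≤ P := by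
    rw [Submodule.map₂_span_span, Submodule.span_le]
    rintro _ ⟨x, hx, y, hy, rfl⟩
    exact h x hx y hy
  exact h1 (Submodule.apply_mem_map₂ _ hx hy)

/-- Extension of scalars for a symmetric identity. -/
theorem ext_scalars {Z M W : Type*} [CommRing Z] [AddCommGroup M] [Module Z M] [Module ℚ M]
    [AddCommGroup W] [Module Z W] [Module ℚ W] {n : ℕ}
    (f : MultilinearMap Z (fun _ : Fin n => M) W) (g : MultilinearMap ℚ (fun _ : Fin n => M) W)
    (hfg : ∀ x, f x = g x) (V : Submodule ℚ M) (h : ∀ v ∈ V, g (fun _ => v) = 0) (y : M)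
    (hy : y ∈ Submodule.span Z (V : Set M)) : f (fun _ => y) = 0 := by
  classical
  let F : MultilinearMap Z (fun _ : Fin n => M) W :=
    ∑ σ : Equiv.Perm (Fin n), f.domDomCongr σ
  have hF : ∀ x, F x = ∑ σ : Equiv.Perm (Fin n), f (fun i => x (σ i)) := by
    intro x
    simp [F, MultilinearMap.sum_apply]
  have h1 := multilinear_span F (V : Set M) (fun x hx => by
    rw [hF]
    simp_rw [hfg]
    exact polarize g V h x hx) (fun _ => y) (fun _ => hy)
  rw [hF, Finset.sum_const, ← Nat.cast_smul_eq_nsmul ℚ, smul_eq_zero] at h1
  refine h1.resolve_left (Nat.cast_ne_zero.2 ?_)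
  rw [Finset.card_univ, Fintype.card_perm]
  exact Nat.factorial_ne_zero _

/-- A product as a function of one factor. -/
theorem exists_prod_update {A : Type*} [Monoid A] : ∀ (c : ℕ) (x : Fin c → A) (j : Fin c),
    ∃ a b : A, ∀ y, (List.ofFn (Function.update x j y)).prod = a * y * b := by
  intro c
  induction c with
  | zero => intro x j; exact j.elim0
  | succ c ih =>
    intro x j
    refine Fin.cases ?_ (fun j => ?_) j
    · refine ⟨1, (List.ofFn fun i : Fin c => x i.succ).prod, fun y => ?_⟩
      rw [List.ofFn_succ, List.prod_cons, Function.update_self, one_mul]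
      congr 3
    · obtain ⟨a, b, hab⟩ := ih (fun i => x i.succ) j
      refine ⟨x 0 * a, b, fun y => ?_⟩
      rw [List.ofFn_succ, List.prod_cons, Function.update_of_ne (Fin.succ_ne_zero j).symm]
      have : (fun i : Fin c => Function.update x j.succ y i.succ) =
          Function.update (fun i => x i.succ) j y := by
        funext i
        by_cases h : i = j
        · subst h; simp
        · rw [Function.update_of_ne h, Function.update_of_ne (fun h' => h (Fin.succ_injective _ h'))]
      rw [this, hab]
      simp only [mul_assoc]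

/-- Antisymmetry of products of elements squaring to zero. -/
theorem alt_prod {A : Type*} [Ring A] [Algebra ℚ A] (V : Submodule ℚ A)
    (hV : ∀ x ∈ V, x * x = 0) {n : ℕ} (x : Fin n → A) (hx : ∀ i, x i ∈ V)
    (σ : Equiv.Perm (Fin n)) :
    (List.ofFn fun i => x (σ i)).prod = Equiv.Perm.sign σ • (List.ofFn x).prod := by
  let φ : ExteriorAlgebra ℚ V →ₐ[ℚ] A := ExteriorAlgebra.lift ℚ ⟨V.subtype, fun v => hV v v.2⟩
  have hφ : ∀ (v : Fin n → V), φ (ExteriorAlgebra.ιMulti ℚ n v) = (List.ofFn fun i => (v i : A)).prod := by
    intro v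
    rw [ExteriorAlgebra.ιMulti_apply, map_list_prod, List.map_ofFn]
    congr 2
    funext i
    simp [φ]
  have h1 := hφ ((fun i => ⟨x i, hx i⟩ : Fin n → V) ∘ σ)
  have h2 := hφ (fun i => ⟨x i, hx i⟩ : Fin n → V)
  rw [AlternatingMap.map_perm, map_zsmul_unit, h2] at h1
  exact h1.symm

end Pool.Agent.H75.Zel
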