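import Pool.Agent.H75.Zel.Fit
import Pool.Agent.H75.Zel.Multi

/-!
# The Grassmann envelope (step 4)
-/

set_option autoImplicit false

open Finset TensorProduct

namespace Pool.Agent.H75.Zel

/-- The Grassmann algebra on countably many generators. -/
abbrev Gr : Type := ExteriorAlgebra ℚ (ℕ →₀ ℚ)

/-- The generating space. -/
noncomputable def gD : Submodule ℚ Gr := LinearMap.range (ExteriorAlgebra.ι ℚ)

/-- Even elements. -/
noncomputable def Gev : Submodule ℚ Gr := ⨆ n : ℕ, gD ^ (2 * n)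

/-- Odd elements. -/
noncomputable def Godd : Submodule ℚ Gr := ⨆ n : ℕ, gD ^ (2 * n + 1)

theorem gD_comm_one (n : ℕ) : ∀ a ∈ gD ^ n, ∀ v ∈ gD, v * a = (-1 : ℚ) ^ n • (a * v) := by
  induction n with
  | zero =>
    intro a ha v _
    rw [pow_zero, Submodule.mem_one] at ha
    obtain ⟨r, rfl⟩ := ha
    rw [pow_zero, one_smul, Algebra.commutes]
  | succ n ih =>
    intro a ha v hv
    rw [pow_succ] at ha
    induction ha using Submodule.mul_induction_on' with
    | mem_mul_mem a ha b hb =>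
      have h1 := ih a ha v hv
      obtain ⟨v', rfl⟩ := hv
      obtain ⟨b', rfl⟩ := hb
      have h2 : ExteriorAlgebra.ι ℚ v' * ExteriorAlgebra.ι ℚ b' =
          - (ExteriorAlgebra.ι ℚ b' * ExteriorAlgebra.ι ℚ v') :=
        eq_neg_of_add_eq_zero_left (ExteriorAlgebra.ι_add_mul_swap v' b')
      rw [← mul_assoc, h1, smul_mul_assoc, mul_assoc, h2, mul_neg, pow_succ, mul_neg_one, neg_smul,
        smul_neg, mul_assoc]
    | add a _ b _ ha hb => rw [mul_add, ha, hb, add_mul, smul_add]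

theorem gD_comm (n m : ℕ) : ∀ b ∈ gD ^ m, ∀ a ∈ gD ^ n,
    b * a = (-1 : ℚ) ^ (m * n) • (a * b) := by
  induction m with
  | zero =>
    intro b hb a _
    rw [pow_zero, Submodule.mem_one] at hb
    obtain ⟨r, rfl⟩ := hb
    rw [zero_mul, pow_zero, one_smul, Algebra.commutes]
  | succ m ih =>
    intro b hb a ha
    rw [pow_succ] at hb
    induction hb using Submodule.mul_induction_on' with
    | mem_mul_mem b hb d hd =>
      rw [mul_assoc, gD_comm_one n a ha d hd, mul_smul_comm, ← mul_assoc, ih b hb a ha,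
        smul_mul_assoc, smul_smul, mul_assoc, ← pow_add]
      congr 2
      ring
    | add a _ b _ ha hb => rw [add_mul, ha, hb, mul_add, smul_add]

theorem one_mem_Gev : (1 : Gr) ∈ Gev :=
  Submodule.mem_iSup_of_mem 0 (by rw [mul_zero, pow_zero]; exact Submodule.one_le.1 le_rfl)

theorem ι_mem_gD (v : ℕ →₀ ℚ) : ExteriorAlgebra.ι ℚ v ∈ gD := ⟨v, rfl⟩

theorem ι_mem_Godd (v : ℕ →₀ ℚ) : ExteriorAlgebra.ι ℚ v ∈ Godd :=
  Submodule.mem_iSup_of_mem 0 (by rw [mul_zero, zero_add, pow_one]; exact ι_mem_gD v)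

theorem Gev_mul_Gev : Gev * Gev ≤ Gev := by
  rw [Gev, Submodule.iSup_mul, iSup_le_iff]
  intro m
  rw [Submodule.mul_iSup, iSup_le_iff]
  intro n
  rw [← pow_add, ← mul_add]
  exact le_iSup (fun n : ℕ => gD ^ (2 * n)) (m + n)

theorem Gev_mul_Godd : Gev * Godd ≤ Godd := by
  rw [Gev, Godd, Submodule.iSup_mul, iSup_le_iff]
  intro m
  rw [Submodule.mul_iSup, iSup_le_iff]
  intro n
  rw [← pow_add, ← add_assoc, ← mul_add]
  exact le_iSup (fun n : ℕ => gD ^ (2 * n + 1)) (m + n)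

theorem Godd_mul_Gev : Godd * Gev ≤ Godd := by
  rw [Gev, Godd, Submodule.iSup_mul, iSup_le_iff]
  intro m
  rw [Submodule.mul_iSup, iSup_le_iff]
  intro n
  rw [← pow_add]
  have e : 2 * m + 1 + 2 * n = 2 * (m + n) + 1 := by ring
  rw [e]
  exact le_iSup (fun n : ℕ => gD ^ (2 * n + 1)) (m + n)

theorem Godd_mul_Godd : Godd * Godd ≤ Gev := by
  rw [Gev, Godd, Submodule.iSup_mul, iSup_le_iff]
  intro m
  rw [Submodule.mul_iSup, iSup_le_iff]
  intro n
  rw [← pow_add]
  have e : 2 * m + 1 + (2 * n + 1) = 2 * (m + n + 1) := by ring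
  rw [e]
  exact le_iSup (fun n : ℕ => gD ^ (2 * n)) (m + n + 1)

theorem Gev_comm (a : Gr) (ha : a ∈ Gev) (b : Gr) : b * a = a * b := by
  have h1 : ∀ v, ExteriorAlgebra.ι ℚ v * a = a * ExteriorAlgebra.ι ℚ v := by
    intro v
    rw [Gev] at ha
    induction ha using Submodule.iSup_induction' with
    | mem n a ha =>
      have := gD_comm_one (2 * n) a ha _ (ι_mem_gD v)
      rw [this, pow_mul]; simp
    | zero => simp
    | add a b _ _ ha hb => rw [mul_add, ha, hb, add_mul]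
  induction b using ExteriorAlgebra.induction with
  | algebraMap r => exact Algebra.commutes r a
  | ι v => exact h1 v
  | mul b c hb hc => rw [mul_assoc, hc, ← mul_assoc, hb, mul_assoc]
  | add b c hb hc => rw [add_mul, hb, hc, mul_add]

theorem Godd_anticomm (a : Gr) (ha : a ∈ Godd) (b : Gr) (hb : b ∈ Godd) : b * a = - (a * b) := by
  rw [Godd] at ha hb
  induction ha using Submodule.iSup_induction' with
  | mem n a ha =>
    induction hb using Submodule.iSup_induction' with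
    | mem m b hb =>
      rw [gD_comm (2 * n + 1) (2 * m + 1) b hb a ha]
      have : (-1 : ℚ) ^ ((2 * m + 1) * (2 * n + 1)) = -1 := by
        have e : (2 * m + 1) * (2 * n + 1) = 2 * (2 * m * n + m + n) + 1 := by ring
        rw [e, pow_succ, pow_mul]; simp
      rw [this, neg_one_smul]
    | zero => simp
    | add x y _ _ hx hy => rw [add_mul, hx, hy, mul_add, neg_add]
  | zero => simp
  | add x y _ _ hx hy => rw [mul_add, hx, hy, add_mul, neg_add]

theorem Godd_sq (a : Gr) (ha : a ∈ Godd) : a * a = 0 := by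
  have h := Godd_anticomm a ha a ha
  have h2 : (2 : ℚ) • (a * a) = 0 := by rw [two_smul]; nth_rewrite 1 [h]; exact neg_add_cancel _
  exact (smul_eq_zero.1 h2).resolve_left (by norm_num)

section Envelope
variable {R : Type} [Ring R] [Algebra ℚ R] (L : Submodule ℚ R)

/-- Even part of the Grassmann envelope. -/
noncomputable def sE : Submodule ℚ (R ⊗[ℚ] Gr) :=
  Submodule.span ℚ {x | ∃ l ∈ L, ∃ g ∈ Gev, x = l ⊗ₜ[ℚ] g}

/-- Odd part of the Grassmann envelope. -/
noncomputable def sO : Submodule ℚ (R ⊗[ℚ] Gr) :=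
  Submodule.span ℚ {x | ∃ l ∈ L, ∃ g ∈ Godd, x = l ⊗ₜ[ℚ] g}

variable {L}

theorem tmul_mem_sE {l : R} (hl : l ∈ L) {g : Gr} (hg : g ∈ Gev) : l ⊗ₜ[ℚ] g ∈ sE L :=
  Submodule.subset_span ⟨l, hl, g, hg, rfl⟩

theorem tmul_mem_sO {l : R} (hl : l ∈ L) {g : Gr} (hg : g ∈ Godd) : l ⊗ₜ[ℚ] g ∈ sO L :=
  Submodule.subset_span ⟨l, hl, g, hg, rfl⟩

theorem superClosed_env (hL : LieClosed L) : SuperClosed (sE L) (sO L) where
  ee := by
    intro x hx y hy
    refine bilinear_span (LinearMap.mul ℚ (R ⊗[ℚ] Gr) - (LinearMap.mul ℚ (R ⊗[ℚ] Gr)).flip) _ _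
      (sE L) ?_ x hx y hy
    rintro _ ⟨l, hl, g, hg, rfl⟩ _ ⟨l', hl', g', hg', rfl⟩
    simp only [LinearMap.sub_apply, LinearMap.flip_apply, LinearMap.mul_apply',
      Algebra.TensorProduct.tmul_mul_tmul]
    rw [Gev_comm g hg g', ← TensorProduct.sub_tmul]
    exact tmul_mem_sE (hL l hl l' hl') (Gev_mul_Gev (Submodule.mul_mem_mul hg hg'))
  oe := by
    intro x hx y hy
    refine bilinear_span (LinearMap.mul ℚ (R ⊗[ℚ] Gr) - (LinearMap.mul ℚ (R ⊗[ℚ] Gr)).flip) _ _
      (sO L) ?_ x hx y hy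
    rintro _ ⟨l, hl, g, hg, rfl⟩ _ ⟨l', hl', g', hg', rfl⟩
    simp only [LinearMap.sub_apply, LinearMap.flip_apply, LinearMap.mul_apply',
      Algebra.TensorProduct.tmul_mul_tmul]
    rw [← Gev_comm g' hg' g, ← TensorProduct.sub_tmul]
    exact tmul_mem_sO (hL l hl l' hl') (Godd_mul_Gev (Submodule.mul_mem_mul hg hg'))
  oo := by
    intro x hx y hy
    refine bilinear_span (LinearMap.mul ℚ (R ⊗[ℚ] Gr) + (LinearMap.mul ℚ (R ⊗[ℚ] Gr)).flip) _ _
      (sE L) ?_ x hx y hy
    rintro _ ⟨l, hl, g, hg, rfl⟩ _ ⟨l', hl', g', hg', rfl⟩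
    simp only [LinearMap.add_apply, LinearMap.flip_apply, LinearMap.mul_apply',
      Algebra.TensorProduct.tmul_mul_tmul]
    rw [Godd_anticomm g hg g' hg', TensorProduct.tmul_neg, ← sub_eq_add_neg,
      ← TensorProduct.sub_tmul]
    exact tmul_mem_sE (hL l hl l' hl') (Godd_mul_Godd (Submodule.mul_mem_mul hg hg'))

theorem tmul_prod {n : ℕ} (a : Fin n → R) (b : Fin n → Gr) :
    (List.ofFn fun i => a i ⊗ₜ[ℚ] b i).prod = (List.ofFn a).prod ⊗ₜ[ℚ] (List.ofFn b).prod := by
  induction n with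
  | zero => simp [Algebra.TensorProduct.one_def]
  | succ n ih =>
    rw [List.ofFn_succ, List.ofFn_succ, List.ofFn_succ, List.prod_cons, List.prod_cons,
      List.prod_cons, ih, Algebra.TensorProduct.tmul_mul_tmul]

theorem sum_perm_eq_zero {N : ℕ} (hnil : ∀ z ∈ L, z ^ (N + 1) = 0) (l : Fin (N + 1) → R)
    (hl : ∀ i, l i ∈ L) :
    ∑ σ : Equiv.Perm (Fin (N + 1)), (List.ofFn fun i => l (σ i)).prod = 0 := by
  have h := polarize (prodMap R (N + 1)) L (fun v hv => by
    rw [MultilinearMap.mkPiAlgebraFin_apply, List.ofFn_const, List.prod_replicate, hnil v hv]) l hl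
  simpa [MultilinearMap.mkPiAlgebraFin_apply] using h

theorem superNil_env {N : ℕ} (hnil : ∀ z ∈ L, z ^ (N + 1) = 0) :
    SuperNil (N + 1) (sE L) (sO L) where
  sym := by
    intro x hx
    let F : MultilinearMap ℚ (fun _ : Fin (N + 1) => R ⊗[ℚ] Gr) (R ⊗[ℚ] Gr) :=
      ∑ σ : Equiv.Perm (Fin (N + 1)), (prodMap (R ⊗[ℚ] Gr) (N + 1)).domDomCongr σ
    have hF : ∀ x, F x = ∑ σ : Equiv.Perm (Fin (N + 1)), (List.ofFn fun i => x (σ i)).prod := by
      intro x
      simp [F, MultilinearMap.sum_apply, MultilinearMap.mkPiAlgebraFin_apply]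
    have h1 := multilinear_span F {x | ∃ l ∈ L, ∃ g ∈ Gev, x = l ⊗ₜ[ℚ] g} (fun x hx => by
      rw [hF]
      choose l hl g hg hx using hx
      have h2 : ∀ σ : Equiv.Perm (Fin (N + 1)), (List.ofFn fun i => x (σ i)).prod =
          (List.ofFn fun i => l (σ i)).prod ⊗ₜ[ℚ] (List.ofFn g).prod := by
        intro σ
        simp_rw [hx]
        rw [tmul_prod]
        congr 1
        refine List.Perm.prod_eq' (Equiv.Perm.ofFn_comp_perm σ g) ?_
        rw [List.pairwise_ofFn]
        intro i j _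
        exact Gev_comm _ (hg _) _
      simp_rw [h2]
      rw [← TensorProduct.sum_tmul, sum_perm_eq_zero hnil l hl, TensorProduct.zero_tmul]) x hx
    rwa [hF] at h1
  alt := by
    intro x hx
    let F : MultilinearMap ℚ (fun _ : Fin (N + 1) => R ⊗[ℚ] Gr) (R ⊗[ℚ] Gr) :=
      ∑ σ : Equiv.Perm (Fin (N + 1)), Equiv.Perm.sign σ •
        (prodMap (R ⊗[ℚ] Gr) (N + 1)).domDomCongr σ
    have hF : ∀ x, F x = ∑ σ : Equiv.Perm (Fin (N + 1)),
        Equiv.Perm.sign σ • (List.ofFn fun i => x (σ i)).prod := by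
      intro x
      simp only [F, MultilinearMap.sum_apply]
      refine Finset.sum_congr rfl fun σ _ => ?_
      rcases Int.units_eq_one_or (Equiv.Perm.sign σ) with h | h <;> rw [h] <;>
        simp [MultilinearMap.mkPiAlgebraFin_apply]
    have h1 := multilinear_span F {x | ∃ l ∈ L, ∃ g ∈ Godd, x = l ⊗ₜ[ℚ] g} (fun x hx => by
      rw [hF]
      choose l hl g hg hx using hx
      have h2 : ∀ σ : Equiv.Perm (Fin (N + 1)),
          Equiv.Perm.sign σ • (List.ofFn fun i => x (σ i)).prod =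
          (List.ofFn fun i => l (σ i)).prod ⊗ₜ[ℚ] (List.ofFn g).prod := by
        intro σ
        simp_rw [hx]
        rw [tmul_prod, alt_prod Godd Godd_sq g hg σ]
        rcases Int.units_eq_one_or (Equiv.Perm.sign σ) with h | h <;> rw [h]
        · simp
        · simp [TensorProduct.tmul_neg]
      simp_rw [h2]
      rw [← TensorProduct.sum_tmul, sum_perm_eq_zero hnil l hl, TensorProduct.zero_tmul]) x hx
    rwa [hF] at h1

end Envelope

end Pool.Agent.H75.Zel
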