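import Pool.Agent.H75.Zel.Grass

/-!
# The Grassmann envelope satisfies the hypotheses of step 4
-/

set_option autoImplicit false

open Finset TensorProduct

namespace Pool.Agent.H75.Zel

variable {R : Type} [Ring R] [Algebra ℚ R] {L : Submodule ℚ R}

theorem mem_center_of_even (g : Gr) (hg : g ∈ Gev) :
    (1 : R) ⊗ₜ[ℚ] g ∈ Subring.center (R ⊗[ℚ] Gr) := by
  rw [Subring.mem_center_iff]
  intro x
  induction x using TensorProduct.induction_on with
  | zero => simp
  | tmul r g' =>
    rw [Algebra.TensorProduct.tmul_mul_tmul, Algebra.TensorProduct.tmul_mul_tmul, mul_one, one_mul,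
      Gev_comm g hg g']
  | add x y hx hy => rw [add_mul, hx, hy, mul_add]

/-- `L ⊗ 1`. -/
noncomputable def L1 (L : Submodule ℚ R) : Submodule ℚ (R ⊗[ℚ] Gr) :=
  L.map (Algebra.TensorProduct.includeLeft : R →ₐ[ℚ] R ⊗[ℚ] Gr).toLinearMap

theorem sE_le_span (x : R ⊗[ℚ] Gr) (hx : x ∈ sE L) :
    x ∈ Submodule.span (Subring.center (R ⊗[ℚ] Gr)) (L1 L : Set (R ⊗[ℚ] Gr)) := by
  rw [sE] at hx
  induction hx using Submodule.span_induction with
  | mem x hx =>
    obtain ⟨l, hl, g, hg, rfl⟩ := hx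
    have h1 : l ⊗ₜ[ℚ] g =
        (⟨(1 : R) ⊗ₜ[ℚ] g, mem_center_of_even g hg⟩ : Subring.center (R ⊗[ℚ] Gr)) •
          (l ⊗ₜ[ℚ] (1 : Gr)) := by
      change l ⊗ₜ[ℚ] g = ((1 : R) ⊗ₜ[ℚ] g) * (l ⊗ₜ[ℚ] (1 : Gr))
      rw [Algebra.TensorProduct.tmul_mul_tmul, one_mul, mul_one]
    rw [h1]
    exact Submodule.smul_mem _ _ (Submodule.subset_span ⟨l, hl, rfl⟩)
  | zero => exact zero_mem _
  | add x y _ _ hx hy => exact add_mem hx hy
  | smul c x _ hx =>
    have h1 : c • x = (⟨algebraMap ℚ (R ⊗[ℚ] Gr) c, Subring.mem_center_iff.2 fun y =>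
        (Algebra.commutes c y).symm⟩ : Subring.center (R ⊗[ℚ] Gr)) • x := by
      change c • x = algebraMap ℚ (R ⊗[ℚ] Gr) c * x
      rw [Algebra.smul_def]
    rw [h1]
    exact Submodule.smul_mem _ _ hx

theorem star_env {c e : ℕ}
    (hstar : ∀ x : Fin c → R, (∀ i, x i ∈ L) → ∀ r : Fin e → R,
      (List.ofFn fun k => (List.ofFn x).prod * r k).prod = 0)
    (x : Fin c → R ⊗[ℚ] Gr) (hx : ∀ i, x i ∈ sE L) :
    (Submodule.span ℚ {(List.ofFn x).prod} * ⊤) ^ e ≤ ⊥ := by
  classical
  rw [span_mul_top_pow_le_iff]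
  have key : ∀ T : Finset (Fin c), ∀ x : Fin c → R ⊗[ℚ] Gr, (∀ i ∈ T, x i ∈ sE L) →
      (∀ i, i ∉ T → x i ∈ L1 L) → ∀ r : Fin e → R ⊗[ℚ] Gr,
        (List.ofFn fun k => (List.ofFn x).prod * r k).prod = 0 := by
    intro T
    induction T using Finset.induction_on with
    | empty =>
      intro x _ hx
      replace hx : ∀ i, ∃ l ∈ L, x i = l ⊗ₜ[ℚ] (1 : Gr) := by
        intro i
        obtain ⟨l, hl, hlx⟩ := hx i (Finset.notMem_empty i)
        exact ⟨l, hl, hlx.symm⟩
      choose l hl hx using hx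
      have hW : (List.ofFn x).prod = (List.ofFn l).prod ⊗ₜ[ℚ] (1 : Gr) := by
        simp_rw [show x = fun i => l i ⊗ₜ[ℚ] (1 : Gr) from funext hx]
        rw [tmul_prod, List.ofFn_const, List.prod_replicate, one_pow]
      intro r
      let f : MultilinearMap ℚ (fun _ : Fin e => R ⊗[ℚ] Gr) (R ⊗[ℚ] Gr) :=
        (prodMap (R ⊗[ℚ] Gr) e).compLinearMap
          (fun _ => LinearMap.mulLeft ℚ (List.ofFn x).prod)
      have hf : ∀ r, f r = (List.ofFn fun k => (List.ofFn x).prod * r k).prod := by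
        intro r
        simp [f, MultilinearMap.mkPiAlgebraFin_apply]
      rw [← hf]
      refine multilinear_span f {t | ∃ m n, m ⊗ₜ[ℚ] n = t} (fun r hr => ?_) r (fun i => by
        rw [TensorProduct.span_tmul_eq_top]; exact Submodule.mem_top)
      choose m n hmn using hr
      rw [hf]
      have : (fun k => (List.ofFn x).prod * r k) =
          fun k => ((List.ofFn l).prod * m k) ⊗ₜ[ℚ] n k := by
        funext k
        rw [hW, ← hmn, Algebra.TensorProduct.tmul_mul_tmul, one_mul]
      rw [this, tmul_prod, hstar l hl m, TensorProduct.zero_tmul]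
    | insert j T hj ih =>
      intro x hxT hxs r
      obtain ⟨a, b, hab⟩ := exists_prod_update c x j
      let Z := Subring.center (R ⊗[ℚ] Gr)
      let fZ : MultilinearMap Z (fun _ : Fin e => R ⊗[ℚ] Gr) (R ⊗[ℚ] Gr) :=
        (MultilinearMap.mkPiAlgebraFin Z e (R ⊗[ℚ] Gr)).compLinearMap
          (fun k => LinearMap.mulLeftRight Z (a, b * r k))
      let fQ : MultilinearMap ℚ (fun _ : Fin e => R ⊗[ℚ] Gr) (R ⊗[ℚ] Gr) :=
        (prodMap (R ⊗[ℚ] Gr) e).compLinearMap
          (fun k => LinearMap.mulLeftRight ℚ (a, b * r k))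
      have hZ : ∀ y, fZ y = (List.ofFn fun k => a * y k * (b * r k)).prod := by
        intro y
        simp [fZ, MultilinearMap.mkPiAlgebraFin_apply, LinearMap.mulLeftRight_apply]
      have hQ : ∀ y, fQ y = (List.ofFn fun k => a * y k * (b * r k)).prod := by
        intro y
        simp [fQ, MultilinearMap.mkPiAlgebraFin_apply, LinearMap.mulLeftRight_apply]
      have h1 := ext_scalars fZ fQ (fun y => (hZ y).trans (hQ y).symm) (L1 L) (fun y hy => by
        rw [hQ]
        have h2 := ih (Function.update x j y) (fun i hi => by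
          have : i ≠ j := fun h => hj (h ▸ hi)
          rw [Function.update_of_ne this]
          exact hxT i (Finset.mem_insert_of_mem hi)) (fun i hi => by
          by_cases hij : i = j
          · subst hij
            rwa [Function.update_self]
          · rw [Function.update_of_ne hij]
            exact hxs i (by simp [hij, hi])) r
        rw [hab] at h2
        simp only [mul_assoc] at h2 ⊢
        exact h2) (x j) (sE_le_span _ (hxT j (Finset.mem_insert_self j T)))
      rw [hZ] at h1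
      have h3 := hab (x j)
      rw [Function.update_eq_self] at h3
      rw [h3]
      simp only [mul_assoc] at h1 ⊢
      exact h1
  exact key Finset.univ x (fun i _ => hx i) fun i hi => absurd (Finset.mem_univ i) hi

theorem superHyp_env {N c e : ℕ} (hL : LieClosed L) (hnil : ∀ z ∈ L, z ^ (N + 1) = 0)
    (hstar : ∀ x : Fin c → R, (∀ i, x i ∈ L) → ∀ r : Fin e → R,
      (List.ofFn fun k => (List.ofFn x).prod * r k).prod = 0) :
    SuperHyp N c e (sE L) (sO L) where
  closed := superClosed_env hL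
  nil := superNil_env hnil
  star := star_env hstar

end Pool.Agent.H75.Zel
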