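import Pool.Agent.H75.Zel.Ann2

/-!
# Step 2: prime algebras
-/

set_option autoImplicit false

open Finset

namespace Pool.Agent.H75.Zel

variable {R : Type} [Ring R] [Algebra ℚ R] {L : Submodule ℚ R}

theorem mem_pow_of_mem_sSup_pow {c : Set (Submodule ℚ R)} (hc : IsChain (· ≤ ·) c)
    (hne : c.Nonempty) (n : ℕ) : ∀ x ∈ (sSup c) ^ n, ∃ C ∈ c, x ∈ C ^ n := by
  induction n with
  | zero =>
    intro x hx
    obtain ⟨C, hC⟩ := hne
    exact ⟨C, hC, by simpa using hx⟩
  | succ n ih =>
    intro x hx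
    rw [pow_succ] at hx
    induction hx using Submodule.mul_induction_on' with
    | mem_mul_mem a ha b hb =>
      obtain ⟨C, hC, haC⟩ := ih a ha
      obtain ⟨C', hC', hbC'⟩ := (Submodule.mem_sSup_of_directed hne hc.directedOn).1 hb
      rcases hc.total hC hC' with h | h
      · refine ⟨C', hC', ?_⟩
        rw [pow_succ]
        exact Submodule.mul_mem_mul (pow_le_pow_left' h n haC) hbC'
      · refine ⟨C, hC, ?_⟩
        rw [pow_succ]
        exact Submodule.mul_mem_mul haC (h hbC')
    | add a _ b _ iha ihb =>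
      obtain ⟨C, hC, haC⟩ := iha
      obtain ⟨C', hC', hbC'⟩ := ihb
      rcases hc.total hC hC' with h | h
      · exact ⟨C', hC', add_mem (pow_le_pow_left' h _ haC) hbC'⟩
      · exact ⟨C, hC, add_mem haC (pow_le_pow_left' h _ hbC')⟩

theorem eq_bot_of_prime {N K : ℕ} (hK : NilBound N K) (hL : LieClosed L)
    (hnil : ∀ z ∈ L, z ^ (N + 2) = 0) (hgen : Algebra.adjoin ℚ (L : Set R) = ⊤) [Nontrivial R]
    (hprime : ∀ a b : R, (∀ r, a * r * b = 0) → a = 0 ∨ b = 0) : L ≤ ⊥ := by
  set K' := 1 + (N + 1) * K with hK'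
  have hC : ∀ m : R, m ≠ 0 → ann L m ^ K' ≤ ⊥ := by
    intro m hm x hx
    refine (hprime m x fun r => ?_).resolve_left hm
    have := star_two hK hL hnil hgen m (Submodule.mul_mem_mul (Submodule.mul_mem_mul
      (Submodule.mem_span_singleton_self m) (Submodule.mem_top (x := r))) hx)
    simpa using this
  -- a maximal annihilator
  obtain ⟨C, -, hmax⟩ := zorn_le_nonempty₀ {C : Submodule ℚ R | ∃ m, m ≠ 0 ∧ C = ann L m} (by
    intro c hcs hc y hy
    have hDK : (sSup c) ^ K' ≤ ⊥ := by
      intro x hx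
      obtain ⟨C, hCc, hxC⟩ := mem_pow_of_mem_sSup_pow hc ⟨y, hy⟩ _ x hx
      obtain ⟨m, hm, rfl⟩ := hcs hCc
      exact hC m hm hxC
    classical
    have hex : ∃ n, (sSup c) ^ n ≤ ⊥ := ⟨K', hDK⟩
    obtain ⟨k, hk⟩ : ∃ k, Nat.find hex = k + 1 := by
      apply Nat.exists_eq_succ_of_ne_zero
      intro h0
      have := Nat.find_spec hex
      rw [h0, pow_zero, Submodule.one_le, Submodule.mem_bot] at this
      exact one_ne_zero this
    have h1 : ¬ (sSup c) ^ k ≤ ⊥ := Nat.find_min hex (by omega)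
    have h2 : (sSup c) ^ (k + 1) ≤ ⊥ := by rw [← hk]; exact Nat.find_spec hex
    obtain ⟨m', hm', hm0⟩ := (Submodule.ne_bot_iff _).1 (fun h => h1 h.le)
    refine ⟨ann L m', ⟨m', hm0, rfl⟩, fun z hz g hg => ?_⟩
    obtain ⟨m, hm, rfl⟩ := hcs hz
    refine ⟨hg.1, ?_⟩
    have := h2 (by rw [pow_succ]; exact Submodule.mul_mem_mul hm' (le_sSup hz hg))
    simpa using this) (ann L 1) ⟨1, one_ne_zero, rfl⟩
  obtain ⟨⟨m, hm, rfl⟩, hmax⟩ := hmax
  -- the maximal annihilator is `L`
  have hann : L ≤ ann L m := by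
    by_contra hne
    obtain ⟨y, hyN, hyC⟩ : ∃ y, y ∈ nser L (ann L m) 1 ∧ y ∉ ann L m := by
      by_contra hcon
      push Not at hcon
      have h1 : ∀ i, nser L (ann L m) i ≤ ann L m := by
        intro i
        induction i with
        | zero => exact le_rfl
        | succ i ih =>
          intro u hu
          exact hcon u ⟨hu.1, fun g hg => ih (hu.2 g hg)⟩
      exact hne ((le_nser hK hL hnil m).trans (h1 K))
    have hyL : y ∈ L := hyN.1
    have hy2 : ∀ g ∈ ann L m, y * g - g * y ∈ ann L m := hyN.2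
    have h1 : ∀ j : ℕ, ∀ g ∈ ann L m, m * y ^ j * g = 0 := by
      intro j
      induction j with
      | zero => intro g hg; rw [pow_zero, mul_one]; exact hg.2
      | succ j ih =>
        intro g hg
        have h3 := ih g hg
        have h4 := ih _ (hy2 g hg)
        have : m * y ^ (j + 1) * g = m * y ^ j * g * y + m * y ^ j * (y * g - g * y) := by
          rw [pow_succ]; noncomm_ring
        rw [this, h3, h4, zero_mul, add_zero]
    classical
    have hex : ∃ j, m * y ^ j = 0 := ⟨N + 2, by rw [hnil y hyL, mul_zero]⟩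
    obtain ⟨j, hj⟩ : ∃ j, Nat.find hex = j + 1 := by
      apply Nat.exists_eq_succ_of_ne_zero
      intro h0
      have := Nat.find_spec hex
      rw [h0, pow_zero, mul_one] at this
      exact hm this
    have h5 : m * y ^ j ≠ 0 := Nat.find_min hex (by omega)
    have h6 : m * y ^ (j + 1) = 0 := by rw [← hj]; exact Nat.find_spec hex
    have h7 : ann L m ≤ ann L (m * y ^ j) := fun g hg => ⟨hg.1, h1 j g hg⟩
    have h8 := hmax ⟨m * y ^ j, h5, rfl⟩ h7
    exact hyC (h8 ⟨hyL, by rw [mul_assoc, ← pow_succ]; exact h6⟩)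
  -- conclusion
  intro z hz
  refine (hprime m z fun r => ?_).resolve_left hm
  have h1 : ∀ n, Submodule.span ℚ {m} * (1 ⊔ L) ^ n ≤ Submodule.span ℚ {m} := by
    intro n
    induction n with
    | zero => simp
    | succ n ih =>
      rw [pow_succ, ← mul_assoc]
      refine (mul_le_mul' ih le_rfl).trans ?_
      rw [Submodule.mul_sup, mul_one]
      refine sup_le le_rfl ?_
      rw [Submodule.mul_le]
      intro x hx g hg
      obtain ⟨c, rfl⟩ := Submodule.mem_span_singleton.1 hx
      rw [smul_mul_assoc, (hann hg).2, smul_zero]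
      exact zero_mem _
  have h2 : m * r ∈ Submodule.span ℚ {m} :=
    h1 (N + 1) (Submodule.mul_mem_mul (Submodule.mem_span_singleton_self m)
      (top_le_pow' hL hnil hgen Submodule.mem_top))
  obtain ⟨c, hc⟩ := Submodule.mem_span_singleton.1 h2
  rw [← hc, smul_mul_assoc, (hann hz).2, smul_zero]

end Pool.Agent.H75.Zel
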