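import Pool.Agent.H75.Zel.Prime

/-!
# Step 2, second part: the algebra is not semiprime
-/

set_option autoImplicit false

open Finset

namespace Pool.Agent.H75.Zel

/-- Two-sided ideals as subspaces. -/
structure IsTS {R : Type*} [Ring R] [Algebra ℚ R] (I : Submodule ℚ R) : Prop where
  left : ∀ a x, x ∈ I → a * x ∈ I
  right : ∀ a x, x ∈ I → x * a ∈ I

theorem exists_quot {R : Type} [Ring R] [Algebra ℚ R] (P : Submodule ℚ R) (hP : IsTS P) :
    ∃ (Q : Type) (_ : Ring Q) (_ : Algebra ℚ Q) (π : R →ₐ[ℚ] Q), Function.Surjective π ∧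
      ∀ x, π x = 0 ↔ x ∈ P := by
  let I : Ideal R :=
    { carrier := P
      add_mem' := fun {a b} ha hb => add_mem ha hb
      zero_mem' := zero_mem _
      smul_mem' := fun a x hx => hP.left a x hx }
  have : I.IsTwoSided := ⟨fun {a} b ha => hP.right b a ha⟩
  exact ⟨R ⧸ I, inferInstance, inferInstance, Ideal.Quotient.mkₐ ℚ I, Ideal.Quotient.mkₐ_surjective _ _,
    fun x => Ideal.Quotient.eq_zero_iff_mem⟩

variable {R : Type} [Ring R] [Algebra ℚ R] {L : Submodule ℚ R}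

theorem isTS_sup_top_mul {P : Submodule ℚ R} (hP : IsTS P) (a : R) :
    IsTS (P ⊔ ⊤ * Submodule.span ℚ {a} * ⊤) := by
  constructor
  · intro b x hx
    obtain ⟨p, hp, q, hq, rfl⟩ := Submodule.mem_sup.1 hx
    rw [mul_add]
    refine Submodule.add_mem_sup (hP.left _ _ hp) ?_
    have h : (⊤ : Submodule ℚ R) * (⊤ * Submodule.span ℚ {a} * ⊤) ≤ ⊤ * Submodule.span ℚ {a} * ⊤ := by
      rw [← mul_assoc, ← mul_assoc]
      exact mul_le_mul' (mul_le_mul' le_top le_rfl) le_rfl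
    exact h (Submodule.mul_mem_mul Submodule.mem_top hq)
  · intro b x hx
    obtain ⟨p, hp, q, hq, rfl⟩ := Submodule.mem_sup.1 hx
    rw [add_mul]
    refine Submodule.add_mem_sup (hP.right _ _ hp) ?_
    have h : (⊤ * Submodule.span ℚ {a} * ⊤) * (⊤ : Submodule ℚ R) ≤ ⊤ * Submodule.span ℚ {a} * ⊤ := by
      rw [mul_assoc]
      exact mul_le_mul' le_rfl le_top
    exact h (Submodule.mul_mem_mul hq Submodule.mem_top)

theorem mem_top_mul_span (a : R) : a ∈ (⊤ * Submodule.span ℚ {a} * ⊤ : Submodule ℚ R) := by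
  have := Submodule.mul_mem_mul (Submodule.mul_mem_mul (Submodule.mem_top (x := (1 : R)))
    (Submodule.mem_span_singleton_self (R := ℚ) a)) (Submodule.mem_top (x := (1 : R)))
  simpa using this

theorem exists_prime (z : R) (hz : z ≠ 0) (hsp : ∀ m : R, m ≠ 0 → ∃ r, m * r * m ≠ 0) :
    ∃ P : Submodule ℚ R, IsTS P ∧ z ∉ P ∧
      ∀ a b : R, (∀ r, a * r * b ∈ P) → a ∈ P ∨ b ∈ P := by
  choose! r hr using hsp
  let s : ℕ → R := fun n => Nat.rec z (fun _ m => m * r m * m) n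
  have s0 : s 0 = z := rfl
  have s1 : ∀ n, s (n + 1) = s n * r (s n) * s n := fun n => rfl
  have sne : ∀ n, s n ≠ 0 := by
    intro n
    induction n with
    | zero => exact hz
    | succ n ih => rw [s1]; exact hr _ ih
  have smem : ∀ (I : Submodule ℚ R), IsTS I → ∀ i j, i ≤ j → s i ∈ I → s j ∈ I := by
    intro I hI i j hij hi
    induction j, hij using Nat.le_induction with
    | base => exact hi
    | succ j _ ih => rw [s1]; exact hI.left _ _ ih
  obtain ⟨P, -, hmax⟩ := zorn_le_nonempty₀ {I : Submodule ℚ R | IsTS I ∧ ∀ i, s i ∉ I} (by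
    intro c hcs hc y hy
    refine ⟨sSup c, ⟨⟨?_, ?_⟩, ?_⟩, fun z hz => le_sSup hz⟩
    · intro a x hx
      obtain ⟨I, hI, hxI⟩ := (Submodule.mem_sSup_of_directed ⟨y, hy⟩ hc.directedOn).1 hx
      exact le_sSup hI ((hcs hI).1.left a x hxI)
    · intro a x hx
      obtain ⟨I, hI, hxI⟩ := (Submodule.mem_sSup_of_directed ⟨y, hy⟩ hc.directedOn).1 hx
      exact le_sSup hI ((hcs hI).1.right a x hxI)
    · intro i hi
      obtain ⟨I, hI, hxI⟩ := (Submodule.mem_sSup_of_directed ⟨y, hy⟩ hc.directedOn).1 hi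
      exact (hcs hI).2 i hxI) ⊥ (by
    refine ⟨⟨fun a x hx => ?_, fun a x hx => ?_⟩, fun i => by simpa using sne i⟩
    · rw [Submodule.mem_bot] at hx ⊢; rw [hx, mul_zero]
    · rw [Submodule.mem_bot] at hx ⊢; rw [hx, zero_mul])
  obtain ⟨⟨hP, hsP⟩, hmax⟩ := hmax
  refine ⟨P, hP, hsP 0, fun a b hab => ?_⟩
  by_contra hcon
  push Not at hcon
  obtain ⟨haP, hbP⟩ := hcon
  have key : ∀ c, c ∉ P → ∃ i, s i ∈ P ⊔ ⊤ * Submodule.span ℚ {c} * ⊤ := by
    intro c hc
    by_contra hcon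
    push Not at hcon
    have := hmax ⟨isTS_sup_top_mul hP c, hcon⟩ le_sup_left
    exact hc (this (Submodule.mem_sup_right (mem_top_mul_span c)))
  obtain ⟨i, hi⟩ := key a haP
  obtain ⟨j, hj⟩ := key b hbP
  have hi' := smem _ (isTS_sup_top_mul hP a) i (max i j) (le_max_left _ _) hi
  have hj' := smem _ (isTS_sup_top_mul hP b) j (max i j) (le_max_right _ _) hj
  apply hsP (max i j + 1)
  rw [s1]
  have h1 : (P ⊔ ⊤ * Submodule.span ℚ {a} * ⊤) * ⊤ * (P ⊔ ⊤ * Submodule.span ℚ {b} * ⊤) ≤ P := by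
    have hl : ∀ A : Submodule ℚ R, A * P ≤ P := fun A =>
      Submodule.mul_le.2 fun x _ y hy => hP.left _ _ hy
    have hr : ∀ A : Submodule ℚ R, P * A ≤ P := fun A =>
      Submodule.mul_le.2 fun x hx y _ => hP.right _ _ hx
    rw [Submodule.sup_mul, Submodule.sup_mul, Submodule.mul_sup, Submodule.mul_sup]
    refine sup_le (sup_le (hl _) ?_) (sup_le (hl _) ?_)
    · rw [mul_assoc]
      exact hr _
    · have h2 : Submodule.span ℚ {a} * ⊤ * Submodule.span ℚ {b} ≤ P := by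
        rw [Submodule.mul_le]
        intro x hx y hy
        obtain ⟨r, -, rfl⟩ := Submodule.mem_span_singleton_mul.1 hx
        obtain ⟨c, rfl⟩ := Submodule.mem_span_singleton.1 hy
        rw [mul_smul_comm]
        exact Submodule.smul_mem _ _ (hab r)
      calc (⊤ : Submodule ℚ R) * Submodule.span ℚ {a} * ⊤ * ⊤ * (⊤ * Submodule.span ℚ {b} * ⊤)
          = ⊤ * (Submodule.span ℚ {a} * (⊤ * ⊤ * ⊤) * Submodule.span ℚ {b}) * ⊤ := by
            simp only [mul_assoc]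
        _ ≤ ⊤ * (Submodule.span ℚ {a} * ⊤ * Submodule.span ℚ {b}) * ⊤ :=
            mul_le_mul' (mul_le_mul' le_rfl (mul_le_mul' (mul_le_mul' le_rfl le_top) le_rfl)) le_rfl
        _ ≤ ⊤ * P * ⊤ := mul_le_mul' (mul_le_mul' le_rfl h2) le_rfl
        _ ≤ P := (mul_le_mul' (hl _) le_rfl).trans (hr _)
  exact h1 (Submodule.mul_mem_mul (Submodule.mul_mem_mul hi' Submodule.mem_top) hj')

/-- If `z ^ (N + 2) = 0` on `L ≠ 0`, the algebra generated by `L` is not semiprime. -/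
theorem exists_not_semiprime {N K : ℕ} (hK : NilBound N K) (hL : LieClosed L)
    (hnil : ∀ z ∈ L, z ^ (N + 2) = 0) (hgen : Algebra.adjoin ℚ (L : Set R) = ⊤) (hne : ¬ L ≤ ⊥) :
    ∃ m : R, m ≠ 0 ∧ ∀ r, m * r * m = 0 := by
  by_contra hcon
  push Not at hcon
  obtain ⟨z, hzL, hz⟩ := (Submodule.ne_bot_iff _).1 (fun h => hne h.le)
  obtain ⟨P, hP, hzP, hprime⟩ := exists_prime z hz hcon
  obtain ⟨Q, _, _, π, hsurj, hker⟩ := exists_quot P hP
  have hnt : Nontrivial Q := by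
    refine ⟨π z, 0, fun h => hzP ((hker z).1 h)⟩
  have h1 : L.map π.toLinearMap ≤ ⊥ := by
    refine eq_bot_of_prime (L := L.map π.toLinearMap) hK ?_ ?_ ?_ ?_
    · rintro _ ⟨x, hx, rfl⟩ _ ⟨y, hy, rfl⟩
      exact ⟨x * y - y * x, hL x hx y hy, by simp⟩
    · rintro _ ⟨x, hx, rfl⟩
      simp only [AlgHom.toLinearMap_apply]
      rw [← map_pow, hnil x hx, map_zero]
    · have : ((L.map π.toLinearMap : Submodule ℚ Q) : Set Q) = π '' (L : Set R) := by
        ext x; simp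
      rw [this, Algebra.adjoin_image ℚ π (L : Set R), hgen, Algebra.map_top,
        (AlgHom.range_eq_top π).2 hsurj]
    · intro a b hab
      obtain ⟨a, rfl⟩ := hsurj a
      obtain ⟨b, rfl⟩ := hsurj b
      rw [hker, hker]
      refine hprime a b fun r => ?_
      rw [← hker, map_mul, map_mul]
      exact hab _
  apply hzP
  rw [← hker]
  exact h1 ⟨z, hzL, rfl⟩

end Pool.Agent.H75.Zel
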