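import Mathlib

/-!
# Step 5: a vector of a representation of a big symmetric group is not killed by all symmetrisers and
antisymmetrisers of a given size
-/

set_option autoImplicit false

open Finset

namespace Pool.Agent.H75.Zel

variable {ι : Type*} [Fintype ι] [DecidableEq ι]

/-- Permutations supported in `A`. -/
def PA (A : Finset ι) : Finset (Equiv.Perm ι) := univ.filter fun σ => ∀ x, x ∉ A → σ x = x

theorem mem_PA {A : Finset ι} {σ : Equiv.Perm ι} : σ ∈ PA A ↔ ∀ x, x ∉ A → σ x = x := by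
  simp [PA]

theorem PA_mono {A B : Finset ι} (h : A ⊆ B) {σ : Equiv.Perm ι} (hσ : σ ∈ PA A) : σ ∈ PA B :=
  mem_PA.2 fun x hx => mem_PA.1 hσ x fun hxA => hx (h hxA)

theorem one_mem_PA (A : Finset ι) : (1 : Equiv.Perm ι) ∈ PA A := mem_PA.2 fun _ _ => rfl

theorem mul_mem_PA {A : Finset ι} {σ τ : Equiv.Perm ι} (hσ : σ ∈ PA A) (hτ : τ ∈ PA A) :
    σ * τ ∈ PA A :=
  mem_PA.2 fun x hx => by rw [Equiv.Perm.mul_apply, mem_PA.1 hτ x hx, mem_PA.1 hσ x hx]

theorem inv_mem_PA {A : Finset ι} {σ : Equiv.Perm ι} (hσ : σ ∈ PA A) : σ⁻¹ ∈ PA A :=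
  mem_PA.2 fun x hx => by rw [Equiv.Perm.inv_eq_iff_eq, mem_PA.1 hσ x hx]

theorem apply_mem_of_PA {A : Finset ι} {σ : Equiv.Perm ι} (hσ : σ ∈ PA A) {x : ι} :
    σ x ∈ A ↔ x ∈ A := by
  have h1 : ∀ {σ : Equiv.Perm ι}, σ ∈ PA A → ∀ x, x ∈ A → σ x ∈ A := by
    intro σ hσ x hx
    by_contra h
    have h2 := mem_PA.1 hσ (σ x) h
    exact h ((σ.injective h2).symm ▸ hx)
  refine ⟨fun h => ?_, h1 hσ x⟩
  have := h1 (inv_mem_PA hσ) _ h
  simpa using this

variable {V : Type*} [AddCommGroup V] [Module ℚ V] (ρ : Equiv.Perm ι →* Module.End ℚ V)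

/-- Symmetriser or antisymmetriser. -/
def eps (χ : Equiv.Perm ι →* ℤˣ) (A : Finset ι) : Module.End ℚ V := ∑ σ ∈ PA A, χ σ • ρ σ

theorem eps_apply (χ : Equiv.Perm ι →* ℤˣ) (A : Finset ι) (v : V) :
    eps ρ χ A v = ∑ σ ∈ PA A, χ σ • ρ σ v := by
  rw [eps, LinearMap.sum_apply]
  rfl

theorem PA_empty : PA (∅ : Finset ι) = {1} := by
  ext σ
  rw [mem_PA, Finset.mem_singleton]
  constructor
  · intro h
    ext x
    exact h x (Finset.notMem_empty x)
  · rintro rfl _ _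
    rfl

theorem eps_empty (χ : Equiv.Perm ι →* ℤˣ) : eps ρ χ ∅ = 1 := by
  rw [eps, PA_empty, Finset.sum_singleton, map_one, map_one, one_smul]

theorem swap_apply_mul_mem {A : Finset ι} {b : ι} {σ : Equiv.Perm ι} (hσ : σ ∈ PA (insert b A)) :
    Equiv.swap (σ b) b * σ ∈ PA A := by
  rw [mem_PA]
  intro x hx
  rw [Equiv.Perm.mul_apply]
  by_cases hxb : x = b
  · subst hxb
    rw [Equiv.swap_apply_left]
  · have hx' : x ∉ insert b A := by simp [hxb, hx]
    rw [mem_PA.1 hσ x hx', Equiv.swap_apply_of_ne_of_ne _ hxb]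
    rintro rfl
    exact hx' ((apply_mem_of_PA hσ).2 (Finset.mem_insert_self _ _))

theorem swap_mul_mem {A : Finset ι} {a b : ι} (ha : a ∈ insert b A) {τ : Equiv.Perm ι}
    (hτ : τ ∈ PA A) : Equiv.swap a b * τ ∈ PA (insert b A) := by
  refine mul_mem_PA (mem_PA.2 fun x hx => ?_) (PA_mono (Finset.subset_insert _ _) hτ)
  rw [Equiv.swap_apply_of_ne_of_ne]
  · rintro rfl; exact hx ha
  · rintro rfl; exact hx (Finset.mem_insert_self _ _)

theorem mul_swap_mem {A : Finset ι} {a b : ι} (ha : a ∈ insert b A) {τ : Equiv.Perm ι}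
    (hτ : τ ∈ PA A) : τ * Equiv.swap a b ∈ PA (insert b A) := by
  refine mul_mem_PA (PA_mono (Finset.subset_insert _ _) hτ) (mem_PA.2 fun x hx => ?_)
  rw [Equiv.swap_apply_of_ne_of_ne]
  · rintro rfl; exact hx ha
  · rintro rfl; exact hx (Finset.mem_insert_self _ _)

theorem eps_insert (χ : Equiv.Perm ι →* ℤˣ) {A : Finset ι} {b : ι} (hb : b ∉ A) (v : V) :
    eps ρ χ (insert b A) v = ∑ a ∈ insert b A, χ (Equiv.swap a b) • ρ (Equiv.swap a b) (eps ρ χ A v) := by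
  have h1 : ∀ a, χ (Equiv.swap a b) • ρ (Equiv.swap a b) (eps ρ χ A v) =
      ∑ τ ∈ PA A, χ (Equiv.swap a b * τ) • ρ (Equiv.swap a b * τ) v := by
    intro a
    rw [eps_apply, map_sum, Finset.smul_sum]
    refine Finset.sum_congr rfl fun τ _ => ?_
    rw [map_zsmul_unit, smul_smul, map_mul, map_mul, Module.End.mul_apply]
  simp_rw [h1]
  rw [eps_apply, ← Finset.sum_product']
  symm
  refine Finset.sum_nbij' (fun p => Equiv.swap p.1 b * p.2)
    (fun σ => (σ b, Equiv.swap (σ b) b * σ)) ?_ ?_ ?_ ?_ ?_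
  · rintro ⟨a, τ⟩ h
    rw [Finset.mem_product] at h
    exact swap_mul_mem h.1 h.2
  · intro σ hσ
    rw [Finset.mem_product]
    exact ⟨(apply_mem_of_PA hσ).2 (Finset.mem_insert_self _ _), swap_apply_mul_mem hσ⟩
  · rintro ⟨a, τ⟩ h
    rw [Finset.mem_product] at h
    have h2 : (Equiv.swap a b * τ) b = a := by
      rw [Equiv.Perm.mul_apply, mem_PA.1 h.2 b hb, Equiv.swap_apply_right]
    simp only [h2, ← mul_assoc, Equiv.swap_mul_self, one_mul]
  · intro σ _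
    simp only [← mul_assoc, Equiv.swap_mul_self, one_mul]
  · rintro ⟨a, τ⟩ _
    rfl

theorem eps_insert' (χ : Equiv.Perm ι →* ℤˣ) {A : Finset ι} {b : ι} (hb : b ∉ A) (v : V) :
    eps ρ χ (insert b A) v = eps ρ χ A (∑ a ∈ insert b A, χ (Equiv.swap a b) • ρ (Equiv.swap a b) v) := by
  have h1 : eps ρ χ A (∑ a ∈ insert b A, χ (Equiv.swap a b) • ρ (Equiv.swap a b) v) =
      ∑ τ ∈ PA A, ∑ a ∈ insert b A, χ (τ * Equiv.swap a b) • ρ (τ * Equiv.swap a b) v := by
    rw [eps_apply]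
    refine Finset.sum_congr rfl fun τ _ => ?_
    rw [map_sum, Finset.smul_sum]
    refine Finset.sum_congr rfl fun a _ => ?_
    rw [map_zsmul_unit, smul_smul, map_mul, map_mul, Module.End.mul_apply]
  rw [h1, eps_apply, ← Finset.sum_product']
  symm
  refine Finset.sum_nbij' (fun p => p.1 * Equiv.swap p.2 b)
    (fun σ => (σ * Equiv.swap (σ⁻¹ b) b, σ⁻¹ b)) ?_ ?_ ?_ ?_ ?_
  · rintro ⟨τ, a⟩ h
    rw [Finset.mem_product] at h
    exact mul_swap_mem h.2 h.1
  · intro σ hσ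
    rw [Finset.mem_product]
    refine ⟨?_, (apply_mem_of_PA (inv_mem_PA hσ)).2 (Finset.mem_insert_self _ _)⟩
    have := inv_mem_PA (swap_apply_mul_mem (inv_mem_PA hσ))
    rw [mul_inv_rev, inv_inv, Equiv.swap_inv] at this
    exact this
  · rintro ⟨τ, a⟩ h
    rw [Finset.mem_product] at h
    have h3 : τ⁻¹ b = b := mem_PA.1 (inv_mem_PA h.1) b hb
    have h2 : (τ * Equiv.swap a b)⁻¹ b = a := by
      rw [mul_inv_rev, Equiv.Perm.mul_apply, h3, Equiv.swap_inv, Equiv.swap_apply_right]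
    simp only [h2, mul_assoc, Equiv.swap_mul_self, mul_one]
  · intro σ _
    simp only [mul_assoc, Equiv.swap_mul_self, mul_one]
  · rintro ⟨a, τ⟩ _
    rfl

/-- Conjugation. -/
theorem eps_conj (χ : Equiv.Perm ι →* ℤˣ) (A : Finset ι) (τ : Equiv.Perm ι) (v : V) :
    eps ρ χ A (ρ τ v) = ρ τ (eps ρ χ (A.map (τ⁻¹ : Equiv.Perm ι).toEmbedding) v) := by
  rw [eps_apply, eps_apply, map_sum]
  refine Finset.sum_nbij' (fun σ => τ⁻¹ * σ * τ) (fun σ => τ * σ * τ⁻¹) ?_ ?_ ?_ ?_ ?_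
  · intro σ hσ
    rw [mem_PA] at *
    intro x hx
    have : τ x ∉ A := by
      intro h
      apply hx
      rw [Finset.mem_map]
      exact ⟨τ x, h, by simp⟩
    rw [Equiv.Perm.mul_apply, Equiv.Perm.mul_apply, hσ _ this]
    simp
  · intro σ hσ
    rw [mem_PA] at *
    intro x hx
    have : τ⁻¹ x ∉ A.map (τ⁻¹ : Equiv.Perm ι).toEmbedding := by
      intro h
      rw [Finset.mem_map] at h
      obtain ⟨y, hy, hyx⟩ := h
      have : y = x := (τ⁻¹ : Equiv.Perm ι).injective hyx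
      exact hx (this ▸ hy)
    rw [Equiv.Perm.mul_apply, Equiv.Perm.mul_apply, hσ _ this]
    simp
  · intro σ _; group
  · intro σ _; group
  · intro σ _
    rw [map_zsmul_unit, ← Module.End.mul_apply, ← Module.End.mul_apply, ← map_mul, ← map_mul]
    have h1 : τ * (τ⁻¹ * σ * τ) = σ * τ := by group
    rw [h1]
    have h2 : χ (τ⁻¹ * σ * τ) = χ σ := by
      rw [map_mul, map_mul, map_inv, mul_comm, ← mul_assoc, mul_inv_cancel, one_mul]
    rw [h2]

/-- The linear conditions in the greedy construction. -/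
def Lin (A₀ : Finset ι) : List (Finset ι) → V → Prop
  | [], _ => True
  | A :: rest, u => (∀ b ∈ A₀, b ∉ A → (∀ B ∈ rest, b ∉ B) →
      u + ∑ a ∈ A, ρ (Equiv.swap a b) u = 0) ∧ Lin A₀ rest u

/-- The combinatorial conditions in the greedy construction. -/
def Str (A₀ : Finset ι) : List (Finset ι) → Prop
  | [] => True
  | A :: rest => A ⊆ A₀ ∧ A.Nonempty ∧ (∀ B ∈ rest, Disjoint A B) ∧ Str A₀ rest

theorem lin_add {A₀ : Finset ι} : ∀ (bs : List (Finset ι)) (u v : V), Lin ρ A₀ bs u → Lin ρ A₀ bs v →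
    Lin ρ A₀ bs (u + v)
  | [], _, _, _, _ => trivial
  | A :: rest, u, v, hu, hv => by
    refine ⟨fun b hb hbA hbr => ?_, lin_add rest u v hu.2 hv.2⟩
    have h1 := hu.1 b hb hbA hbr
    have h2 := hv.1 b hb hbA hbr
    simp only [map_add, Finset.sum_add_distrib]
    have : u + v + (∑ a ∈ A, ρ (Equiv.swap a b) u + ∑ a ∈ A, ρ (Equiv.swap a b) v) =
        (u + ∑ a ∈ A, ρ (Equiv.swap a b) u) + (v + ∑ a ∈ A, ρ (Equiv.swap a b) v) := by abel
    rw [this, h1, h2, add_zero]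

theorem lin_zero {A₀ : Finset ι} : ∀ (bs : List (Finset ι)), Lin ρ A₀ bs 0
  | [] => trivial
  | A :: rest => ⟨fun b _ _ _ => by simp, lin_zero rest⟩

theorem lin_sum {A₀ : Finset ι} (bs : List (Finset ι)) {κ : Type*} (s : Finset κ) (f : κ → V)
    (h : ∀ i ∈ s, Lin ρ A₀ bs (f i)) : Lin ρ A₀ bs (∑ i ∈ s, f i) := by
  classical
  induction s using Finset.induction_on with
  | empty => rw [Finset.sum_empty]; exact lin_zero ρ bs
  | insert i s hi ih =>
    rw [Finset.sum_insert hi]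
    exact lin_add ρ bs _ _ (h i (Finset.mem_insert_self _ _))
      (ih fun j hj => h j (Finset.mem_insert_of_mem hj))

theorem lin_perm {A₀ A : Finset ι} (hA : A ⊆ A₀) {τ : Equiv.Perm ι} (hτ : τ ∈ PA A) :
    ∀ (bs : List (Finset ι)) (u : V), (∀ B ∈ bs, Disjoint A B) → Lin ρ A₀ bs u →
      Lin ρ A₀ bs (ρ τ u)
  | [], _, _, _ => trivial
  | A' :: rest, u, hd, hu => by
    refine ⟨fun b hb hbA hbr => ?_, lin_perm hA hτ rest u
      (fun B hB => hd B (List.mem_cons_of_mem _ hB)) hu.2⟩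
    have hτ' := inv_mem_PA hτ
    -- `τ⁻¹ b` is again outside
    have hout : ∀ B : Finset ι, Disjoint A B → b ∉ B → τ⁻¹ b ∉ B := by
      intro B hdB hbB h
      by_cases hbA' : b ∈ A
      · exact Finset.disjoint_left.1 hdB ((apply_mem_of_PA hτ').2 hbA') h
      · rw [mem_PA.1 hτ' b hbA'] at h
        exact hbB h
    have hb' : τ⁻¹ b ∈ A₀ := (apply_mem_of_PA (PA_mono hA hτ')).2 hb
    have h1 := hu.1 (τ⁻¹ b) hb' (hout A' (hd A' List.mem_cons_self) hbA)
      fun B hB => hout B (hd B (List.mem_cons_of_mem _ hB)) (hbr B hB)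
    have h2 : ∀ a ∈ A', ρ (Equiv.swap a b) (ρ τ u) = ρ τ (ρ (Equiv.swap a (τ⁻¹ b)) u) := by
      intro a ha
      rw [← Module.End.mul_apply, ← Module.End.mul_apply, ← map_mul, ← map_mul]
      have haA : a ∉ A := fun h => Finset.disjoint_left.1 (hd A' List.mem_cons_self) h ha
      have h3 : τ a = a := mem_PA.1 hτ a haA
      have h4 : Equiv.swap a b * τ = τ * Equiv.swap a (τ⁻¹ b) := by
        have := Equiv.swap_mul_eq_mul_swap τ a b
        rw [this]
        have h5 : τ⁻¹ a = a := mem_PA.1 hτ' a haA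
        rw [h5]
      rw [h4]
    rw [Finset.sum_congr rfl h2, ← map_sum, ← map_add, h1, map_zero]

end Pool.Agent.H75.Zel
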