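import Pool.Agent.H75.Zel.Semiprime

/-!
# Step 3: T-ideals
-/

set_option autoImplicit false

open Finset

namespace Pool.Agent.H75.Zel

/-- The free algebra. -/
abbrev U : Type := FreeAlgebra ℚ ℕ

/-- The free generators. -/
noncomputable def X (i : ℕ) : U := FreeAlgebra.ι ℚ i

/-- The smallest commutator-closed subspace of the free algebra containing the generators. -/
noncomputable def FL : Submodule ℚ U := sInf {V | (∀ i, X i ∈ V) ∧ LieClosed V}

theorem X_mem (i : ℕ) : X i ∈ FL := by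
  rw [FL, Submodule.mem_sInf]
  exact fun V hV => hV.1 i

theorem lieClosed_FL : LieClosed FL := by
  intro x hx y hy
  rw [FL, Submodule.mem_sInf] at *
  exact fun V hV => hV.2 x (hx V hV) y (hy V hV)

theorem map_mem_of_FL {R : Type*} [Ring R] [Algebra ℚ R] {L : Submodule ℚ R} (hL : LieClosed L)
    (φ : U →ₐ[ℚ] R) (h : ∀ i, φ (X i) ∈ L) (u : U) (hu : u ∈ FL) : φ u ∈ L := by
  rw [FL, Submodule.mem_sInf] at hu
  have := hu (L.comap φ.toLinearMap) ⟨fun i => h i, fun x hx y hy => by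
    simp only [Submodule.mem_comap, AlgHom.toLinearMap_apply, map_sub, map_mul] at *
    exact hL _ hx _ hy⟩
  exact this

/-- T-ideals. -/
structure IsT (I : Submodule ℚ U) : Prop extends IsTS I where
  subst : ∀ φ : U →ₐ[ℚ] U, (∀ i, φ (X i) ∈ FL) → ∀ x ∈ I, φ x ∈ I

/-- The monomial `x_0 x_1 ... x_{f-1}`. -/
noncomputable def w (f : ℕ) : U := (List.ofFn (fun i : Fin f => X i)).prod

/-- The T-ideal of all identities of all pairs `(R, L)` with `z ^ (N + 1) = 0` on `L`. -/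
def T0 (N : ℕ) : Submodule ℚ U where
  carrier := {u | ∀ (R : Type) [Ring R] [Algebra ℚ R] (L : Submodule ℚ R), LieClosed L →
    (∀ z ∈ L, z ^ (N + 1) = 0) → ∀ φ : U →ₐ[ℚ] R, (∀ i, φ (X i) ∈ L) → φ u = 0}
  add_mem' := by
    intro a b ha hb R _ _ L hL hn φ hφ
    rw [map_add, ha R L hL hn φ hφ, hb R L hL hn φ hφ, add_zero]
  zero_mem' := by
    intro R _ _ L hL hn φ hφ
    exact map_zero _
  smul_mem' := by
    intro c a ha R _ _ L hL hn φ hφ
    rw [map_smul, ha R L hL hn φ hφ, smul_zero]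

theorem isT_T0 (N : ℕ) : IsT (T0 N) where
  left := by
    intro a x hx R _ _ L hL hn φ hφ
    rw [map_mul, hx R L hL hn φ hφ, mul_zero]
  right := by
    intro a x hx R _ _ L hL hn φ hφ
    rw [map_mul, hx R L hL hn φ hφ, zero_mul]
  subst := by
    intro ψ hψ x hx R _ _ L hL hn φ hφ
    exact hx R L hL hn (φ.comp ψ) fun i => map_mem_of_FL hL φ hφ _ (hψ i)

theorem pow_mem_T0 (N : ℕ) (z : U) (hz : z ∈ FL) : z ^ (N + 1) ∈ T0 N := by
  intro R _ _ L hL hn φ hφ
  rw [map_pow]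
  exact hn _ (map_mem_of_FL hL φ hφ z hz)

theorem nilBound_of_w_mem {N f : ℕ} (h : w f ∈ T0 N) : NilBound N f := by
  intro R _ _ L hL hn
  rw [pow_le_iff]
  intro x hx
  rw [Submodule.mem_bot]
  let y : ℕ → R := fun i => if h : i < f then x ⟨i, h⟩ else 0
  let φ : U →ₐ[ℚ] R := FreeAlgebra.lift ℚ y
  have hφ : ∀ i, φ (X i) = y i := fun i => FreeAlgebra.lift_ι_apply _ _
  have h1 := h R L hL hn φ (fun i => by
    rw [hφ]
    simp only [y]
    split_ifs with h2
    · exact hx _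
    · exact zero_mem _)
  rw [w, map_list_prod, List.map_ofFn] at h1
  rw [← h1]
  congr 2
  funext i
  simp [hφ, y]

theorem exists_max {N : ℕ} (hfail : ∀ f, ¬ NilBound N f) :
    ∃ I : Submodule ℚ U, IsT I ∧ (∀ z ∈ FL, z ^ (N + 1) ∈ I) ∧ (∀ f, w f ∉ I) ∧
      ∀ J : Submodule ℚ U, IsT J → I ≤ J → (∀ f, w f ∉ J) → J ≤ I := by
  obtain ⟨I, hI0, hmax⟩ := zorn_le_nonempty₀
    {I : Submodule ℚ U | IsT I ∧ (∀ z ∈ FL, z ^ (N + 1) ∈ I) ∧ ∀ f, w f ∉ I} (by
    intro c hcs hc y hy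
    refine ⟨sSup c, ⟨⟨⟨?_, ?_⟩, ?_⟩, ?_, ?_⟩, fun z hz => le_sSup hz⟩
    · intro a x hx
      obtain ⟨I, hI, hxI⟩ := (Submodule.mem_sSup_of_directed ⟨y, hy⟩ hc.directedOn).1 hx
      exact le_sSup hI ((hcs hI).1.left a x hxI)
    · intro a x hx
      obtain ⟨I, hI, hxI⟩ := (Submodule.mem_sSup_of_directed ⟨y, hy⟩ hc.directedOn).1 hx
      exact le_sSup hI ((hcs hI).1.right a x hxI)
    · intro φ hφ x hx
      obtain ⟨I, hI, hxI⟩ := (Submodule.mem_sSup_of_directed ⟨y, hy⟩ hc.directedOn).1 hx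
      exact le_sSup hI ((hcs hI).1.subst φ hφ x hxI)
    · intro z hz
      exact le_sSup hy ((hcs hy).2.1 z hz)
    · intro i hi
      obtain ⟨I, hI, hxI⟩ := (Submodule.mem_sSup_of_directed ⟨y, hy⟩ hc.directedOn).1 hi
      exact (hcs hI).2.2 i hxI) (T0 N)
    ⟨isT_T0 N, pow_mem_T0 N, fun f hf => hfail f (nilBound_of_w_mem hf)⟩
  exact ⟨I, hmax.1.1, hmax.1.2.1, hmax.1.2.2, fun J hJ hIJ hwJ =>
    hmax.2 ⟨hJ, fun z hz => hIJ (hmax.1.2.1 z hz), hwJ⟩ hIJ⟩

section Ideal
variable {R : Type} [Ring R] [Algebra ℚ R]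

/-- The ideal generated by an element. -/
def idl (u : R) : Submodule ℚ R := ⊤ * Submodule.span ℚ {u} * ⊤

theorem top_mul_idl_le (A : Submodule ℚ R) (u : R) : A * idl u ≤ idl u := by
  rw [idl, ← mul_assoc, ← mul_assoc]
  exact mul_le_mul' (mul_le_mul' le_top le_rfl) le_rfl

theorem idl_mul_top_le (A : Submodule ℚ R) (u : R) : idl u * A ≤ idl u := by
  rw [idl, mul_assoc]
  exact mul_le_mul' le_rfl le_top

theorem mem_idl (u : R) : u ∈ idl u := mem_top_mul_span u

theorem idl_le_of_mem {u v : R} (h : u ∈ idl v) : idl u ≤ idl v := by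
  have h1 : Submodule.span ℚ {u} ≤ idl v := by
    rw [Submodule.span_le, Set.singleton_subset_iff]
    exact h
  calc idl u ≤ ⊤ * idl v * ⊤ := mul_le_mul' (mul_le_mul' le_rfl h1) le_rfl
    _ ≤ idl v := (mul_le_mul' (top_mul_idl_le _ _) le_rfl).trans (idl_mul_top_le _ _)

theorem sup_pow_le {A B : Submodule ℚ R} (hA : ⊤ * A ≤ A) (hA' : A * ⊤ ≤ A) (hB : ⊤ * B ≤ B)
    (hB' : B * ⊤ ≤ B) : ∀ i j : ℕ, (A ⊔ B) ^ (i + j + 1) ≤ A ^ (i + 1) ⊔ B ^ (j + 1) := by
  have lA : ∀ (C : Submodule ℚ R) j, C * A ^ (j + 1) ≤ A ^ (j + 1) := fun C j => by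
    rw [pow_succ', ← mul_assoc]; exact mul_le_mul' ((mul_le_mul' le_top le_rfl).trans hA) le_rfl
  have lB : ∀ (C : Submodule ℚ R) j, C * B ^ (j + 1) ≤ B ^ (j + 1) := fun C j => by
    rw [pow_succ', ← mul_assoc]; exact mul_le_mul' ((mul_le_mul' le_top le_rfl).trans hB) le_rfl
  have rA : ∀ (C : Submodule ℚ R), A * C ≤ A := fun C => (mul_le_mul' le_rfl le_top).trans hA'
  have rB : ∀ (C : Submodule ℚ R), B * C ≤ B := fun C => (mul_le_mul' le_rfl le_top).trans hB'
  intro i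
  induction i with
  | zero =>
    intro j
    induction j with
    | zero => simp
    | succ j ih =>
      have e : 0 + (j + 1) + 1 = (0 + j + 1) + 1 := by ring
      rw [e, pow_succ', Submodule.sup_mul]
      refine sup_le ((rA _).trans (le_trans (by simp) le_sup_left)) ?_
      refine (mul_le_mul' le_rfl ih).trans ?_
      rw [Submodule.mul_sup]
      refine sup_le ((lA _ _).trans le_sup_left) ?_
      rw [← pow_succ']
      exact le_sup_right
  | succ i ihi =>
    intro j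
    induction j with
    | zero =>
      have e : i + 1 + 0 + 1 = (i + 0 + 1) + 1 := by ring
      rw [e, pow_succ', Submodule.sup_mul]
      refine sup_le ?_ ((rB _).trans (le_trans (by simp) le_sup_right))
      refine (mul_le_mul' le_rfl (ihi 0)).trans ?_
      rw [Submodule.mul_sup, ← pow_succ']
      exact sup_le le_sup_left ((lB _ _).trans le_sup_right)
    | succ j ihj =>
      have e : i + 1 + (j + 1) + 1 = (i + 1 + j + 1) + 1 := by ring
      have e' : i + (j + 1) + 1 = i + 1 + j + 1 := by ring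
      have h1 := ihi (j + 1)
      rw [e'] at h1
      rw [e, pow_succ', Submodule.sup_mul]
      refine sup_le ((mul_le_mul' le_rfl h1).trans ?_) ((mul_le_mul' le_rfl ihj).trans ?_)
      · rw [Submodule.mul_sup, ← pow_succ']
        exact sup_le le_sup_left ((lB _ _).trans le_sup_right)
      · rw [Submodule.mul_sup, ← pow_succ']
        exact sup_le ((lA _ _).trans le_sup_left) le_sup_right

theorem idl_eq_span (v : R) :
    idl v = Submodule.span ℚ (Set.range fun p : R × R => p.1 * v * p.2) := by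
  apply le_antisymm
  · rw [idl, Submodule.mul_le]
    intro x hx b _
    obtain ⟨a, -, rfl⟩ := Submodule.mem_mul_span_singleton.1 hx
    exact Submodule.subset_span ⟨(a, b), rfl⟩
  · rw [Submodule.span_le]
    rintro _ ⟨⟨a, b⟩, rfl⟩
    exact Submodule.mul_mem_mul (Submodule.mul_mem_mul Submodule.mem_top
      (Submodule.mem_span_singleton_self v)) Submodule.mem_top

theorem idl_pow_le_iff {v : R} {e : ℕ} {I : Submodule ℚ R} : idl v ^ e ≤ I ↔
    ∀ a b : Fin e → R, (List.ofFn fun k => a k * v * b k).prod ∈ I := by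
  rw [idl_eq_span, Submodule.span_pow, Submodule.span_le]
  constructor
  · intro h a b
    exact h (Set.mem_pow.2 ⟨fun k => ⟨_, ⟨(a k, b k), rfl⟩⟩, rfl⟩)
  · intro h x hx
    obtain ⟨f, rfl⟩ := Set.mem_pow.1 hx
    choose p hp using fun k => (f k).2
    have h1 := h (fun k => (p k).1) fun k => (p k).2
    have h2 : (fun k => (p k).1 * v * (p k).2) = fun k => (f k : R) := funext hp
    rw [h2] at h1
    exact h1

/-- The nilpotent radical modulo a two-sided ideal: all `u` such that some power of the ideal generated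
by `u` is contained in `I`. -/
def rad (I : Submodule ℚ R) (hI : IsTS I) : Submodule ℚ R where
  carrier := {u | ∃ e, idl u ^ e ≤ I}
  zero_mem' := ⟨1, by
    rw [pow_one, idl, Submodule.span_zero_singleton, Submodule.mul_bot, Submodule.bot_mul]
    exact bot_le⟩
  add_mem' := by
    rintro a b ⟨e, he⟩ ⟨e', he'⟩
    refine ⟨e + e' + 1, ?_⟩
    have hT : ∀ C : Submodule ℚ R, C * I ≤ I := fun C =>
      Submodule.mul_le.2 fun x _ y hy => hI.left _ _ hy
    have h1 : idl (a + b) ≤ idl a ⊔ idl b := by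
      have : Submodule.span ℚ {a + b} ≤ Submodule.span ℚ {a} ⊔ Submodule.span ℚ {b} := by
        rw [Submodule.span_le, Set.singleton_subset_iff]
        exact Submodule.add_mem_sup (Submodule.mem_span_singleton_self a)
          (Submodule.mem_span_singleton_self b)
      calc idl (a + b) ≤ ⊤ * (Submodule.span ℚ {a} ⊔ Submodule.span ℚ {b}) * ⊤ :=
            mul_le_mul' (mul_le_mul' le_rfl this) le_rfl
        _ = idl a ⊔ idl b := by rw [Submodule.mul_sup, Submodule.sup_mul, idl, idl]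
    calc idl (a + b) ^ (e + e' + 1) ≤ (idl a ⊔ idl b) ^ (e + e' + 1) := pow_le_pow_left' h1 _
      _ ≤ idl a ^ (e + 1) ⊔ idl b ^ (e' + 1) :=
          sup_pow_le (top_mul_idl_le _ _) (idl_mul_top_le _ _) (top_mul_idl_le _ _)
            (idl_mul_top_le _ _) _ _
      _ ≤ I := by
          rw [pow_succ', pow_succ']
          exact sup_le ((mul_le_mul' le_rfl he).trans (hT _)) ((mul_le_mul' le_rfl he').trans (hT _))
  smul_mem' := by
    rintro c a ⟨e, he⟩
    refine ⟨e, (pow_le_pow_left' (idl_le_of_mem ?_) _).trans he⟩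
    exact Submodule.smul_mem _ c (mem_idl a)

theorem mem_rad {I : Submodule ℚ R} {hI : IsTS I} {u : R} : u ∈ rad I hI ↔ ∃ e, idl u ^ e ≤ I :=
  Iff.rfl

theorem isTS_rad (I : Submodule ℚ R) (hI : IsTS I) : IsTS (rad I hI) where
  left := by
    rintro a x ⟨e, he⟩
    exact ⟨e, (pow_le_pow_left' (idl_le_of_mem
      (top_mul_idl_le _ _ (Submodule.mul_mem_mul (Submodule.mem_top (x := a)) (mem_idl x)))) _).trans he⟩
  right := by
    rintro a x ⟨e, he⟩
    exact ⟨e, (pow_le_pow_left' (idl_le_of_mem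
      (idl_mul_top_le _ _ (Submodule.mul_mem_mul (mem_idl x) (Submodule.mem_top (x := a))))) _).trans he⟩

theorem le_rad (I : Submodule ℚ R) (hI : IsTS I) : I ≤ rad I hI := by
  intro u hu
  refine ⟨1, ?_⟩
  rw [idl_pow_le_iff]
  intro a b
  simpa using hI.right _ _ (hI.left _ _ hu)

end Ideal

theorem exists_support (u : U) : ∃ n, u ∈ Algebra.adjoin ℚ (X '' {i | i < n}) := by
  have mono : ∀ {n m : ℕ}, n ≤ m →
      Algebra.adjoin ℚ (X '' {i | i < n}) ≤ Algebra.adjoin ℚ (X '' {i | i < m}) := fun h =>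
    Algebra.adjoin_mono (Set.image_mono fun i (hi : i < _) => lt_of_lt_of_le hi h)
  induction u using FreeAlgebra.induction with
  | grade0 r => exact ⟨0, Subalgebra.algebraMap_mem _ r⟩
  | grade1 i => exact ⟨i + 1, Algebra.subset_adjoin ⟨i, Nat.lt_succ_self i, rfl⟩⟩
  | mul a b ha hb =>
    obtain ⟨n, hn⟩ := ha
    obtain ⟨m, hm⟩ := hb
    exact ⟨max n m, mul_mem (mono (le_max_left _ _) hn) (mono (le_max_right _ _) hm)⟩
  | add a b ha hb =>
    obtain ⟨n, hn⟩ := ha
    obtain ⟨m, hm⟩ := hb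
    exact ⟨max n m, add_mem (mono (le_max_left _ _) hn) (mono (le_max_right _ _) hm)⟩

/-- Uniformity: substitution does not change the exponent. -/
theorem idl_pow_subst {I : Submodule ℚ U} (hI : IsT I) {u : U} {e : ℕ} (he : idl u ^ e ≤ I)
    (φ : U →ₐ[ℚ] U) (hφ : ∀ i, φ (X i) ∈ FL) : idl (φ u) ^ e ≤ I := by
  obtain ⟨n, hn⟩ := exists_support u
  rw [idl_pow_le_iff]
  intro a b
  let σ : U →ₐ[ℚ] U := FreeAlgebra.lift ℚ fun i => X (i + n)
  let ψ : U →ₐ[ℚ] U := FreeAlgebra.lift ℚ fun i => if i < n then φ (X i) else X (i - n)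
  have hσ : ∀ i, σ (X i) = X (i + n) := fun i => FreeAlgebra.lift_ι_apply _ _
  have hψ : ∀ i, ψ (X i) = if i < n then φ (X i) else X (i - n) :=
    fun i => FreeAlgebra.lift_ι_apply _ _
  have h1 : ψ.comp σ = AlgHom.id ℚ U := by
    apply FreeAlgebra.hom_ext
    funext i
    change ψ (σ (X i)) = X i
    rw [hσ, hψ, if_neg (by omega), Nat.add_sub_cancel]
  have h1' : ∀ x, ψ (σ x) = x := fun x => DFunLike.congr_fun h1 x
  have h2 : ψ u = φ u := by
    have : Set.EqOn ψ φ (X '' {i | i < n}) := by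
      rintro _ ⟨i, hi, rfl⟩
      rw [hψ, if_pos (show i < n from hi)]
    exact AlgHom.eqOn_adjoin_iff.2 this hn
  have h3 := hI.subst ψ (fun i => by
    rw [hψ]
    split_ifs
    · exact hφ i
    · exact X_mem _) _ (idl_pow_le_iff.1 he (fun k => σ (a k)) fun k => σ (b k))
  rw [map_list_prod, List.map_ofFn] at h3
  have h4 : (⇑ψ ∘ fun k => σ (a k) * u * σ (b k)) = fun k => a k * φ u * b k := by
    funext k
    simp [h1', h2]
  rw [h4] at h3
  exact h3

theorem isT_rad (I : Submodule ℚ U) (hI : IsT I) : IsT (rad I hI.toIsTS) where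
  toIsTS := isTS_rad I hI.toIsTS
  subst := by
    rintro φ hφ x ⟨e, he⟩
    exact ⟨e, idl_pow_subst hI he φ hφ⟩

/-- Step 3. -/
theorem step_three {N K : ℕ} (hK : NilBound N K) (hfail : ∀ f, ¬ NilBound (N + 1) f) :
    ∃ (R : Type) (_ : Ring R) (_ : Algebra ℚ R) (L : Submodule ℚ R), LieClosed L ∧
      (∀ z ∈ L, z ^ (N + 2) = 0) ∧ (∀ f, ¬ L ^ f ≤ ⊥) ∧ ∃ c e : ℕ,
        ∀ x : Fin c → R, (∀ i, x i ∈ L) → ∀ r : Fin e → R,
          (List.ofFn fun k => (List.ofFn x).prod * r k).prod = 0 := by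
  obtain ⟨I, hI, hpow, hw, hmax⟩ := exists_max hfail
  obtain ⟨R, _, _, π, hsurj, hker⟩ := exists_quot I hI.toIsTS
  have hL : LieClosed (FL.map π.toLinearMap) := by
    rintro _ ⟨x, hx, rfl⟩ _ ⟨y, hy, rfl⟩
    exact ⟨x * y - y * x, lieClosed_FL x hx y hy, by simp⟩
  have hnil : ∀ z ∈ FL.map π.toLinearMap, z ^ (N + 2) = 0 := by
    rintro _ ⟨x, hx, rfl⟩
    simp only [AlgHom.toLinearMap_apply]
    rw [← map_pow, hker]
    exact hpow x hx
  have hnn : ∀ f, ¬ (FL.map π.toLinearMap) ^ f ≤ ⊥ := by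
    intro f hf
    apply hw f
    rw [← hker, w, map_list_prod, List.map_ofFn]
    exact pow_le_iff.1 hf _ fun i => ⟨X i, X_mem i, rfl⟩
  have hgen : Algebra.adjoin ℚ ((FL.map π.toLinearMap : Submodule ℚ R) : Set R) = ⊤ := by
    have h1 : ((FL.map π.toLinearMap : Submodule ℚ R) : Set R) = π '' (FL : Set U) := by
      ext x; simp
    have h2 : Algebra.adjoin ℚ (FL : Set U) = ⊤ := by
      rw [eq_top_iff, ← FreeAlgebra.adjoin_range_ι]
      apply Algebra.adjoin_mono
      rintro _ ⟨i, rfl⟩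
      exact X_mem i
    rw [h1, Algebra.adjoin_image ℚ π (FL : Set U), h2, Algebra.map_top,
      (AlgHom.range_eq_top π).2 hsurj]
  obtain ⟨m, hm, hm'⟩ := exists_not_semiprime hK hL hnil hgen (fun h => hnn 1 (by rwa [pow_one]))
  obtain ⟨m, rfl⟩ := hsurj m
  have h3 : m ∈ rad I hI.toIsTS := by
    refine ⟨2, ?_⟩
    rw [idl_pow_le_iff]
    intro a b
    have h4 := hm' (π (b 0 * a 1))
    rw [← map_mul, ← map_mul, hker] at h4
    have h5 := hI.right (b 1) _ (hI.left (a 0) _ h4)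
    have e1 : (List.ofFn fun k => a k * m * b k).prod = a 0 * (m * (b 0 * a 1) * m) * b 1 := by
      simp [List.ofFn_succ]
      noncomm_ring
    rw [e1]
    exact h5
  obtain ⟨c, hc⟩ : ∃ c, w c ∈ rad I hI.toIsTS := by
    by_contra hcon
    push Not at hcon
    have := hmax _ (isT_rad I hI) (le_rad I hI.toIsTS) hcon h3
    exact hm ((hker m).2 this)
  obtain ⟨e, he⟩ := hc
  refine ⟨R, _, _, FL.map π.toLinearMap, hL, hnil, hnn, c, e, fun x hx r => ?_⟩
  choose y hy hxy using hx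
  choose s hs using fun k => hsurj (r k)
  let φ : U →ₐ[ℚ] U := FreeAlgebra.lift ℚ fun i => if h : i < c then y ⟨i, h⟩ else 0
  have hφ : ∀ i, φ (X i) = if h : i < c then y ⟨i, h⟩ else 0 := fun i => FreeAlgebra.lift_ι_apply _ _
  have h6 := idl_pow_subst hI he φ (fun i => by
    rw [hφ]
    split_ifs
    · exact hy _
    · exact zero_mem _)
  have h7 : φ (w c) = (List.ofFn y).prod := by
    rw [w, map_list_prod, List.map_ofFn]
    congr 2
    funext i
    simp [hφ]
  rw [h7] at h6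
  have h8 := idl_pow_le_iff.1 h6 (fun _ => 1) s
  rw [← hker, map_list_prod, List.map_ofFn] at h8
  rw [← h8]
  congr 2
  funext k
  have h9 : (List.ofFn x).prod = π (List.ofFn y).prod := by
    rw [map_list_prod, List.map_ofFn]
    congr 2
    funext i
    exact (hxy i).symm
  simp only [Function.comp_apply, one_mul, map_mul]
  rw [h9, hs]

end Pool.Agent.H75.Zel
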