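import Pool.Agent.H75.Zel.Ann
import Pool.Agent.H75.Zel.LemmaH
import Pool.Agent.H75.Zel.Multi

/-!
# Groups of unipotent elements (step 6 (a))

If every element `x` of a subgroup of the unit group of a `ℚ`-algebra satisfies `(x - 1) ^ (k + 1) = 0`, then
all products of `f` elements `x - 1` vanish, where `f` is a bound for `NilBound k`.
-/

set_option autoImplicit false

open Finset Polynomial

namespace Pool.Agent.H75.Zel

section
variable {A : Type} [Ring A] [Algebra ℚ A]

/-- Evaluation at a natural number. -/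
noncomputable def ev (n : ℕ) : A[X] →+* A :=
  Polynomial.eval₂RingHom' (RingHom.id A) (n : A) fun a => (Nat.commute_cast a n)

theorem ev_C (n : ℕ) (a : A) : ev n (C a) = a := by
  change Polynomial.eval₂ (RingHom.id A) (n : A) (C a) = a
  rw [Polynomial.eval₂_C]
  rfl

theorem ev_eq_sum (n : ℕ) (P : A[X]) :
    ev n P = ∑ i ∈ range (P.natDegree + 1), ((n : ℚ) ^ i) • P.coeff i := by
  change Polynomial.eval₂ (RingHom.id A) (n : A) P = _
  rw [Polynomial.eval₂_eq_sum_range]
  refine Finset.sum_congr rfl fun i _ => ?_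
  rw [RingHom.id_apply, Algebra.smul_def, map_pow, map_natCast]
  exact (((Nat.cast_commute n (P.coeff i)).pow_left i).eq).symm

theorem ev_zero (P : A[X]) : ev 0 P = P.coeff 0 := by
  rw [ev_eq_sum, Finset.sum_range_succ', Nat.cast_zero, pow_zero, one_smul]
  rw [Finset.sum_eq_zero, zero_add]
  intro i _
  rw [zero_pow (Nat.succ_ne_zero i), zero_smul]

/-- If all values of a polynomial at natural numbers lie in a subspace, so do the coefficients. -/
theorem coeff_mem_of_ev_mem (P : A[X]) (W : Submodule ℚ A) (h : ∀ n : ℕ, ev n P ∈ W) (i : ℕ) :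
    P.coeff i ∈ W := by
  by_contra hi
  obtain ⟨f, hf, hWf⟩ := Submodule.exists_le_ker_of_notMem hi
  let q : ℚ[X] := ∑ j ∈ range (P.natDegree + 1), monomial j (f (P.coeff j))
  have hq : ∀ n : ℕ, q.eval (n : ℚ) = 0 := by
    intro n
    have h1 : f (ev n P) = 0 := hWf (h n)
    rw [ev_eq_sum, map_sum] at h1
    simp only [q, Polynomial.eval_finset_sum, Polynomial.eval_monomial]
    rw [← h1]
    refine Finset.sum_congr rfl fun j _ => ?_
    rw [map_smul, smul_eq_mul, mul_comm]
  have hq0 : q = 0 := by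
    apply Polynomial.eq_zero_of_infinite_isRoot
    refine Set.infinite_of_injective_forall_mem (f := fun n : ℕ => (n : ℚ)) Nat.cast_injective ?_
    intro n
    exact hq n
  by_cases hij : i ∈ range (P.natDegree + 1)
  · have h2 : q.coeff i = f (P.coeff i) := by
      simp only [q, Polynomial.finset_sum_coeff, Polynomial.coeff_monomial]
      rw [Finset.sum_ite_eq' _ _ (fun j => f (P.coeff j)), if_pos hij]
    rw [hq0, Polynomial.coeff_zero] at h2
    exact hf h2.symm
  · rw [Finset.mem_range, not_lt] at hij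
    rw [Polynomial.coeff_eq_zero_of_natDegree_lt (by omega), map_zero] at hf
    exact hf rfl

theorem eq_zero_of_ev (P : A[X]) (h : ∀ n : ℕ, ev n P = 0) : P = 0 := by
  ext i
  have := coeff_mem_of_ev_mem P ⊥ (fun n => (Submodule.mem_bot ℚ).2 (h n)) i
  simpa using this

/-- Binomial polynomials. -/
noncomputable def bin (j : ℕ) : ℚ[X] := C ((j.factorial : ℚ)⁻¹) * descPochhammer ℚ j

theorem bin_eval (j n : ℕ) : (bin j).eval (n : ℚ) = n.choose j := by
  rw [bin, Polynomial.eval_mul, Polynomial.eval_C, descPochhammer_eval_eq_descFactorial,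
    Nat.descFactorial_eq_factorial_mul_choose, Nat.cast_mul, ← mul_assoc, inv_mul_cancel₀, one_mul]
  exact Nat.cast_ne_zero.2 (Nat.factorial_ne_zero j)

theorem bin_zero : bin 0 = 1 := by simp [bin]

theorem bin_one : bin 1 = X := by simp [bin]

theorem ev_map (n : ℕ) (p : ℚ[X]) : ev n (p.map (algebraMap ℚ A)) = algebraMap ℚ A (p.eval (n : ℚ)) := by
  change Polynomial.eval₂ (RingHom.id A) (n : A) (p.map (algebraMap ℚ A)) = _
  rw [Polynomial.eval₂_map, RingHom.id_comp, Polynomial.eval₂_at_natCast]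

/-- The polynomial `(1 + a)^t` for nilpotent `a`. -/
noncomputable def pz (k : ℕ) (a : A) : A[X] :=
  ∑ j ∈ range (k + 1), C (a ^ j) * (bin j).map (algebraMap ℚ A)

theorem ev_pz {k : ℕ} {a : A} (ha : a ^ (k + 1) = 0) (n : ℕ) : ev n (pz k a) = (1 + a) ^ n := by
  rw [pz, map_sum]
  have h1 : ∀ j, ev n (C (a ^ j) * (bin j).map (algebraMap ℚ A)) = a ^ j * (n.choose j : A) := by
    intro j
    rw [map_mul, ev_C, ev_map, bin_eval, map_natCast]
  simp_rw [h1]
  rw [add_comm 1 a, (Commute.one_right a).add_pow]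
  simp only [one_pow, mul_one]
  have h2 : ∀ m, k + 1 ≤ m → a ^ m = 0 := fun m hm => pow_eq_zero_of_le hm ha
  rcases le_total (k + 1) (n + 1) with h | h
  · refine Finset.sum_subset (Finset.range_mono h) ?_
    intro m _ hm
    rw [Finset.mem_range, not_lt] at hm
    rw [h2 m hm, zero_mul]
  · symm
    refine Finset.sum_subset (Finset.range_mono h) ?_
    intro m _ hm
    rw [Finset.mem_range, not_lt] at hm
    rw [Nat.choose_eq_zero_of_lt (by omega), Nat.cast_zero, mul_zero]

/-- The logarithm, as a rational polynomial. -/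
noncomputable def lg (k : ℕ) : ℚ[X] := ∑ j ∈ range (k + 1), C ((bin j).coeff 1) * X ^ j

theorem pz_coeff_one (k : ℕ) (a : A) : (pz k a).coeff 1 = aeval a (lg k) := by
  rw [pz, lg, Polynomial.finset_sum_coeff, map_sum]
  refine Finset.sum_congr rfl fun j _ => ?_
  rw [Polynomial.coeff_C_mul, Polynomial.coeff_map, map_mul, Polynomial.aeval_C, map_pow,
    Polynomial.aeval_X]
  exact (Algebra.commutes _ _).symm

theorem exists_lg {k : ℕ} (hk : 1 ≤ k) : ∃ q : ℚ[X], lg k = X * (1 + X * q) := by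
  obtain ⟨k, rfl⟩ := Nat.exists_eq_add_of_le hk
  refine ⟨∑ j ∈ range k, C ((bin (j + 2)).coeff 1) * X ^ j, ?_⟩
  rw [lg, add_comm 1 k, Finset.sum_range_succ', Finset.sum_range_succ']
  rw [bin_zero, bin_one, Polynomial.coeff_X_one, Polynomial.coeff_one, if_neg one_ne_zero,
    map_zero, zero_mul, add_zero, map_one, one_mul, zero_add, pow_one, mul_add, mul_one, add_comm]
  congr 1
  rw [← mul_assoc, Finset.mul_sum]
  refine Finset.sum_congr rfl fun j _ => ?_
  ring

/-- Polynomial families in `Γ` with value `1` at `0`. -/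
noncomputable def fam (Γ : Subgroup Aˣ) : Subgroup (A[X])ˣ :=
  (⨅ n : ℕ, Γ.comap (Units.map (ev n : A[X] →+* A).toMonoidHom)) ⊓
    (Units.map (ev 0 : A[X] →+* A).toMonoidHom).ker

theorem mem_fam {Γ : Subgroup Aˣ} {u : (A[X])ˣ} : u ∈ fam Γ ↔
    (∀ n : ℕ, Units.map (ev n : A[X] →+* A).toMonoidHom u ∈ Γ) ∧ (u : A[X]).coeff 0 = 1 := by
  rw [fam, Subgroup.mem_inf, Subgroup.mem_iInf, MonoidHom.mem_ker]
  have h : Units.map (ev 0 : A[X] →+* A).toMonoidHom u = 1 ↔ (u : A[X]).coeff 0 = 1 := by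
    rw [Units.ext_iff, Units.coe_map, Units.val_one]
    change ev 0 (u : A[X]) = 1 ↔ _
    rw [ev_zero]
  rw [h]
  rfl

/-- Tangent vectors. -/
noncomputable def tang (Γ : Subgroup Aˣ) : AddSubgroup A where
  carrier := {a | ∃ u ∈ fam Γ, (u : A[X]).coeff 1 = a}
  zero_mem' := ⟨1, one_mem _, by simp [Polynomial.coeff_one]⟩
  add_mem' := by
    rintro _ _ ⟨u, hu, rfl⟩ ⟨v, hv, rfl⟩
    refine ⟨u * v, mul_mem hu hv, ?_⟩
    rw [Units.val_mul, Polynomial.mul_coeff_one, (mem_fam.1 hu).2, (mem_fam.1 hv).2, one_mul,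
      mul_one, add_comm]
  neg_mem' := by
    rintro _ ⟨u, hu, rfl⟩
    refine ⟨u⁻¹, inv_mem hu, ?_⟩
    have h1 : ((u : A[X]) * ((u⁻¹ : (A[X])ˣ) : A[X])).coeff 1 = 0 := by
      rw [Units.mul_inv]; simp [Polynomial.coeff_one]
    rw [Polynomial.mul_coeff_one, (mem_fam.1 hu).2, (mem_fam.1 (inv_mem hu)).2, one_mul,
      mul_one] at h1
    exact eq_neg_of_add_eq_zero_left h1

theorem exists_nsmul_mem {Γ : Subgroup Aˣ} {z : A}
    (hz : z ∈ Submodule.span ℚ (tang Γ : Set A)) : ∃ D : ℕ, D ≠ 0 ∧ D • z ∈ tang Γ := by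
  induction hz using Submodule.span_induction with
  | mem z hz => exact ⟨1, one_ne_zero, by rw [one_smul]; exact hz⟩
  | zero => exact ⟨1, one_ne_zero, by rw [smul_zero]; exact zero_mem _⟩
  | add x y _ _ hx hy =>
    obtain ⟨D, hD, hDx⟩ := hx
    obtain ⟨D', hD', hDy⟩ := hy
    refine ⟨D * D', mul_ne_zero hD hD', ?_⟩
    rw [smul_add]
    refine add_mem ?_ ?_
    · rw [mul_comm, mul_smul]; exact nsmul_mem hDx _
    · rw [mul_smul]; exact nsmul_mem hDy _
  | smul c x _ hx =>
    obtain ⟨D, hD, hDx⟩ := hx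
    refine ⟨c.den * D, mul_ne_zero c.den_nz hD, ?_⟩
    have h1 : (c.den * D) • (c • x) = c.num • (D • x) := by
      rw [← Nat.cast_smul_eq_nsmul ℚ, ← Int.cast_smul_eq_zsmul ℚ, ← Nat.cast_smul_eq_nsmul ℚ D,
        smul_smul, smul_smul]
      congr 1
      have h2 : (c.den : ℚ) * c = c.num := by rw [mul_comm]; exact Rat.mul_den_eq_num c
      calc ((c.den * D : ℕ) : ℚ) * c = ((c.den : ℚ) * c) * D := by push_cast; ring
        _ = c.num * D := by rw [h2]
    rw [h1]
    exact zsmul_mem hDx _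

variable {k : ℕ} {Γ : Subgroup Aˣ} (hΓ : ∀ x ∈ Γ, ((x : A) - 1) ^ (k + 1) = 0)
include hΓ

theorem tang_nil {z : A} (hz : z ∈ Submodule.span ℚ (tang Γ : Set A)) : z ^ (k + 1) = 0 := by
  obtain ⟨D, hD, u, hu, huz⟩ := exists_nsmul_mem hz
  have h1 : ((u : A[X]) - 1) ^ (k + 1) = 0 := by
    refine eq_zero_of_ev _ fun n => ?_
    rw [map_pow, map_sub, map_one]
    exact hΓ _ ((mem_fam.1 hu).1 n)
  have h2 : (u : A[X]) - 1 = divX (u : A[X]) * X := by
    have := Polynomial.divX_mul_X_add (u : A[X])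
    rw [(mem_fam.1 hu).2, Polynomial.C_1] at this
    nth_rewrite 1 [← this]
    rw [add_sub_cancel_right]
  rw [h2, (Polynomial.commute_X (divX (u : A[X]))).symm.mul_pow] at h1
  have h3 : (divX (u : A[X])) ^ (k + 1) = 0 := by
    ext i
    have := congrArg (fun P => Polynomial.coeff P (i + (k + 1))) h1
    simp only [Polynomial.coeff_mul_X_pow, Polynomial.coeff_zero] at this
    rw [this, Polynomial.coeff_zero]
  have h4 : (D • z) ^ (k + 1) = 0 := by
    rw [← huz]
    have := congrArg (Polynomial.constantCoeff (R := A)) h3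
    rw [map_pow, map_zero] at this
    simpa [Polynomial.constantCoeff_apply, Polynomial.coeff_divX] using this
  rw [← Nat.cast_smul_eq_nsmul ℚ, _root_.smul_pow] at h4
  exact (smul_eq_zero.1 h4).resolve_left (pow_ne_zero _ (Nat.cast_ne_zero.2 hD))

omit hΓ in
theorem conj_mem_tang {a : A} (ha : a ∈ tang Γ) (g : Aˣ) (hg : g ∈ Γ) :
    (g : A) * a * ((g⁻¹ : Aˣ) : A) ∈ tang Γ := by
  obtain ⟨u, hu, rfl⟩ := ha
  let c : (A[X])ˣ := Units.map (C : A →+* A[X]).toMonoidHom g
  refine ⟨c * u * c⁻¹, ?_, ?_⟩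
  · rw [mem_fam] at hu ⊢
    constructor
    · intro n
      have hc : Units.map (ev n : A[X] →+* A).toMonoidHom c = g := by
        ext
        change ev n (C (g : A)) = g
        rw [ev_C]
      rw [map_mul, map_mul, map_inv, hc]
      exact mul_mem (mul_mem hg (hu.1 n)) (inv_mem hg)
    · change (C (g : A) * (u : A[X]) * C ((g⁻¹ : Aˣ) : A)).coeff 0 = 1
      rw [Polynomial.coeff_mul_C, Polynomial.coeff_C_mul, hu.2, mul_one, Units.mul_inv]
  · change (C (g : A) * (u : A[X]) * C ((g⁻¹ : Aˣ) : A)).coeff 1 = _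
    rw [Polynomial.coeff_mul_C, Polynomial.coeff_C_mul]

omit hΓ in
theorem lie_mem_of_tang {a b : A} (ha : a ∈ tang Γ) (hb : b ∈ tang Γ) :
    a * b - b * a ∈ Submodule.span ℚ (tang Γ : Set A) := by
  obtain ⟨u, hu, rfl⟩ := ha
  have h1 := coeff_mem_of_ev_mem ((u : A[X]) * C b * ((u⁻¹ : (A[X])ˣ) : A[X]))
    (Submodule.span ℚ (tang Γ : Set A)) (by
      intro n
      rw [map_mul, map_mul, ev_C]
      exact Submodule.subset_span (conj_mem_tang hb (Units.map (ev n : A[X] →+* A).toMonoidHom u)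
        ((mem_fam.1 hu).1 n))) 1
  have h2 : ((u : A[X]) * ((u⁻¹ : (A[X])ˣ) : A[X])).coeff 1 = 0 := by
    rw [Units.mul_inv]; simp [Polynomial.coeff_one]
  rw [Polynomial.mul_coeff_one, (mem_fam.1 hu).2, (mem_fam.1 (inv_mem hu)).2, one_mul,
    mul_one] at h2
  have h3 := eq_neg_of_add_eq_zero_left h2
  rw [Polynomial.mul_coeff_one, Polynomial.coeff_mul_C, Polynomial.coeff_mul_C,
    (mem_fam.1 hu).2, (mem_fam.1 (inv_mem hu)).2, one_mul, mul_one, h3] at h1
  have e : b * -(u : A[X]).coeff 1 + (u : A[X]).coeff 1 * b =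
      (u : A[X]).coeff 1 * b - b * (u : A[X]).coeff 1 := by noncomm_ring
  rwa [e] at h1

omit hΓ in
theorem lieClosed_tang : LieClosed (Submodule.span ℚ (tang Γ : Set A)) := by
  intro x hx y hy
  exact bilinear_span (LinearMap.mul ℚ A - (LinearMap.mul ℚ A).flip) _ _ _
    (fun a ha b hb => lie_mem_of_tang ha hb) x hx y hy

theorem log_mem_tang (g : Aˣ) (hg : g ∈ Γ) : aeval ((g : A) - 1) (lg k) ∈ tang Γ := by
  have ha := hΓ g hg
  have hb := hΓ g⁻¹ (inv_mem hg)
  have h1 : ∀ n, ev n (pz k ((g : A) - 1)) = (g : A) ^ n := fun n => by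
    rw [ev_pz ha, add_sub_cancel]
  have h2 : ∀ n, ev n (pz k (((g⁻¹ : Aˣ) : A) - 1)) = ((g⁻¹ : Aˣ) : A) ^ n := fun n => by
    rw [ev_pz hb, add_sub_cancel]
  let u : (A[X])ˣ :=
    { val := pz k ((g : A) - 1)
      inv := pz k (((g⁻¹ : Aˣ) : A) - 1)
      val_inv := by
        rw [← sub_eq_zero]
        refine eq_zero_of_ev _ fun n => ?_
        rw [map_sub, map_mul, map_one, h1, h2, ← Units.val_pow_eq_pow_val,
          ← Units.val_pow_eq_pow_val, ← Units.val_mul, inv_pow, mul_inv_cancel, Units.val_one,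
          sub_self]
      inv_val := by
        rw [← sub_eq_zero]
        refine eq_zero_of_ev _ fun n => ?_
        rw [map_sub, map_mul, map_one, h1, h2, ← Units.val_pow_eq_pow_val,
          ← Units.val_pow_eq_pow_val, ← Units.val_mul, inv_pow, inv_mul_cancel, Units.val_one,
          sub_self] }
  refine ⟨u, mem_fam.2 ⟨fun n => ?_, ?_⟩, pz_coeff_one _ _⟩
  · have : Units.map (ev n : A[X] →+* A).toMonoidHom u = g ^ n := by
      ext
      change ev n (pz k ((g : A) - 1)) = ((g ^ n : Aˣ) : A)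
      rw [h1, Units.val_pow_eq_pow_val]
    rw [this]
    exact pow_mem hg n
  · change (pz k ((g : A) - 1)).coeff 0 = 1
    rw [← ev_zero, h1, pow_zero]

omit hΓ in
/-- The non-unital algebra generated by `V`. -/
theorem adjoin_mul_le (V : Submodule ℚ A) :
    Subalgebra.toSubmodule (Algebra.adjoin ℚ (V : Set A)) * V ≤
      V * Subalgebra.toSubmodule (Algebra.adjoin ℚ (V : Set A)) := by
  have h1 : ∀ t ∈ Algebra.adjoin ℚ (V : Set A),
      ∀ x ∈ V * Subalgebra.toSubmodule (Algebra.adjoin ℚ (V : Set A)),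
        t * x ∈ V * Subalgebra.toSubmodule (Algebra.adjoin ℚ (V : Set A)) := by
    intro t ht
    induction ht using Algebra.adjoin_induction with
    | mem t ht =>
      intro x hx
      refine Submodule.mul_mem_mul ht ?_
      have : V * Subalgebra.toSubmodule (Algebra.adjoin ℚ (V : Set A)) ≤
          Subalgebra.toSubmodule (Algebra.adjoin ℚ (V : Set A)) :=
        Submodule.mul_le.2 fun a ha b hb =>
          (Algebra.adjoin ℚ (V : Set A)).mul_mem (Algebra.subset_adjoin ha) hb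
      exact this hx
    | algebraMap r =>
      intro x hx
      rw [← Algebra.smul_def]
      exact Submodule.smul_mem _ _ hx
    | add a b _ _ iha ihb =>
      intro x hx
      rw [add_mul]
      exact add_mem (iha x hx) (ihb x hx)
    | mul a b _ _ iha ihb =>
      intro x hx
      rw [mul_assoc]
      exact iha _ (ihb x hx)
  rw [Submodule.mul_le]
  intro t ht v hv
  refine h1 t ht v ?_
  have h2 : (1 : A) ∈ Subalgebra.toSubmodule (Algebra.adjoin ℚ (V : Set A)) :=
    (Algebra.adjoin ℚ (V : Set A)).one_mem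
  have := Submodule.mul_mem_mul hv h2
  rwa [mul_one] at this

omit hΓ in
theorem mul_adjoin_pow_le (V : Submodule ℚ A) (f : ℕ) (hf : V ^ f ≤ ⊥) :
    (V * Subalgebra.toSubmodule (Algebra.adjoin ℚ (V : Set A))) ^ f ≤ ⊥ := by
  refine (mul_pow_le_pow_mul ?_ ?_ (adjoin_mul_le V) f).trans ?_
  · exact Submodule.mul_le.2 fun a ha b hb => (Algebra.adjoin ℚ (V : Set A)).mul_mem ha hb
  · exact Submodule.one_le.2 (Algebra.adjoin ℚ (V : Set A)).one_mem
  · calc V ^ f * Subalgebra.toSubmodule (Algebra.adjoin ℚ (V : Set A)) ≤ ⊥ * _ :=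
          mul_le_mul' hf le_rfl
      _ = ⊥ := Submodule.bot_mul _

theorem sub_one_mem (g : Aˣ) (hg : g ∈ Γ) :
    ((g : A) - 1) ∈ Submodule.span ℚ (tang Γ : Set A) *
      Subalgebra.toSubmodule (Algebra.adjoin ℚ (Submodule.span ℚ (tang Γ : Set A) : Set A)) := by
  rcases Nat.eq_zero_or_pos k with hk | hk
  · have := hΓ g hg
    rw [hk, zero_add, pow_one] at this
    rw [this]
    exact zero_mem _
  set a : A := (g : A) - 1 with ha
  set V := Submodule.span ℚ (tang Γ : Set A) with hV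
  obtain ⟨q, hq⟩ := exists_lg hk
  have hl : aeval a (lg k) ∈ V := Submodule.subset_span (log_mem_tang hΓ g hg)
  have hlj : ∀ j, aeval a (lg k) ^ (j + 1) ∈
      V * Subalgebra.toSubmodule (Algebra.adjoin ℚ (V : Set A)) := by
    intro j
    rw [pow_succ']
    exact Submodule.mul_mem_mul hl
      ((Algebra.adjoin ℚ (V : Set A)).pow_mem (Algebra.subset_adjoin hl) j)
  -- downward induction
  have key : ∀ d j : ℕ, k + 1 ≤ j + 1 + d → a ^ (j + 1) ∈
      V * Subalgebra.toSubmodule (Algebra.adjoin ℚ (V : Set A)) := by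
    intro d
    induction d with
    | zero =>
      intro j hj
      rw [pow_eq_zero_of_le (by omega) (hΓ g hg)]
      exact zero_mem _
    | succ d ih =>
      intro j hj
      have h1 : X ∣ ((1 + X * q) ^ (j + 1) - 1 : ℚ[X]) := by
        have h2 := sub_dvd_pow_sub_pow (1 + X * q : ℚ[X]) 1 (j + 1)
        rw [one_pow, add_sub_cancel_left] at h2
        exact (dvd_mul_right X q).trans h2
      obtain ⟨r, hr⟩ := h1
      have h3 : (lg k) ^ (j + 1) = X ^ (j + 1) + X ^ (j + 2) * r := by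
        rw [hq, mul_pow]
        have : (1 + X * q : ℚ[X]) ^ (j + 1) = 1 + X * r := by rw [← hr]; ring
        rw [this]
        ring
      have h4 := congrArg (aeval a) h3
      rw [map_pow, map_add, map_mul, map_pow, map_pow, Polynomial.aeval_X] at h4
      have h5 : a ^ (j + 1) = aeval a (lg k) ^ (j + 1) - a ^ (j + 2) * aeval a r := by
        rw [h4, add_sub_cancel_right]
      rw [h5]
      refine sub_mem (hlj j) ?_
      rw [Polynomial.aeval_eq_sum_range, Finset.mul_sum]
      refine Submodule.sum_mem _ fun i _ => ?_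
      rw [mul_smul_comm, ← pow_add]
      refine Submodule.smul_mem _ _ ?_
      have h6 : j + 2 + i = (j + 1 + i) + 1 := by ring
      rw [h6]
      exact ih (j + 1 + i) (by omega)
  have := key k 0 (by omega)
  rwa [zero_add, pow_one] at this

/-- **Step 6 (a).** -/
theorem unip_prod {f : ℕ} (hf : NilBound k f) (x : Fin f → Aˣ) (hx : ∀ i, x i ∈ Γ) :
    (List.ofFn fun i => ((x i : A) - 1)).prod = 0 := by
  have h1 := hf A (Submodule.span ℚ (tang Γ : Set A)) lieClosed_tang fun z hz => tang_nil hΓ hz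
  have h2 := mul_adjoin_pow_le _ f h1
  have h3 := pow_le_iff.1 h2 (fun i => ((x i : A) - 1)) fun i => sub_one_mem hΓ (x i) (hx i)
  exact (Submodule.mem_bot ℚ).1 h3

end

end Pool.Agent.H75.Zel
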